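import Pool.Agent.H27.ZP.Perim
import Pool.Agent.H73.ZP.Df

/-!
# Adapter: the grid and Lemma 1 of Theorem Z+ in the notation of `Pool.Agent.H73.ZP.Df`
-/

set_option autoImplicit false

open Finset Real

namespace ZP27

open ZP

/-- `qq l` is a `QMap`. -/
lemma qmap {l : ℝ → V} (h : ZP.Bd l) : H27ZP.QMap (qq l) := by
  have per2 : ∀ x, l (x + π + π) = l x := by
    intro x
    rw [show x + π + π = x + 2 * π by ring]
    exact h.per x
  refine ⟨?_, ?_, ?_⟩
  · unfold qq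
    exact h.cont.sub (h.cont.comp (continuous_id.add continuous_const))
  · intro x
    unfold qq
    rw [per2]
    abel
  · intro x y hxy
    have h1 : ZP.dt (ZP.uu x) (l y) < ZP.dt (ZP.uu x) (l x) := h.strict x y (fun e => hxy e.symm)
    have h2 : ZP.dt (ZP.uu (x + π)) (l (y + π)) ≤ ZP.dt (ZP.uu (x + π)) (l (x + π)) :=
      h.supp (x + π) (y + π)
    have e : ZP.uu (x + π) = -ZP.uu x := H27ZP.uu_pi x
    rw [e] at h2
    show ZP.dt (ZP.uu x) (l y - l (y + π)) < ZP.dt (ZP.uu x) (l x - l (x + π))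
    unfold ZP.dt at *
    simp only [Prod.fst_sub, Prod.snd_sub, Prod.fst_neg, Prod.snd_neg] at *
    linarith

/-- a vector as a linear form -/
noncomputable def lin (P : V) : (ℝ × ℝ) →ₗ[ℝ] ℝ where
  toFun v := ZP.dt P v
  map_add' u v := by unfold ZP.dt; simp; ring
  map_smul' r v := by unfold ZP.dt; simp; ring

lemma lin_apply (P v : V) : lin P v = ZP.dt P v := rfl

lemma gg_lin (P Q v : V) : H27ZP.gg (lin P) (lin Q) v = ZP.gg P Q v := rfl

/-- polar form with the angle in a given window -/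
lemma polar (n : V) (hn : n ≠ 0) (a : ℝ) :
    ∃ ρ φ : ℝ, 0 < ρ ∧ a ≤ φ ∧ φ < a + 2 * π ∧ n = ρ • ZP.uu φ := by
  set z : ℂ := ⟨n.1, n.2⟩ with hz
  have hz0 : z ≠ 0 := by
    intro h
    apply hn
    have h1 := congrArg Complex.re h
    have h2 := congrArg Complex.im h
    ext
    · simpa [hz] using h1
    · simpa [hz] using h2
  obtain ⟨m, hm, _⟩ := existsUnique_add_zsmul_mem_Ico (by linarith [pi_pos] : (0 : ℝ) < 2 * π)
    (Complex.arg z) a
  refine ⟨‖z‖, Complex.arg z + m • (2 * π), norm_pos_iff.2 hz0, hm.1, hm.2, ?_⟩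
  unfold ZP.uu
  have e1 : Real.cos (Complex.arg z + m • (2 * π)) = Real.cos (Complex.arg z) := by
    rw [zsmul_eq_mul]; exact Real.cos_add_int_mul_two_pi _ _
  have e2 : Real.sin (Complex.arg z + m • (2 * π)) = Real.sin (Complex.arg z) := by
    rw [zsmul_eq_mul]; exact Real.sin_add_int_mul_two_pi _ _
  rw [e1, e2]
  ext
  · simp only [Prod.smul_mk, smul_eq_mul]
    rw [Complex.norm_mul_cos_arg]
  · simp only [Prod.smul_mk, smul_eq_mul]
    rw [Complex.norm_mul_sin_arg]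

/-- positive cross product: the angle difference is in `(0, π)` -/
lemma angle_pos {n m : V} {ρ σ φ ψ : ℝ} (hρ : 0 < ρ) (hσ : 0 < σ) (hn : n = ρ • ZP.uu φ)
    (hm : m = σ • ZP.uu ψ) (h : 0 < ZP.cr n m) (h1 : φ ≤ ψ) (h2 : ψ < φ + 2 * π) :
    φ < ψ ∧ ψ < φ + π := by
  have e : ZP.cr n m = ρ * σ * sin (ψ - φ) := by
    rw [hn, hm, sin_sub]; unfold ZP.cr ZP.uu
    simp only [Prod.smul_mk, smul_eq_mul]
    ring
  rw [e] at h
  have hs : 0 < sin (ψ - φ) := (pos_iff_pos_of_mul_pos h).1 (mul_pos hρ hσ)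
  constructor
  · rcases eq_or_lt_of_le h1 with h3 | h3
    · rw [h3, sub_self, sin_zero] at hs; exact absurd hs (lt_irrefl _)
    · exact h3
  · by_contra hc
    push Not at hc
    have : sin (ψ - φ) ≤ 0 := by
      have h5 : sin (ψ - φ) = - sin (ψ - φ - π) := by rw [sin_sub_pi, neg_neg]
      rw [h5]
      have := sin_nonneg_of_nonneg_of_le_pi (by linarith : 0 ≤ ψ - φ - π) (by linarith)
      linarith
    linarith
/-- the three normals of a certificate -/
lemma three_angles (P Q : V) (h : 0 < ZP.cr P Q) :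
    ∃ a b c ra rb rc : ℝ, 0 < ra ∧ 0 < rb ∧ 0 < rc ∧ a < b ∧ b < a + π ∧ b < c ∧ c < b + π ∧
      c < a + 2 * π ∧ a + 2 * π < c + π ∧ -P = ra • ZP.uu a ∧ P - Q = rb • ZP.uu b ∧
      Q = rc • ZP.uu c := by
  have hP : -P ≠ 0 := by
    intro e
    have : P = 0 := neg_eq_zero.1 e
    rw [this] at h; unfold ZP.cr at h; simp at h
  have hPQ : P - Q ≠ 0 := by
    intro e
    have : P = Q := sub_eq_zero.1 e
    rw [this] at h; unfold ZP.cr at h; linarith
  have hQ : Q ≠ 0 := by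
    intro e
    rw [e] at h; unfold ZP.cr at h; simp at h
  obtain ⟨ra, a, hra, _, _, ea⟩ := polar (-P) hP 0
  obtain ⟨rb, b, hrb, hb1, hb2, eb⟩ := polar (P - Q) hPQ a
  obtain ⟨rc, c, hrc, hc1, hc2, ec⟩ := polar Q hQ b
  have k1 : 0 < ZP.cr (-P) (P - Q) := by
    unfold ZP.cr at *; simp only [Prod.fst_neg, Prod.snd_neg, Prod.fst_sub, Prod.snd_sub]; linarith
  have k2 : 0 < ZP.cr (P - Q) Q := by
    unfold ZP.cr at *; simp only [Prod.fst_sub, Prod.snd_sub]; linarith
  have k3 : 0 < ZP.cr Q (-P) := by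
    unfold ZP.cr at *; simp only [Prod.fst_neg, Prod.snd_neg]; linarith
  obtain ⟨a1, a2⟩ := angle_pos hra hrb ea eb k1 hb1 hb2
  obtain ⟨b1, b2⟩ := angle_pos hrb hrc eb ec k2 hc1 hc2
  have ea' : -P = ra • ZP.uu (a + 2 * π) := by
    have : ZP.uu (a + 2 * π) = ZP.uu a := H27ZP.uu_2pi a
    rw [this]; exact ea
  obtain ⟨c1, c2⟩ := angle_pos hrc hra ec ea' k3 (by linarith) (by linarith)
  exact ⟨a, b, c, ra, rb, rc, hra, hrb, hrc, a1, a2, b1, b2, c1, c2, ea, eb, ec⟩

/-- every angle has, up to a multiple of `π`, a representative `x`, `s x` or `s (s x)` with `x` in the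
fundamental window -/
lemma window_rep {q : ℝ → ℝ × ℝ} (hq : H27ZP.QMap q) (t0 φ : ℝ) :
    ∃ x, t0 ≤ x ∧ x < hq.s t0 ∧ ∃ n : ℤ, φ + n * π = x ∨ φ + n * π = hq.s x ∨
      φ + n * π = hq.s (hq.s x) := by
  obtain ⟨n, hn, _⟩ := existsUnique_add_zsmul_mem_Ico pi_pos φ t0
  rw [zsmul_eq_mul] at hn
  have inv : ∀ y, hq.s (hq.s (hq.s y) - π) = y := by
    intro y; rw [hq.s_sub_pi, hq.s3]; ring
  have h3 := hq.s3 t0
  by_cases h1 : φ + n * π < hq.s t0
  · exact ⟨φ + n * π, hn.1, h1, n, Or.inl rfl⟩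
  · push Not at h1
    by_cases h2 : φ + n * π < hq.s (hq.s t0)
    · set y := φ + n * π with hy
      refine ⟨hq.s (hq.s y) - π, ?_, ?_, n, Or.inr (Or.inl (inv y).symm)⟩
      · rw [← hq.s_mono.le_iff_le, inv]; exact h1
      · rw [← hq.s_mono.lt_iff_lt, inv]; exact h2
    · push Not at h2
      set y := φ + n * π with hy
      refine ⟨hq.s y - π, ?_, ?_, n, Or.inr (Or.inr ?_)⟩
      · rw [← hq.s_mono.le_iff_le, ← hq.s_mono.le_iff_le, hq.s_sub_pi, inv]; exact h2
      · have hlt : y < hq.s (hq.s (hq.s t0)) := by rw [h3]; exact hn.2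
        rw [← hq.s_mono.lt_iff_lt, ← hq.s_mono.lt_iff_lt, hq.s_sub_pi, inv]
        exact hlt
      · rw [hq.s_sub_pi, inv]

/-- the grid with prescribed angles -/
lemma grid_hit {q : ℝ → ℝ × ℝ} (hq : H27ZP.QMap q) (X : Finset ℝ) {d : ℝ} (hd : 0 < d)
    (Y : Finset ℝ) (t0 : ℝ) (hX : ∀ x ∈ X, t0 ≤ x ∧ x < hq.s t0) :
    ∃ (M : ℕ) (th : ℤ → ℝ), 0 < M ∧ StrictMono th ∧ (∀ i, th (i + M) = hq.s (th i)) ∧
      (∀ x ∈ X, ∃ j : ℤ, th j = x) ∧ (∀ y ∈ Y, ∃ j : ℤ, th j = y) ∧
      (∀ i, th (i + 1) - th i < d) := by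
  classical
  choose f hf1 hf2 hf3 using fun y => window_rep hq t0 y
  obtain ⟨M, th, hM, hmono, _, hth, hj, hmesh⟩ := hq.exists_grid t0 (X ∪ Y.image f) (by
    intro x hx
    rw [Finset.mem_union, Finset.mem_image] at hx
    rcases hx with h | ⟨y, _, rfl⟩
    · exact hX x h
    · exact ⟨hf1 y, hf2 y⟩) d hd
  have th3 : ∀ i, th (i + 3 * M) = th i + π := by
    intro i
    rw [show i + 3 * (M : ℤ) = i + M + M + M by ring, hth, hth, hth, hq.s3]
  have th3k : ∀ (i k : ℤ), th (i + k * (3 * M)) = th i + k * π := by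
    intro i k
    induction k using Int.induction_on with
    | zero => simp
    | succ n ih =>
      rw [show i + ((n : ℤ) + 1) * (3 * M) = i + n * (3 * M) + 3 * M by ring, th3, ih]
      push_cast; ring
    | pred n ih =>
      have := th3 (i + (-(n : ℤ) - 1) * (3 * M))
      rw [show i + (-(n : ℤ) - 1) * (3 * M) + 3 * M = i + -(n : ℤ) * (3 * M) by ring, ih] at this
      push_cast at this ⊢
      linarith
  refine ⟨M, th, hM, hmono, hth, ?_, ?_, hmesh⟩
  · intro x hx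
    obtain ⟨j, _, e⟩ := hj x (Finset.mem_union_left _ hx)
    exact ⟨j, e⟩
  · intro y hy
    obtain ⟨j, _, e⟩ := hj (f y) (Finset.mem_union_right _ (Finset.mem_image_of_mem _ hy))
    obtain ⟨n, h⟩ := hf3 y
    rcases h with h | h | h
    · refine ⟨j + (-n) * (3 * M), ?_⟩
      rw [th3k, e, ← h]; push_cast; ring
    · refine ⟨j + M + (-n) * (3 * M), ?_⟩
      rw [th3k, hth, e, ← h]; push_cast; ring
    · refine ⟨j + M + M + (-n) * (3 * M), ?_⟩
      rw [th3k, hth, hth, e, ← h]; push_cast; ring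

/-- the exact three point value -/
lemma three_point {l : ℝ → V} (h : ZP.Bd l) (P Q : V) (a b c ra rb rc : ℝ) (hra : 0 < ra)
    (hrb : 0 < rb) (hrc : 0 < rc) (hab : a < b) (hab' : b < a + π) (hbc : b < c)
    (hbc' : c < b + π) (hca : c < a + 2 * π) (hca' : a + 2 * π < c + π)
    (ea : -P = ra • ZP.uu a) (eb : P - Q = rb • ZP.uu b) (ec : Q = rc • ZP.uu c)
    (N : ℕ) (th : ℤ → ℝ) (hmono : StrictMono th) (hN : ∀ i, th (i + N) = th i + 2 * π)
    (ia ib ic : ℤ) (hia : th ia = a) (hib : th ib = b) (hic : th ic = c) :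
    ∑ m ∈ range N, ZP.gg P Q (l (th (m + 1)) - l (th m)) ≤
      - ZP.dt P (l a) + ZP.dt (P - Q) (l b) + ZP.dt Q (l c) := by
  have lper : ∀ i, l (th (i + N)) = l (th i) := by intro i; rw [hN, h.per]
  set f : ℤ → ℝ := fun m => ZP.gg P Q (l (th (m + 1)) - l (th m)) with hf
  have fper : ∀ i, f (i + N) = f i := by
    intro i
    show ZP.gg P Q (l (th (i + N + 1)) - l (th (i + N))) = _
    rw [show i + (N : ℤ) + 1 = i + 1 + N by ring, lper, lper]
  have i1 : ia < ib := hmono.lt_iff_lt.1 (by rw [hia, hib]; exact hab)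
  have i2 : ib < ic := hmono.lt_iff_lt.1 (by rw [hib, hic]; exact hbc)
  have i3 : ic < ia + N := hmono.lt_iff_lt.1 (by rw [hic, hN, hia]; exact hca)
  -- support inequalities of a cell
  have su : ∀ m : ℤ, ZP.dt (ZP.uu (th m)) (l (th (m + 1)) - l (th m)) ≤ 0 ∧
      0 ≤ ZP.dt (ZP.uu (th (m + 1))) (l (th (m + 1)) - l (th m)) := by
    intro m
    have s1 := h.supp (th m) (th (m + 1))
    have s2 := h.supp (th (m + 1)) (th m)
    unfold ZP.dt at *
    simp only [Prod.fst_sub, Prod.snd_sub]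
    constructor <;> linarith
  have dl : ∀ (m : ℤ) (α : ℝ), α ≤ th m → th (m + 1) < α + π →
      ZP.dt (ZP.uu α) (l (th (m + 1)) - l (th m)) ≤ 0 := fun m α h1 h2 =>
    H27ZP.dt_left α (th m) (th (m + 1)) h1 (hmono (by omega)) h2 _ (su m).1 (su m).2
  have dr : ∀ (m : ℤ) (β : ℝ), th (m + 1) ≤ β → β < th m + π →
      0 ≤ ZP.dt (ZP.uu β) (l (th (m + 1)) - l (th m)) := fun m β h1 h2 =>
    H27ZP.dt_right β (th m) (th (m + 1)) h1 (hmono (by omega)) h2 _ (su m).1 (su m).2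
  have sP : ∀ e : V, -ZP.dt P e = ra * ZP.dt (ZP.uu a) e := by
    intro e
    have : -ZP.dt P e = ZP.dt (-P) e := by unfold ZP.dt; simp; ring
    rw [this, ea]; unfold ZP.dt; simp; ring
  have sPQ : ∀ e : V, ZP.dt P e - ZP.dt Q e = rb * ZP.dt (ZP.uu b) e := by
    intro e
    have : ZP.dt P e - ZP.dt Q e = ZP.dt (P - Q) e := by unfold ZP.dt; simp; ring
    rw [this, eb]; unfold ZP.dt; simp; ring
  have sQ : ∀ e : V, ZP.dt Q e = rc * ZP.dt (ZP.uu c) e := by
    intro e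
    conv_lhs => rw [ec]
    unfold ZP.dt; simp; ring
  have tel : ∀ (R : V) (i : ℤ) (n : ℕ), ∑ r ∈ range n,
      ZP.dt R (l (th (i + r + 1)) - l (th (i + r))) = ZP.dt R (l (th (i + n)) - l (th i)) := by
    intro R i n
    induction n with
    | zero => unfold ZP.dt; simp
    | succ n ih =>
      rw [Finset.sum_range_succ, ih]
      push_cast
      rw [show i + ((n : ℤ) + 1) = i + n + 1 by ring]
      unfold ZP.dt
      simp only [Prod.fst_sub, Prod.snd_sub]
      ring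
  -- three blocks
  obtain ⟨n1, hn1⟩ := Int.eq_ofNat_of_zero_le (by omega : 0 ≤ ib - ia)
  obtain ⟨n2, hn2⟩ := Int.eq_ofNat_of_zero_le (by omega : 0 ≤ ic - ib)
  obtain ⟨n3, hn3⟩ := Int.eq_ofNat_of_zero_le (by omega : 0 ≤ ia + N - ic)
  have hNn : N = n1 + n2 + n3 := by omega
  have e0 : ∑ m ∈ range N, f m = ∑ m ∈ range N, f (ia + m) :=
    (H27ZP.sum_window f N fper ia).symm
  have e1 : ∑ m ∈ range N, f (ia + m) = ∑ m ∈ range n1, f (ia + m) +
      ∑ m ∈ range n2, f (ib + m) + ∑ m ∈ range n3, f (ic + m) := by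
    rw [hNn, Finset.sum_range_add, Finset.sum_range_add]
    congr 1
    · congr 1
      apply Finset.sum_congr rfl
      intro m _
      congr 1
      push_cast
      omega
    · apply Finset.sum_congr rfl
      intro m _
      congr 1
      push_cast
      omega
  have b1 : ∑ m ∈ range n1, f (ia + m) ≤ ZP.dt P (l b - l a) := by
    have : ∑ m ∈ range n1, ZP.dt P (l (th (ia + m + 1)) - l (th (ia + m))) =
        ZP.dt P (l b - l a) := by
      rw [tel, show ia + (n1 : ℤ) = ib by omega, hib, hia]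
    rw [← this]
    apply Finset.sum_le_sum
    intro m hm
    rw [Finset.mem_range] at hm
    have m1 : a ≤ th (ia + m) := by rw [← hia]; exact hmono.monotone (by omega)
    have m2 : th (ia + m + 1) ≤ b := by rw [← hib]; exact hmono.monotone (by omega)
    have m3 : th (ia + m) < th (ia + m + 1) := hmono (by omega)
    have k1 := dl (ia + m) a m1 (by linarith)
    have k2 := dr (ia + m) b m2 (by linarith)
    have k3 := sP (l (th (ia + m + 1)) - l (th (ia + m)))
    have k4 := sPQ (l (th (ia + m + 1)) - l (th (ia + m)))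
    have k5 := mul_nonpos_of_nonneg_of_nonpos hra.le k1
    have k6 := mul_nonneg hrb.le k2
    show ZP.gg P Q _ ≤ _
    unfold ZP.gg
    exact max_le (by linarith) (max_le le_rfl (by linarith))
  have b2 : ∑ m ∈ range n2, f (ib + m) ≤ ZP.dt Q (l c - l b) := by
    have : ∑ m ∈ range n2, ZP.dt Q (l (th (ib + m + 1)) - l (th (ib + m))) =
        ZP.dt Q (l c - l b) := by
      rw [tel, show ib + (n2 : ℤ) = ic by omega, hic, hib]
    rw [← this]
    apply Finset.sum_le_sum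
    intro m hm
    rw [Finset.mem_range] at hm
    have m1 : b ≤ th (ib + m) := by rw [← hib]; exact hmono.monotone (by omega)
    have m2 : th (ib + m + 1) ≤ c := by rw [← hic]; exact hmono.monotone (by omega)
    have m3 : th (ib + m) < th (ib + m + 1) := hmono (by omega)
    have k1 := dl (ib + m) b m1 (by linarith)
    have k2 := dr (ib + m) c m2 (by linarith)
    have k3 := sQ (l (th (ib + m + 1)) - l (th (ib + m)))
    have k4 := sPQ (l (th (ib + m + 1)) - l (th (ib + m)))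
    have k5 := mul_nonpos_of_nonneg_of_nonpos hrb.le k1
    have k6 := mul_nonneg hrc.le k2
    show ZP.gg P Q _ ≤ _
    unfold ZP.gg
    exact max_le (by linarith) (max_le (by linarith) le_rfl)
  have b3 : ∑ m ∈ range n3, f (ic + m) ≤ 0 := by
    apply Finset.sum_nonpos
    intro m hm
    rw [Finset.mem_range] at hm
    have m1 : c ≤ th (ic + m) := by rw [← hic]; exact hmono.monotone (by omega)
    have m2 : th (ic + m + 1) ≤ a + 2 * π := by
      rw [← hia, ← hN]; exact hmono.monotone (by omega)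
    have m3 : th (ic + m) < th (ic + m + 1) := hmono (by omega)
    have k1 := dl (ic + m) c m1 (by linarith)
    have k2 := dr (ic + m) (a + 2 * π) m2 (by linarith)
    have e2 : ZP.uu (a + 2 * π) = ZP.uu a := H27ZP.uu_2pi a
    rw [e2] at k2
    have k3 := sQ (l (th (ic + m + 1)) - l (th (ic + m)))
    have k4 := sP (l (th (ic + m + 1)) - l (th (ic + m)))
    have k5 := mul_nonpos_of_nonneg_of_nonpos hrc.le k1
    have k6 := mul_nonneg hra.le k2
    show ZP.gg P Q _ ≤ _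
    unfold ZP.gg
    exact max_le le_rfl (max_le (by linarith) (by linarith))
  have fin : ZP.dt P (l b - l a) + ZP.dt Q (l c - l b) =
      - ZP.dt P (l a) + ZP.dt (P - Q) (l b) + ZP.dt Q (l c) := by
    unfold ZP.dt
    simp only [Prod.fst_sub, Prod.snd_sub]
    ring
  show ∑ m ∈ range N, f m ≤ _
  rw [e0, e1, ← fin]
  linarith

/-- THE GRID AND LEMMA 1 (exact), for six certificates at once. -/
theorem grid_L1 {l : ℝ → V} (h : ZP.Bd l) (P Q : Fin 6 → V) (hPQ : ∀ i, 0 < ZP.cr (P i) (Q i))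
    {d : ℝ} (hd : 0 < d) :
    ∃ (M : ℕ) (th : ℤ → ℝ), 0 < M ∧ StrictMono th ∧ (∀ i, th (i + 3 * M) = th i + π) ∧
      (∀ i, th (i + 1) - th i ≤ d) ∧ Hx M (vv l th) ∧
      ∀ i, ∃ φ₁ φ₂ φ₃, ∑ r ∈ range M, min (Ee (gg (P i) (Q i)) M (vv l th) r)
          (Oo (gg (P i) (Q i)) M (vv l th) r) ≤
        - ZP.dt (P i) (l φ₁) + ZP.dt (P i - Q i) (l φ₂) + ZP.dt (Q i) (l φ₃) := by
  classical
  have hq := qmap h
  choose x hx1 hx2 hx3 using fun i : Fin 6 => H27ZP.exists_balanced (lin (P i)) (lin (Q i)) hq.s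
    hq.s_cont hq.lt_s hq.s3 0
  choose a b c ra rb rc hra hrb hrc hab hab' hbc hbc' hca hca' ea eb ec using
    fun i : Fin 6 => three_angles (P i) (Q i) (hPQ i)
  obtain ⟨M, th, hM, hmono, hth, hX, hY, hmesh⟩ := grid_hit hq (Finset.univ.image x) hd
    (Finset.univ.image a ∪ Finset.univ.image b ∪ Finset.univ.image c) 0 (by
      intro y hy
      rw [Finset.mem_image] at hy
      obtain ⟨i, _, rfl⟩ := hy
      exact ⟨hx1 i, hx2 i⟩)
  obtain ⟨g1, g2, g3, g4⟩ := hq.grid_incr M th hmono hth (vv l th) (fun i => rfl)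
  have hN : ∀ i, th (i + (6 * M : ℕ)) = th i + 2 * π := by
    intro i
    push_cast
    rw [show i + 6 * (M : ℤ) = i + 3 * M + 3 * M by ring, g1, g1]; ring
  refine ⟨M, th, hM, hmono, g1, fun i => (hmesh i).le, ⟨hM, g2, g3, g4⟩, ?_⟩
  intro i
  obtain ⟨j, hj⟩ := hX (x i) (Finset.mem_image_of_mem _ (Finset.mem_univ i))
  obtain ⟨ja, hja⟩ := hY (a i) (Finset.mem_union_left _ (Finset.mem_union_left _
    (Finset.mem_image_of_mem _ (Finset.mem_univ i))))
  obtain ⟨jb, hjb⟩ := hY (b i) (Finset.mem_union_left _ (Finset.mem_union_right _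
    (Finset.mem_image_of_mem _ (Finset.mem_univ i))))
  obtain ⟨jc, hjc⟩ := hY (c i) (Finset.mem_union_right _
    (Finset.mem_image_of_mem _ (Finset.mem_univ i)))
  refine ⟨a i, b i, c i, ?_⟩
  have key := H27ZP.lemma1_grid (lin (P i)) (lin (Q i)) hq.s l h.supp h.per hq.lt_s hq.s3
    (fun t => hq.chord t) M th hmono.monotone hth (vv l th) (fun k => rfl) j
    (by rw [hj]; exact hx3 i)
  have tp := three_point h (P i) (Q i) (a i) (b i) (c i) (ra i) (rb i) (rc i) (hra i) (hrb i)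
    (hrc i) (hab i) (hab' i) (hbc i) (hbc' i) (hca i) (hca' i) (ea i) (eb i) (ec i) (6 * M) th
    hmono hN ja jb jc hja hjb hjc
  exact le_trans key tp

end ZP27
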