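import Pool.Agent.H27.ZP.Ad

/-!
# The grid and Lemma 1 for all bodies with the same difference body
-/

set_option autoImplicit false

open Finset Real

namespace ZP27

open ZP

/-- THE GRID AND LEMMA 1 (exact), for six certificates and all bodies with difference body `qq l`. -/
theorem grid_L1' {l : ℝ → V} (h : ZP.Bd l) (P Q : Fin 6 → V) (hPQ : ∀ i, 0 < ZP.cr (P i) (Q i))
    {d : ℝ} (hd : 0 < d) :
    ∃ (M : ℕ) (th : ℤ → ℝ), 0 < M ∧ StrictMono th ∧ (∀ i, th (i + 3 * M) = th i + π) ∧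
      (∀ i, th (i + 1) - th i ≤ d) ∧ Hx M (vv l th) ∧
      ∀ (L : ℝ → V), ZP.Bd L → qq L = qq l → ∀ i, ∃ φ₁ φ₂ φ₃,
        ∑ r ∈ range M, min (Ee (gg (P i) (Q i)) M (vv l th) r)
          (Oo (gg (P i) (Q i)) M (vv l th) r) ≤
        - ZP.dt (P i) (L φ₁) + ZP.dt (P i - Q i) (L φ₂) + ZP.dt (Q i) (L φ₃) := by
  classical
  have hq := qmap h
  choose x hx1 hx2 hx3 using fun i : Fin 6 => H27ZP.exists_balanced (lin (P i)) (lin (Q i)) hq.s
    hq.s_cont hq.lt_s hq.s3 0
  choose a b c ra rb rc hra hrb hrc hab hab' hbc hbc' hca hca' ea eb ec using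
    fun i : Fin 6 => three_angles (P i) (Q i) (hPQ i)
  obtain ⟨M, th, hM, hmono, hth, hX, hY, hmesh⟩ := grid_hit hq (Finset.univ.image x) hd
    (Finset.univ.image a ∪ Finset.univ.image b ∪ Finset.univ.image c) 0 (by
      intro y hy
      rw [Finset.mem_image] at hy
      obtain ⟨i, _, rfl⟩ := hy
      exact ⟨hx1 i, hx2 i⟩)
  obtain ⟨g1, g2, g3, g4⟩ := hq.grid_incr M th hmono hth (vv l th) (fun i => rfl)
  have hN : ∀ i, th (i + (6 * M : ℕ)) = th i + 2 * π := by
    intro i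
    push_cast
    rw [show i + 6 * (M : ℤ) = i + 3 * M + 3 * M by ring, g1, g1]; ring
  refine ⟨M, th, hM, hmono, g1, fun i => (hmesh i).le, ⟨hM, g2, g3, g4⟩, ?_⟩
  intro L hL hLq i
  have hLq' : ∀ t, L t - L (t + π) = l t - l (t + π) := fun t => congrFun hLq t
  have hch : ∀ t, L (hq.s t) - L (hq.s t + π) =
      (L t - L (t + π)) + (L (hq.s (hq.s t)) - L (hq.s (hq.s t) + π)) := by
    intro t
    rw [hLq', hLq', hLq']
    exact hq.chord t
  have hvv : ∀ k, vv l th k =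
      (L (th (k + 1)) - L (th (k + 1) + π)) - (L (th k) - L (th k + π)) := by
    intro k
    rw [hLq', hLq']
    rfl
  obtain ⟨j, hj⟩ := hX (x i) (Finset.mem_image_of_mem _ (Finset.mem_univ i))
  obtain ⟨ja, hja⟩ := hY (a i) (Finset.mem_union_left _ (Finset.mem_union_left _
    (Finset.mem_image_of_mem _ (Finset.mem_univ i))))
  obtain ⟨jb, hjb⟩ := hY (b i) (Finset.mem_union_left _ (Finset.mem_union_right _
    (Finset.mem_image_of_mem _ (Finset.mem_univ i))))
  obtain ⟨jc, hjc⟩ := hY (c i) (Finset.mem_union_right _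
    (Finset.mem_image_of_mem _ (Finset.mem_univ i)))
  refine ⟨a i, b i, c i, ?_⟩
  have key := H27ZP.lemma1_grid (lin (P i)) (lin (Q i)) hq.s L hL.supp hL.per hq.lt_s hq.s3
    hch M th hmono.monotone hth (vv l th) hvv j
    (by rw [hj]; exact hx3 i)
  have tp := three_point hL (P i) (Q i) (a i) (b i) (c i) (ra i) (rb i) (rc i) (hra i) (hrb i)
    (hrc i) (hab i) (hab' i) (hbc i) (hbc' i) (hca i) (hca' i) (ea i) (eb i) (ec i) (6 * M) th
    hmono hN ja jb jc hja hjb hjc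
  exact le_trans key tp

end ZP27
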