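import Pool.Agent.H27.ZP.Ad
import Pool.Agent.H73.ZP.Bda

/-!
# Application of Theorem Z+: approximation of a bounded set by a body of type `ZP.Bd`,
and frontier points of the hull
-/

set_option autoImplicit false

open Real Filter Topology

namespace ZP27

open ZP

/-- a bounded set lies in the interior of a `Bd` body which is close to its hull -/
theorem exists_bd {X : Set V} (hne : X.Nonempty) (hb : Bornology.IsBounded X) {η : ℝ}
    (hη : 0 < η) : ∃ (l : ℝ → V) (ε : ℝ), ZP.Bd l ∧ 0 < ε ∧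
      (∀ x ∈ X, ∀ θ, dt (uu θ) x + ε ≤ dt (uu θ) (l θ)) ∧
      (∀ θ, ∃ x ∈ X, dt (uu θ) (l θ) ≤ dt (uu θ) x + η) := by
  classical
  obtain ⟨ρ, hρ0, hρ⟩ : ∃ ρ : ℝ, 0 < ρ ∧ ∀ x ∈ X, ‖x‖ ≤ ρ := by
    obtain ⟨ρ, hρ⟩ := hb.exists_norm_le
    exact ⟨max ρ 1, by positivity, fun x hx => (hρ x hx).trans (le_max_left _ _)⟩
  have hn : ∀ x ∈ X, H27ZP.nsq x ≤ (2 * ρ) ^ 2 := by
    intro x hx
    have h1 := hρ x hx
    have h2 : |x.1| ≤ ρ := (norm_fst_le x).trans h1
    have h3 : |x.2| ≤ ρ := (norm_snd_le x).trans h1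
    have h4 : x.1 ^ 2 ≤ ρ ^ 2 := by rw [← sq_abs]; exact pow_le_pow_left₀ (abs_nonneg _) h2 2
    have h5 : x.2 ^ 2 ≤ ρ ^ 2 := by rw [← sq_abs]; exact pow_le_pow_left₀ (abs_nonneg _) h3 2
    unfold H27ZP.nsq
    nlinarith
  -- support function
  have hbd : ∀ θ, BddAbove ((fun x => dt (uu θ) x) '' X) := by
    intro θ
    refine ⟨2 * ‖uu θ‖ * ρ, ?_⟩
    rintro _ ⟨x, hx, rfl⟩
    refine (le_abs_self _).trans ((dt_le _ _).trans ?_)
    exact mul_le_mul_of_nonneg_left (hρ x hx) (by positivity)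
  obtain ⟨h, hh⟩ : ∃ h : ℝ → ℝ, ∀ θ, h θ = sSup ((fun x => dt (uu θ) x) '' X) := ⟨_, fun _ => rfl⟩
  have hle : ∀ θ, ∀ x ∈ X, dt (uu θ) x ≤ h θ := by
    intro θ x hx
    rw [hh]
    exact le_csSup (hbd θ) ⟨x, hx, rfl⟩
  have hlt : ∀ θ, ∀ e : ℝ, 0 < e → ∃ x ∈ X, h θ < dt (uu θ) x + e := by
    intro θ e he
    have h1 : h θ - e < sSup ((fun x => dt (uu θ) x) '' X) := by rw [← hh]; linarith
    obtain ⟨_, ⟨x, hx, rfl⟩, h2⟩ := exists_lt_of_lt_csSup (hne.image _) h1
    exact ⟨x, hx, by simpa using (by linarith : h θ < dt (uu θ) x + e)⟩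
  -- constants
  set e : ℝ := η / 8 with he
  have he0 : 0 < e := by positivity
  set C : ℝ := 2 * ρ + 2 * e + 1 with hC
  have hC0 : 0 < C := by positivity
  set δ : ℝ := η / (8 * C) with hδ
  have hδ0 : 0 < δ := by positivity
  -- finite net of directions
  have hun : ∀ θ, ‖uu θ‖ ≤ 1 := by
    intro θ
    rw [Prod.norm_def]
    exact max_le (by simpa [uu] using Real.abs_cos_le_one θ)
      (by simpa [uu] using Real.abs_sin_le_one θ)
  have htb : TotallyBounded (Set.range uu) := by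
    have hbu : Bornology.IsBounded (Set.range uu) := by
      rw [isBounded_iff_forall_norm_le]
      exact ⟨1, by rintro _ ⟨θ, rfl⟩; exact hun θ⟩
    exact hbu.isCompact_closure.totallyBounded.subset subset_closure
  obtain ⟨T, hTs, hTf, hTc⟩ := Metric.finite_approx_of_totallyBounded htb δ hδ0
  choose! g hg using fun (y : V) (hy : y ∈ T) => hTs hy
  set Φ : Finset ℝ := (hTf.toFinset.image g) ∪ {0, π / 2, π, 3 * π / 2} with hΦ
  have hnet : ∀ θ, ∃ φ ∈ Φ, ‖uu θ - uu φ‖ ≤ δ := by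
    intro θ
    have h1 := hTc ⟨θ, rfl⟩
    simp only [Set.mem_iUnion, Metric.mem_ball] at h1
    obtain ⟨y, hy, h2⟩ := h1
    refine ⟨g y, ?_, ?_⟩
    · rw [hΦ]
      exact Finset.mem_union_left _ (Finset.mem_image_of_mem _ (hTf.mem_toFinset.2 hy))
    · rw [hg y hy, ← dist_eq_norm]
      exact h2.le
  obtain ⟨l0, ε, hε, hcont, hsup, hper, -, hmar, hout⟩ := H27ZP.exists_support_map X hne (2 * ρ)
    (by positivity) hn Φ h (fun φ _ x hx => hle φ x hx) e he0
  -- bound of the body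
  have hax : ∀ t, |(l0 t).1| ≤ 2 * ρ + e ∧ |(l0 t).2| ≤ 2 * ρ + e := by
    intro t
    have hh2 : ∀ θ, h θ ≤ 2 * ρ := by
      intro θ
      rw [hh]
      apply csSup_le (hne.image _)
      rintro _ ⟨x, hx, rfl⟩
      refine (le_abs_self _).trans ((dt_le _ _).trans ?_)
      have := hun θ
      have := hρ x hx
      have := norm_nonneg x
      have := norm_nonneg (uu θ)
      nlinarith
    have m1 : (0 : ℝ) ∈ Φ := by rw [hΦ]; simp
    have m2 : π / 2 ∈ Φ := by rw [hΦ]; simp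
    have m3 : π ∈ Φ := by rw [hΦ]; simp
    have m4 : 3 * π / 2 ∈ Φ := by rw [hΦ]; simp
    have a1 := hout _ m1 t
    have a2 := hout _ m2 t
    have a3 := hout _ m3 t
    have a4 := hout _ m4 t
    have b1 := hh2 0
    have b2 := hh2 (π / 2)
    have b3 := hh2 π
    have b4 := hh2 (3 * π / 2)
    have s4 : Real.sin (3 * π / 2) = -1 := by
      rw [show 3 * π / 2 = π / 2 + π by ring, Real.sin_add_pi, Real.sin_pi_div_two]
    have c4 : Real.cos (3 * π / 2) = 0 := by
      rw [show 3 * π / 2 = π / 2 + π by ring, Real.cos_add_pi, Real.cos_pi_div_two, neg_zero]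
    unfold H27ZP.dt H27ZP.uu at a1 a2 a3 a4
    simp only [Real.cos_zero, Real.sin_zero, Real.cos_pi_div_two, Real.sin_pi_div_two,
      Real.cos_pi, Real.sin_pi, s4, c4] at a1 a2 a3 a4
    constructor
    · rw [abs_le]; constructor <;> linarith
    · rw [abs_le]; constructor <;> linarith
  -- the body
  have hu : Continuous uu := by unfold uu; fun_prop
  have huu1 : ∀ x, dt (uu x) (uu x) = 1 := by
    intro x; rw [dt_uu_uu, sub_self, Real.cos_zero]
  refine ⟨fun x => l0 x + e • uu x, ε, ⟨?_, ?_, ?_, ?_⟩, hε, ?_, ?_⟩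
  · exact hcont.add (hu.const_smul e)
  · intro θ
    simp only [hper, uu_per]
  · intro θ φ
    have h1 := hsup θ φ
    have h2 : dt (uu θ) (uu φ) ≤ 1 := by rw [dt_uu_uu]; exact Real.cos_le_one _
    simp only [dt_add, dt_smul, huu1]
    have h3 := mul_le_mul_of_nonneg_left h2 he0.le
    have h1' : dt (uu θ) (l0 φ) ≤ dt (uu θ) (l0 θ) := h1
    linarith
  · intro θ φ hne'
    have h1' : dt (uu θ) (l0 φ) ≤ dt (uu θ) (l0 θ) := hsup θ φ
    have h2 : dt (uu θ) (uu φ) < 1 := H27ZP.dt_uu_lt θ φ (fun h => hne' h.symm)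
    simp only [dt_add, dt_smul, huu1]
    have h3 := mul_lt_mul_of_pos_left h2 he0
    linarith
  · intro x hx θ
    have h1 : dt (uu θ) x + ε ≤ dt (uu θ) (l0 θ) := hmar x hx θ
    simp only [dt_add, dt_smul, huu1]
    linarith
  · intro θ
    obtain ⟨φ, hφ, hd⟩ := hnet θ
    obtain ⟨x, hx, hxl⟩ := hlt φ e he0
    refine ⟨x, hx, ?_⟩
    have h1 : dt (uu φ) (l0 θ) ≤ h φ + e := hout φ hφ θ
    have h2 : dt (uu θ) (l0 θ) = dt (uu φ) (l0 θ) + dt (uu θ - uu φ) (l0 θ) := by
      rw [sub_dt]; ring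
    have h3 : dt (uu φ) x = dt (uu θ) x - dt (uu θ - uu φ) x := by
      rw [sub_dt]; ring
    have hl0 : ‖l0 θ‖ ≤ 2 * ρ + e := by
      rw [Prod.norm_def]
      exact max_le (hax θ).1 (hax θ).2
    have h4 : dt (uu θ - uu φ) (l0 θ) ≤ 2 * δ * C := by
      refine (le_abs_self _).trans ((dt_le _ _).trans ?_)
      have h5 : ‖l0 θ‖ ≤ C := by rw [hC]; linarith
      exact mul_le_mul (by linarith) h5 (norm_nonneg _) (by positivity)
    have h6 : -(2 * δ * C) ≤ dt (uu θ - uu φ) x := by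
      have h7 : |dt (uu θ - uu φ) x| ≤ 2 * δ * C := by
        refine (dt_le _ _).trans ?_
        have h5 : ‖x‖ ≤ C := by have := hρ x hx; rw [hC]; linarith
        exact mul_le_mul (by linarith) h5 (norm_nonneg _) (by positivity)
      exact (abs_le.1 h7).1
    have h8 : 2 * δ * C = η / 4 := by
      rw [hδ]; field_simp; ring
    simp only [dt_add, dt_smul, huu1]
    rw [h8] at h4 h6
    linarith

/-- the face of the body in the direction `θ` is the single point `c θ` -/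
theorem face {c : ℝ → V} (h : Bd c) {x : V} {θ : ℝ} (hx : ∀ φ, dt (uu φ) x ≤ dt (uu φ) (c φ))
    (he : dt (uu θ) x = dt (uu θ) (c θ)) : x = c θ := by
  have hexp : ∀ s : ℝ, ∀ y : V, dt (uu (θ + s)) y =
      Real.cos s * dt (uu θ) y + Real.sin s * dt (tt θ) y := by
    intro s y
    unfold dt uu tt
    simp only
    rw [Real.cos_add, Real.sin_add]
    ring
  have key : ∀ s : ℝ, 0 ≤ Real.cos s →
      Real.sin s * dt (tt θ) x ≤ Real.sin s * dt (tt θ) (c (θ + s)) := by
    intro s hs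
    have h1 := hx (θ + s)
    rw [hexp, hexp, he] at h1
    have h2 := mul_le_mul_of_nonneg_left (h.supp θ (θ + s)) hs
    linarith
  have hf : Continuous (fun s : ℝ => dt (tt θ) (c (θ + s))) := by
    have h1 : Continuous (fun s : ℝ => c (θ + s)) := h.cont.comp (by fun_prop)
    have h2 : Continuous (fun s : ℝ => (c (θ + s)).1) := continuous_fst.comp h1
    have h3 : Continuous (fun s : ℝ => (c (θ + s)).2) := continuous_snd.comp h1
    unfold dt
    exact (continuous_const.mul h2).add (continuous_const.mul h3)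
  have hlim : Tendsto (fun s : ℝ => dt (tt θ) (c (θ + s))) (𝓝 0) (𝓝 (dt (tt θ) (c θ))) := by
    have := hf.tendsto 0
    simpa using this
  have hcos : ∀ s : ℝ, |s| < 1 → 0 ≤ Real.cos s := by
    intro s hs
    have h1 := abs_lt.1 hs
    have hp := Real.pi_gt_three
    exact Real.cos_nonneg_of_mem_Icc ⟨by linarith, by linarith⟩
  have a1 : dt (tt θ) x ≤ dt (tt θ) (c θ) := by
    refine ge_of_tendsto (hlim.mono_left (nhdsWithin_le_nhds (s := Set.Ioi 0))) ?_
    have : Set.Ioo (0 : ℝ) 1 ∈ 𝓝[>] (0 : ℝ) := Ioo_mem_nhdsGT one_pos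
    filter_upwards [this] with s hs
    have h1 := key s (hcos s (by rw [abs_of_pos hs.1]; exact hs.2))
    have h2 : 0 < Real.sin s := Real.sin_pos_of_pos_of_lt_pi hs.1 (by
      have := Real.pi_gt_three; linarith [hs.2])
    exact le_of_mul_le_mul_left h1 h2
  have a2 : dt (tt θ) (c θ) ≤ dt (tt θ) x := by
    refine le_of_tendsto (hlim.mono_left (nhdsWithin_le_nhds (s := Set.Iio 0))) ?_
    have : Set.Ioo (-1 : ℝ) 0 ∈ 𝓝[<] (0 : ℝ) := Ioo_mem_nhdsLT (by norm_num)
    filter_upwards [this] with s hs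
    have h1 := key s (hcos s (by rw [abs_of_neg hs.2]; linarith [hs.1]))
    have h2 : Real.sin s < 0 := Real.sin_neg_of_neg_of_neg_pi_lt hs.2 (by
      have := Real.pi_gt_three; linarith [hs.1])
    nlinarith
  have a3 : dt (tt θ) x = dt (tt θ) (c θ) := le_antisymm a1 a2
  have hc := Real.sin_sq_add_cos_sq θ
  unfold dt uu at he
  unfold dt tt at a3
  simp only at he a3
  ext
  · have : (x.1 - (c θ).1) * (Real.sin θ ^ 2 + Real.cos θ ^ 2) = 0 := by
      linear_combination Real.cos θ * he - Real.sin θ * a3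
    rw [hc] at this
    linarith
  · have : (x.2 - (c θ).2) * (Real.sin θ ^ 2 + Real.cos θ ^ 2) = 0 := by
      linear_combination Real.sin θ * he + Real.cos θ * a3
    rw [hc] at this
    linarith

/-- a point of the body which is nearly a boundary point is near to a point of the curve -/
theorem near {c : ℝ → V} (h : Bd c) {a : V} {η : ℝ}
    (ha : ∀ θ, dt (uu θ) a ≤ dt (uu θ) (c θ)) {θ₀ : ℝ}
    (h0 : dt (uu θ₀) (c θ₀) ≤ dt (uu θ₀) a + η) :
    ∃ φ m : ℝ, 0 ≤ m ∧ m ≤ η ∧ c φ = a + m • uu φ := by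
  have hu : Continuous uu := by unfold uu; fun_prop
  have hc := h.cont
  have hf : Continuous (fun φ : ℝ => dt (uu φ) (c φ) - dt (uu φ) a) := by
    unfold dt
    fun_prop
  obtain ⟨φ, hφ, hmin⟩ := isCompact_Icc.exists_isMinOn
    (Set.nonempty_Icc.2 (by linarith [pi_pos] : θ₀ ≤ θ₀ + 2 * π)) hf.continuousOn
  set m : ℝ := dt (uu φ) (c φ) - dt (uu φ) a with hm
  have hall : ∀ ψ, m ≤ dt (uu ψ) (c ψ) - dt (uu ψ) a := by
    intro ψ
    obtain ⟨n, hn, _⟩ := existsUnique_add_zsmul_mem_Ico (by linarith [pi_pos] : (0 : ℝ) < 2 * π)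
      ψ θ₀
    have e1 : ∀ k : ℤ, uu (ψ + k • (2 * π)) = uu ψ := by
      intro k
      unfold uu
      rw [zsmul_eq_mul]
      rw [Real.cos_add_int_mul_two_pi, Real.sin_add_int_mul_two_pi]
    have hper : Function.Periodic c (2 * π) := h.per
    have e2 : c (ψ + n • (2 * π)) = c ψ := (hper.zsmul n) ψ
    have := hmin (a := ψ + n • (2 * π)) ⟨hn.1, hn.2.le⟩
    simp only [Set.mem_ofPred_eq, e1, e2] at this
    exact this
  have hm0 : 0 ≤ m := by rw [hm]; linarith [ha φ]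
  refine ⟨φ, m, hm0, ?_, ?_⟩
  · have := hall θ₀
    linarith
  · symm
    apply face h
    · intro ψ
      rw [dt_add, dt_smul]
      have h1 := hall ψ
      have h2 : dt (uu ψ) (uu φ) ≤ 1 := by rw [dt_uu_uu]; exact Real.cos_le_one _
      have h3 := mul_le_mul_of_nonneg_left h2 hm0
      linarith
    · rw [dt_add, dt_smul, dt_uu_uu, sub_self, Real.cos_zero, hm]
      ring

end ZP27
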