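import Pool.Agent.H27.ZP.Smap

/-!
# Smooth strictly convex outer approximation of a bounded set
-/

set_option autoImplicit false

open Finset Real Filter Topology

namespace H27ZP

/-- squared Euclidean norm -/
def nsq (a : ℝ × ℝ) : ℝ := a.1 ^ 2 + a.2 ^ 2

lemma nsq_nonneg (a : ℝ × ℝ) : 0 ≤ nsq a := by unfold nsq; positivity

lemma nsq_uu (t : ℝ) : nsq (uu t) = 1 := by
  unfold nsq uu; simp only; rw [add_comm]; exact sin_sq_add_cos_sq t

lemma nsq_eq_zero {a : ℝ × ℝ} (h : nsq a = 0) : a = 0 := by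
  unfold nsq at h
  have h1 : a.1 = 0 := by nlinarith [sq_nonneg a.1, sq_nonneg a.2]
  have h2 : a.2 = 0 := by nlinarith [sq_nonneg a.1, sq_nonneg a.2]
  ext
  · exact h1
  · exact h2

/-- Cauchy-Schwarz -/
lemma dt_sq_le (a b : ℝ × ℝ) : dt a b ^ 2 ≤ nsq a * nsq b := by
  unfold dt nsq
  nlinarith [sq_nonneg (a.1 * b.2 - a.2 * b.1)]

lemma dt_le_of (a b : ℝ × ℝ) (x y : ℝ) (hx : 0 ≤ x) (hy : 0 ≤ y) (ha : nsq a ≤ x ^ 2)
    (hb : nsq b ≤ y ^ 2) : dt a b ≤ x * y := by
  have h1 := dt_sq_le a b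
  have h2 : nsq a * nsq b ≤ x ^ 2 * y ^ 2 := mul_le_mul ha hb (nsq_nonneg b) (sq_nonneg x)
  have h3 : dt a b ^ 2 ≤ (x * y) ^ 2 := by rw [mul_pow]; linarith
  exact le_of_sq_le_sq' h3 (mul_nonneg hx hy)
where
  le_of_sq_le_sq' {a b : ℝ} (h : a ^ 2 ≤ b ^ 2) (hb : 0 ≤ b) : a ≤ b := by
    by_contra hc
    push Not at hc
    nlinarith

/-- a body cut out by balls of radius `R` with centres `z` -/
def Bd (R : ℝ) (Z : Finset (ℝ × ℝ)) : Set (ℝ × ℝ) := {x | ∀ z ∈ Z, nsq (x - z) ≤ R ^ 2}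

/-- strong convexity of `Bd` -/
lemma bd_strong (R : ℝ) (hR : 0 < R) (Z : Finset (ℝ × ℝ)) (hZ : Z.Nonempty) (u : ℝ × ℝ)
    (hu : nsq u = 1)
    (x y : ℝ × ℝ) (hx : x ∈ Bd R Z) (hy : y ∈ Bd R Z) (hmax : ∀ w ∈ Bd R Z, dt u w ≤ dt u x) :
    nsq (x - y) / (6 * R) ≤ dt u x - dt u y := by
  set D2 := nsq (x - y) with hD2
  have hD0 : 0 ≤ D2 := nsq_nonneg _
  set δ := D2 / (12 * R) with hδ
  have hδ0 : 0 ≤ δ := by positivity
  -- D2 ≤ 4 R^2
  have hD4 : D2 ≤ 4 * R ^ 2 := by
    obtain ⟨z, hz⟩ := hZ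
    have h1 := hx z hz
    have h2 := hy z hz
    have : D2 ≤ 2 * nsq (x - z) + 2 * nsq (y - z) := by
      rw [hD2]; unfold nsq
      simp only [Prod.fst_sub, Prod.snd_sub]
      nlinarith [sq_nonneg ((x.1 - z.1) + (y.1 - z.1)), sq_nonneg ((x.2 - z.2) + (y.2 - z.2))]
    linarith
  have hR' := hR.ne'
  have hδR : δ * (12 * R) = D2 := by rw [hδ]; field_simp
  have hmem : ((1 / 2 : ℝ) • (x + y) + δ • u) ∈ Bd R Z := by
    intro z hz
    have h1 := hx z hz
    have h2 := hy z hz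
    set m := (1 / 2 : ℝ) • (x + y) - z with hm
    have hmid : nsq m = nsq (x - z) / 2 + nsq (y - z) / 2 - D2 / 4 := by
      rw [hm, hD2]; unfold nsq
      simp only [Prod.fst_sub, Prod.snd_sub, Prod.smul_fst, Prod.smul_snd, smul_eq_mul,
        Prod.fst_add, Prod.snd_add]
      ring
    have hm1 : nsq m ≤ R ^ 2 - D2 / 4 := by linarith
    have hdu : dt u m ≤ 1 * R := dt_le_of u m 1 R (by norm_num) hR.le (by rw [hu]; norm_num)
      (by linarith)
    have e : nsq ((1 / 2 : ℝ) • (x + y) + δ • u - z) = nsq m + 2 * δ * dt u m + δ ^ 2 * nsq u := by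
      rw [hm]; unfold nsq dt
      simp only [Prod.fst_sub, Prod.snd_sub, Prod.smul_fst, Prod.smul_snd, smul_eq_mul,
        Prod.fst_add, Prod.snd_add]
      ring
    rw [e, hu]
    have h3 : 2 * δ * dt u m ≤ 2 * δ * R := by
      have := mul_le_mul_of_nonneg_left hdu (by positivity : 0 ≤ 2 * δ)
      linarith
    -- 2 δ R = D2/6 ; δ^2 ≤ D2/36
    have h4 : 2 * δ * R = D2 / 6 := by rw [← hδR]; ring
    have h5 : δ ^ 2 ≤ D2 / 36 := by
      have : δ * R ≤ R ^ 2 / 3 := by nlinarith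
      have h6 : δ ≤ R / 3 := by
        have : δ * R ≤ (R / 3) * R := by nlinarith
        exact le_of_mul_le_mul_right this hR
      calc δ ^ 2 = δ * δ := by ring
        _ ≤ δ * (R / 3) := mul_le_mul_of_nonneg_left h6 hδ0
        _ = D2 / 36 := by rw [← hδR]; ring
    linarith
  have h1 := hmax _ hmem
  have e : dt u ((1 / 2 : ℝ) • (x + y) + δ • u) = (dt u x + dt u y) / 2 + δ := by
    have : dt u u = 1 := by rw [← hu]; unfold dt nsq; ring
    rw [dt_add, dt_smul, dt_smul, this, dt_add]; ring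
  rw [e] at h1
  have : D2 / (6 * R) = 2 * δ := by rw [hδ]; field_simp; ring
  rw [this]
  linarith

lemma bd_compact (R : ℝ) (hR : 0 < R) (Z : Finset (ℝ × ℝ)) (hZ : Z.Nonempty) :
    IsCompact (Bd R Z) := by
  have hcl : IsClosed (Bd R Z) := by
    have : Bd R Z = ⋂ z ∈ Z, {x | nsq (x - z) ≤ R ^ 2} := by
      ext x; simp [Bd]
    rw [this]
    apply isClosed_biInter
    intro z _
    apply isClosed_le
    · unfold nsq; fun_prop
    · exact continuous_const
  obtain ⟨z, hz⟩ := hZ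
  apply Metric.isCompact_of_isClosed_isBounded hcl
  apply (Metric.isBounded_closedBall (x := z) (r := R)).subset
  intro x hx
  have h := hx z hz
  unfold nsq at h
  simp only [Prod.fst_sub, Prod.snd_sub] at h
  rw [Metric.mem_closedBall, Prod.dist_eq, max_le_iff, Real.dist_eq, Real.dist_eq]
  constructor
  · apply abs_le_of_sq_le_sq _ hR.le
    nlinarith [sq_nonneg (x.2 - z.2)]
  · apply abs_le_of_sq_le_sq _ hR.le
    nlinarith [sq_nonneg (x.1 - z.1)]

/-- support map of `Bd` -/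
lemma bd_support (R : ℝ) (hR : 0 < R) (Z : Finset (ℝ × ℝ)) (hZ : Z.Nonempty)
    (hne : (Bd R Z).Nonempty) :
    ∃ l : ℝ → ℝ × ℝ, Continuous l ∧ (∀ x, l x ∈ Bd R Z) ∧
      (∀ x, ∀ w ∈ Bd R Z, dt (uu x) w ≤ dt (uu x) (l x)) ∧ (∀ x, l (x + 2 * π) = l x) := by
  have hex : ∀ x : ℝ, ∃ p ∈ Bd R Z, ∀ w ∈ Bd R Z, dt (uu x) w ≤ dt (uu x) p := by
    intro x
    have hc : ContinuousOn (fun w => dt (uu x) w) (Bd R Z) := by
      apply Continuous.continuousOn
      unfold dt; fun_prop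
    obtain ⟨p, hp, hmax⟩ := (bd_compact R hR Z hZ).exists_isMaxOn hne hc
    exact ⟨p, hp, fun w hw => hmax hw⟩
  choose l hl hmax using hex
  have hlip : ∀ x y, nsq (l x - l y) ≤ (3 * R) ^ 2 * nsq (uu x - uu y) := by
    intro x y
    have h1 := bd_strong R hR Z hZ (uu x) (nsq_uu x) (l x) (l y) (hl x) (hl y) (hmax x)
    have h2 := bd_strong R hR Z hZ (uu y) (nsq_uu y) (l y) (l x) (hl y) (hl x) (hmax y)
    have e : nsq (l y - l x) = nsq (l x - l y) := by
      unfold nsq; simp only [Prod.fst_sub, Prod.snd_sub]; ring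
    rw [e] at h2
    set D2 := nsq (l x - l y)
    have h3 : D2 / (3 * R) ≤ dt (uu x - uu y) (l x - l y) := by
      have : dt (uu x - uu y) (l x - l y) =
          (dt (uu x) (l x) - dt (uu x) (l y)) + (dt (uu y) (l y) - dt (uu y) (l x)) := by
        unfold dt; simp only [Prod.fst_sub, Prod.snd_sub]; ring
      rw [this]
      have : D2 / (3 * R) = D2 / (6 * R) + D2 / (6 * R) := by field_simp; ring
      linarith
    have h4 := dt_sq_le (uu x - uu y) (l x - l y)
    have hD0 : 0 ≤ D2 := nsq_nonneg _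
    rcases eq_or_lt_of_le hD0 with h0 | h0
    · rw [← h0]
      exact mul_nonneg (sq_nonneg _) (nsq_nonneg _)
    · have h5 : (D2 / (3 * R)) ^ 2 ≤ nsq (uu x - uu y) * D2 := by
        calc (D2 / (3 * R)) ^ 2 ≤ dt (uu x - uu y) (l x - l y) ^ 2 := by
              apply pow_le_pow_left₀ (by positivity) h3
          _ ≤ _ := h4
      rw [div_pow, div_le_iff₀ (by positivity)] at h5
      have h6 : D2 * D2 ≤ (3 * R) ^ 2 * nsq (uu x - uu y) * D2 := by nlinarith
      exact le_of_mul_le_mul_right h6 h0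
  refine ⟨l, ?_, hl, hmax, ?_⟩
  · rw [continuous_iff_continuousAt]
    intro x
    have hu : Continuous (fun y => nsq (uu y - uu x)) := by
      unfold nsq uu; fun_prop
    have hu0 : Tendsto (fun y => (3 * R) ^ 2 * nsq (uu y - uu x)) (𝓝 x) (𝓝 0) := by
      have hu2 : Continuous (fun y => (3 * R) ^ 2 * nsq (uu y - uu x)) := continuous_const.mul hu
      have h1 := hu2.tendsto x
      simpa [nsq] using h1
    have hn : Tendsto (fun y => nsq (l y - l x)) (𝓝 x) (𝓝 0) :=
      squeeze_zero (fun y => nsq_nonneg _) (fun y => hlip y x) hu0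
    rw [ContinuousAt, tendsto_iff_norm_sub_tendsto_zero]
    have hsq : Tendsto (fun y => Real.sqrt (nsq (l y - l x))) (𝓝 x) (𝓝 0) := by
      have := (Real.continuous_sqrt.tendsto 0).comp hn
      simpa [Function.comp_def] using this
    refine squeeze_zero (fun y => norm_nonneg _) (fun y => ?_) hsq
    rw [Prod.norm_def]
    apply max_le
    · rw [Real.norm_eq_abs]
      apply Real.abs_le_sqrt
      unfold nsq
      nlinarith [sq_nonneg (l y - l x).2]
    · rw [Real.norm_eq_abs]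
      apply Real.abs_le_sqrt
      unfold nsq
      nlinarith [sq_nonneg (l y - l x).1]
  · intro x
    have h := hlip (x + 2 * π) x
    rw [uu_2pi, sub_self] at h
    have h0 : nsq (0 : ℝ × ℝ) = 0 := by unfold nsq; simp
    rw [h0, mul_zero] at h
    have := nsq_eq_zero (le_antisymm h (nsq_nonneg _))
    exact sub_eq_zero.1 this

lemma dt_uu_lt (x y : ℝ) (h : uu x ≠ uu y) : dt (uu x) (uu y) < 1 := by
  by_contra hc
  push Not at hc
  have h1 := nsq_uu x
  have h2 := nsq_uu y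
  have h3 : nsq (uu x - uu y) = nsq (uu x) + nsq (uu y) - 2 * dt (uu x) (uu y) := by
    unfold nsq dt; simp only [Prod.fst_sub, Prod.snd_sub]; ring
  have h4 : nsq (uu x - uu y) = 0 := le_antisymm (by linarith) (nsq_nonneg _)
  exact h (sub_eq_zero.1 (nsq_eq_zero h4))

lemma dt_uu_self (x : ℝ) : dt (uu x) (uu x) = 1 := by
  have := nsq_uu x
  unfold nsq at this
  unfold dt
  linarith

/-- OUTER APPROXIMATION: for a bounded nonempty `L`, finitely many directions `φ ∈ Φ` with support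
bounds `b φ`, and `η > 0`, there is a continuous support map `l` of a smooth strictly convex body
which contains `L` with a margin and has support at most `b φ + η` in the directions `φ ∈ Φ`. -/
theorem exists_support_map (L : Set (ℝ × ℝ)) (hne : L.Nonempty) (ρ : ℝ) (hρ : 0 ≤ ρ)
    (hb : ∀ x ∈ L, nsq x ≤ ρ ^ 2) (Φ : Finset ℝ) (b : ℝ → ℝ)
    (hbΦ : ∀ φ ∈ Φ, ∀ x ∈ L, dt (uu φ) x ≤ b φ) (η : ℝ) (hη : 0 < η) :
    ∃ (l : ℝ → ℝ × ℝ) (ε : ℝ), 0 < ε ∧ Continuous l ∧
      (∀ x y, dt (uu x) (l y) ≤ dt (uu x) (l x)) ∧ (∀ x, l (x + 2 * π) = l x) ∧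
      QMap (fun x => l x - l (x + π)) ∧
      (∀ x ∈ L, ∀ t, dt (uu t) x + ε ≤ dt (uu t) (l t)) ∧
      (∀ φ ∈ Φ, ∀ t, dt (uu φ) (l t) ≤ b φ + η) := by
  classical
  set B : ℝ := ∑ φ ∈ Φ, |b φ| with hB
  have hBφ : ∀ φ ∈ Φ, |b φ| ≤ B := fun φ hφ =>
    Finset.single_le_sum (f := fun φ => |b φ|) (fun i _ => abs_nonneg _) hφ
  have hB0 : 0 ≤ B := Finset.sum_nonneg (fun _ _ => abs_nonneg _)
  set e : ℝ := η / 2 with he
  have he0 : 0 < e := by positivity
  set R : ℝ := ρ + B + e + ρ ^ 2 / e + 1 with hR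
  have hR0 : 0 < R := by positivity
  have hRρ : ρ ≤ R := by
    have : 0 ≤ ρ ^ 2 / e := by positivity
    linarith
  set Z : Finset (ℝ × ℝ) := insert 0 (Φ.image (fun φ => (b φ + e - R) • uu φ)) with hZ
  have hZne : Z.Nonempty := ⟨0, Finset.mem_insert_self _ _⟩
  have hLsub : ∀ x ∈ L, x ∈ Bd R Z := by
    intro x hx z hz
    rw [hZ, Finset.mem_insert, Finset.mem_image] at hz
    rcases hz with rfl | ⟨φ, hφ, rfl⟩
    · rw [sub_zero]
      have := hb x hx
      nlinarith
    · have h1 := hbΦ φ hφ x hx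
      have h2 := hb x hx
      have h3 := abs_le.1 (hBφ φ hφ)
      set c := b φ + e - R with hc
      have h4 : nsq (x - c • uu φ) = nsq x - 2 * c * dt (uu φ) x + c ^ 2 := by
        have : nsq (x - c • uu φ) = nsq x - 2 * c * dt (uu φ) x + c ^ 2 * nsq (uu φ) := by
          unfold nsq dt
          simp only [Prod.fst_sub, Prod.snd_sub, Prod.smul_fst, Prod.smul_snd, smul_eq_mul]
          ring
        rw [this, nsq_uu, mul_one]
      -- nsq x = (u.x)^2 + (tau.x)^2
      set p := dt (uu φ) x with hp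
      have h5 : p ^ 2 ≤ nsq x := by
        have := dt_sq_le (uu φ) x
        rw [nsq_uu, one_mul] at this
        exact this
      have h6 : -ρ ≤ p := by
        have : p ^ 2 ≤ ρ ^ 2 := le_trans h5 h2
        exact (abs_le.1 (abs_le_of_sq_le_sq this hρ)).1
      -- p - c between 0 and R - e
      have h7 : p - c ≤ R - e := by rw [hc]; linarith
      have h8 : 0 ≤ p - c := by
        have : 0 ≤ ρ ^ 2 / e := by positivity
        rw [hc]; linarith
      have h9 : (p - c) ^ 2 ≤ (R - e) ^ 2 := by nlinarith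
      have h10 : ρ ^ 2 ≤ R * e := by
        have : ρ ^ 2 / e ≤ R := by rw [hR]; linarith
        rwa [div_le_iff₀ he0] at this
      have h11 : e ≤ R := by
        have : 0 ≤ ρ ^ 2 / e := by positivity
        rw [hR]; linarith
      rw [h4]
      nlinarith
  obtain ⟨x0, hx0⟩ := hne
  obtain ⟨l1, hc1, hm1, hs1, hp1⟩ := bd_support R hR0 Z hZne ⟨x0, hLsub x0 hx0⟩
  have hu : Continuous uu := by unfold uu; fun_prop
  have hsup1 : ∀ x y, dt (uu x) (l1 y) ≤ dt (uu x) (l1 x) := fun x y => hs1 x _ (hm1 y)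
  have huu : ∀ x y, dt (uu x) (uu y) ≤ 1 := by
    intro x y
    by_cases h : uu x = uu y
    · rw [h, dt_uu_self]
    · exact (dt_uu_lt x y h).le
  refine ⟨fun x => l1 x + e • uu x, e, he0, hc1.add (hu.const_smul e), ?_, ?_, ?_, ?_, ?_⟩
  · intro x y
    simp only [dt_add, dt_smul]
    rw [dt_uu_self]
    have := mul_le_mul_of_nonneg_left (huu x y) he0.le
    linarith [hsup1 x y]
  · intro x
    simp only [hp1, uu_2pi]
  · refine ⟨?_, ?_, ?_⟩
    · have h1 : Continuous (fun x => l1 x + e • uu x) := hc1.add (hu.const_smul e)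
      exact h1.sub (h1.comp (continuous_id.add continuous_const))
    · intro x
      have e1 : l1 (x + π + π) = l1 x := by rw [show x + π + π = x + 2 * π by ring, hp1]
      have e2 : uu (x + π + π) = uu x := by rw [show x + π + π = x + 2 * π by ring, uu_2pi]
      simp only [e1, e2]
      abel
    · intro x y hxy
      have h1 := hsup1 x y
      have h2 := hsup1 (x + π) (y + π)
      rw [uu_pi, dt_neg_left, dt_neg_left] at h2
      have h3 := dt_uu_lt x y hxy
      simp only [dt_sub, dt_add, dt_smul, uu_pi, smul_neg, dt_neg]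
      rw [dt_uu_self]
      have := mul_lt_mul_of_pos_left h3 he0
      linarith
  · intro x hx t
    simp only [dt_add, dt_smul]
    rw [dt_uu_self]
    have := hs1 t x (hLsub x hx)
    linarith
  · intro φ hφ t
    have h1 : (b φ + e - R) • uu φ ∈ Z := by
      rw [hZ]
      exact Finset.mem_insert_of_mem (Finset.mem_image_of_mem _ hφ)
    have h2 := hm1 t _ h1
    have h3 : dt (uu φ) (l1 t - (b φ + e - R) • uu φ) ≤ 1 * R :=
      dt_le_of _ _ 1 R (by norm_num) hR0.le (by rw [nsq_uu]; norm_num) h2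
    rw [dt_sub, dt_smul, dt_uu_self] at h3
    simp only [dt_add, dt_smul]
    have h4 := mul_le_mul_of_nonneg_left (huu φ t) he0.le
    have h5 : η = e + e := by rw [he]; ring
    rw [h5]
    linarith

end H27ZP
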