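import Pool.Agent.H27.ZP.Seq

/-!
# The balanced parameter and the cones (Z+, Lemma 1)
-/

set_option autoImplicit false

open Finset Real

namespace H27ZP

/-- the unit vector of angle `t` -/
noncomputable def uu (t : ℝ) : ℝ × ℝ := (cos t, sin t)

/-- the unit tangent at the normal angle `t` -/
noncomputable def tau (t : ℝ) : ℝ × ℝ := (-sin t, cos t)

/-- scalar product -/
def dt (a b : ℝ × ℝ) : ℝ := a.1 * b.1 + a.2 * b.2

/-- cross product -/
def crs (a b : ℝ × ℝ) : ℝ := a.1 * b.2 - a.2 * b.1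

lemma tau_pi (t : ℝ) : tau (t + π) = -tau t := by
  unfold tau
  simp [sin_add_pi, cos_add_pi]

lemma uu_pi (t : ℝ) : uu (t + π) = -uu t := by
  unfold uu
  simp [sin_add_pi, cos_add_pi]

/-- Pluecker relation of three tangents -/
lemma tau_rel (a b c : ℝ) :
    sin (c - a) • tau b = sin (c - b) • tau a + sin (b - a) • tau c := by
  unfold tau
  ext
  · simp only [Prod.smul_mk, Prod.mk_add_mk, smul_eq_mul, sin_sub]
    ring
  · simp only [Prod.smul_mk, Prod.mk_add_mk, smul_eq_mul, sin_sub]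
    ring

/-- membership in the cone of two tangents -/
lemma inCone_tau (α β p q : ℝ) (hp : 0 < p) (hq : 0 < q) (h1 : α < β) (h2 : β < α + π)
    (a : ℝ × ℝ) (ha : dt (uu α) a ≤ 0) (hb : 0 ≤ dt (uu β) a) :
    InCone (p • tau α) (q • tau β) a := by
  have hs : 0 < sin (β - α) := sin_pos_of_pos_of_lt_pi (by linarith) (by linarith)
  refine ⟨dt (uu β) a / sin (β - α) / p, (-dt (uu α) a) / sin (β - α) / q,
    div_nonneg (div_nonneg hb hs.le) hp.le, div_nonneg (div_nonneg (by linarith) hs.le) hq.le, ?_⟩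
  rw [smul_smul, smul_smul, div_mul_cancel₀ _ hp.ne', div_mul_cancel₀ _ hq.ne']
  have hs' := hs.ne'
  rw [sin_sub] at hs' ⊢
  unfold dt uu tau
  ext
  · simp only [Prod.smul_mk, Prod.mk_add_mk, smul_eq_mul]
    field_simp
    ring
  · simp only [Prod.smul_mk, Prod.mk_add_mk, smul_eq_mul]
    field_simp
    ring

lemma uu_rel (a b c : ℝ) (v : ℝ × ℝ) :
    sin (c - a) * dt (uu b) v = sin (c - b) * dt (uu a) v + sin (b - a) * dt (uu c) v := by
  unfold dt uu
  simp only [sin_sub]
  ring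

/-- a vector with `u(x) . a ≤ 0 ≤ u(y) . a` has `u(α) . a ≤ 0` for `α ≤ x < y < α + π` -/
lemma dt_left (α x y : ℝ) (h1 : α ≤ x) (h2 : x < y) (h3 : y < α + π)
    (a : ℝ × ℝ) (ha : dt (uu x) a ≤ 0) (hb : 0 ≤ dt (uu y) a) : dt (uu α) a ≤ 0 := by
  have hs : 0 < sin (y - x) := sin_pos_of_pos_of_lt_pi (by linarith) (by linarith)
  have e := uu_rel α x y a
  have p1 : 0 ≤ sin (y - α) := sin_nonneg_of_nonneg_of_le_pi (by linarith) (by linarith)
  have p2 : 0 ≤ sin (x - α) := sin_nonneg_of_nonneg_of_le_pi (by linarith) (by linarith)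
  have q1 : sin (y - α) * dt (uu x) a ≤ 0 := mul_nonpos_of_nonneg_of_nonpos p1 ha
  have q2 : 0 ≤ sin (x - α) * dt (uu y) a := mul_nonneg p2 hb
  by_contra hc
  push Not at hc
  have := mul_pos hs hc
  linarith

/-- and `0 ≤ u(β) . a` for `x < y ≤ β < x + π` -/
lemma dt_right (β x y : ℝ) (h1 : y ≤ β) (h2 : x < y) (h3 : β < x + π)
    (a : ℝ × ℝ) (ha : dt (uu x) a ≤ 0) (hb : 0 ≤ dt (uu y) a) : 0 ≤ dt (uu β) a := by
  have hs : 0 < sin (y - x) := sin_pos_of_pos_of_lt_pi (by linarith) (by linarith)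
  have e := uu_rel x y β a
  have p1 : 0 ≤ sin (β - x) := sin_nonneg_of_nonneg_of_le_pi (by linarith) (by linarith)
  have p2 : 0 ≤ sin (β - y) := sin_nonneg_of_nonneg_of_le_pi (by linarith) (by linarith)
  have q1 : 0 ≤ sin (β - x) * dt (uu y) a := mul_nonneg p1 hb
  have q2 : sin (β - y) * dt (uu x) a ≤ 0 := mul_nonpos_of_nonneg_of_nonpos p2 ha
  by_contra hc
  push Not at hc
  have := mul_neg_of_pos_of_neg hs hc
  linarith

lemma inCone_zero {V : Type*} [AddCommGroup V] [Module ℝ V] (u v : V) : InCone u v (0 : V) :=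
  ⟨0, 0, le_rfl, le_rfl, by simp⟩

/-- The increment of a support map between two normals of `[α, β]` lies in the cone of the
tangents at `α` and `β`. -/
lemma inCone_incr (l : ℝ → ℝ × ℝ) (hsup : ∀ x y, dt (uu x) (l y) ≤ dt (uu x) (l x))
    (α β p q x y : ℝ) (hp : 0 < p) (hq : 0 < q) (h1 : α < β) (h2 : β < α + π)
    (hx : α ≤ x) (hxy : x ≤ y) (hy : y ≤ β) :
    InCone (p • tau α) (q • tau β) (l y - l x) ∧
      InCone (p • tau α) (q • tau β) (-(l (y + π) - l (x + π))) := by
  rcases eq_or_lt_of_le hxy with h | h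
  · subst h
    rw [sub_self, sub_self, neg_zero]
    exact ⟨inCone_zero _ _, inCone_zero _ _⟩
  · have dsub : ∀ w a b : ℝ × ℝ, dt w (a - b) = dt w a - dt w b := by
      intro w a b; unfold dt; simp; ring
    have dneg : ∀ w a : ℝ × ℝ, dt w (-a) = - dt w a := by
      intro w a; unfold dt; simp; ring
    have dneg' : ∀ w a : ℝ × ℝ, dt (-w) a = - dt w a := by
      intro w a; unfold dt; simp; ring
    constructor
    · have a1 : dt (uu x) (l y - l x) ≤ 0 := by rw [dsub]; linarith [hsup x y]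
      have a2 : 0 ≤ dt (uu y) (l y - l x) := by rw [dsub]; linarith [hsup y x]
      exact inCone_tau α β p q hp hq h1 h2 _ (dt_left α x y hx h (by linarith) _ a1 a2)
        (dt_right β x y hy h (by linarith) _ a1 a2)
    · have b1 : dt (uu x) (-(l (y + π) - l (x + π))) ≤ 0 := by
        have := hsup (x + π) (y + π)
        rw [uu_pi, dneg', dneg'] at this
        rw [dneg, dsub]; linarith
      have b2 : 0 ≤ dt (uu y) (-(l (y + π) - l (x + π))) := by
        have := hsup (y + π) (x + π)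
        rw [uu_pi, dneg', dneg'] at this
        rw [dneg, dsub]; linarith
      exact inCone_tau α β p q hp hq h1 h2 _ (dt_left α x y hx h (by linarith) _ b1 b2)
        (dt_right β x y hy h (by linarith) _ b1 b2)

/-- the three tangent vectors with `w1 = w0 + w2` -/
noncomputable def W0 (s : ℝ → ℝ) (t : ℝ) : ℝ × ℝ := sin (s (s t) - s t) • tau t
noncomputable def W1 (s : ℝ → ℝ) (t : ℝ) : ℝ × ℝ := sin (s (s t) - t) • tau (s t)
noncomputable def W2 (s : ℝ → ℝ) (t : ℝ) : ℝ × ℝ := sin (s t - t) • tau (s (s t))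

lemma W_rel (s : ℝ → ℝ) (t : ℝ) : W1 s t = W0 s t + W2 s t := tau_rel t (s t) (s (s t))

/-- the balance `E - O` -/
noncomputable def FF (P Q : (ℝ × ℝ) →ₗ[ℝ] ℝ) (s : ℝ → ℝ) (t : ℝ) : ℝ :=
  (gg P Q (W0 s t) + gg P Q (W2 s t) + gg P Q (-(W1 s t))) -
    (gg P Q (W1 s t) + gg P Q (-(W0 s t)) + gg P Q (-(W2 s t)))

lemma FF_shift (P Q : (ℝ × ℝ) →ₗ[ℝ] ℝ) (s : ℝ → ℝ) (h3 : ∀ t, s (s (s t)) = t + π) (t : ℝ) :
    FF P Q s (s t) = - FF P Q s t := by
  have e0 : W0 s (s t) = W1 s t := by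
    unfold W0 W1
    rw [h3]
    congr 1
    rw [show t + π - s (s t) = π - (s (s t) - t) by ring, sin_pi_sub]
  have e1 : W1 s (s t) = W2 s t := by
    unfold W1 W2
    rw [h3]
    congr 1
    rw [show t + π - s t = π - (s t - t) by ring, sin_pi_sub]
  have e2 : W2 s (s t) = - W0 s t := by
    unfold W2 W0
    rw [h3, tau_pi, smul_neg]
  unfold FF
  rw [e0, e1, e2, neg_neg]
  ring

lemma gg_continuous (P Q : (ℝ × ℝ) →ₗ[ℝ] ℝ) : Continuous (gg P Q) := by
  unfold gg
  have hP : Continuous P := LinearMap.continuous_of_finiteDimensional P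
  have hQ : Continuous Q := LinearMap.continuous_of_finiteDimensional Q
  exact continuous_const.max (hP.max hQ)

lemma tau_continuous : Continuous tau := by
  unfold tau; fun_prop

lemma FF_continuous (P Q : (ℝ × ℝ) →ₗ[ℝ] ℝ) (s : ℝ → ℝ) (hs : Continuous s) :
    Continuous (FF P Q s) := by
  have g := gg_continuous P Q
  have ht := tau_continuous
  have w0 : Continuous (W0 s) := by unfold W0; fun_prop
  have w1 : Continuous (W1 s) := by unfold W1; fun_prop
  have w2 : Continuous (W2 s) := by unfold W2; fun_prop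
  unfold FF
  fun_prop

/-- THE BALANCED PARAMETER: in every window `[t, s t)` there is a zero of `E - O`. -/
theorem exists_balanced (P Q : (ℝ × ℝ) →ₗ[ℝ] ℝ) (s : ℝ → ℝ) (hs : Continuous s)
    (hlt : ∀ t, t < s t) (h3 : ∀ t, s (s (s t)) = t + π) (t : ℝ) :
    ∃ x, t ≤ x ∧ x < s t ∧ FF P Q s x = 0 := by
  by_cases h0 : FF P Q s t = 0
  · exact ⟨t, le_rfl, hlt t, h0⟩
  have hc := (FF_continuous P Q s hs).continuousOn (s := Set.Icc t (s t))
  have hsh := FF_shift P Q s h3 t
  have : (0 : ℝ) ∈ FF P Q s '' Set.Icc t (s t) := by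
    rcases lt_or_gt_of_ne h0 with h | h
    · exact intermediate_value_Icc (hlt t).le hc ⟨h.le, by rw [hsh]; linarith⟩
    · exact intermediate_value_Icc' (hlt t).le hc ⟨by rw [hsh]; linarith, h.le⟩
  obtain ⟨x, hx, hx0⟩ := this
  refine ⟨x, hx.1, lt_of_le_of_ne hx.2 ?_, hx0⟩
  intro e
  rw [e, hsh] at hx0
  exact h0 (by linarith)

/-- a linear form with prescribed values at two independent tangents -/
lemma exists_form (a b : ℝ) (h1 : a < b) (h2 : b < a + π) (p q : ℝ) (hp : 0 < p) (hq : 0 < q)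
    (x y : ℝ) : ∃ c : (ℝ × ℝ) →ₗ[ℝ] ℝ, c (p • tau a) = x ∧ c (q • tau b) = y := by
  have hs : 0 < sin (b - a) := sin_pos_of_pos_of_lt_pi (by linarith) (by linarith)
  refine ⟨{ toFun := fun v => (x / p * crs v (tau b) + y / q * crs (tau a) v) / sin (b - a)
            map_add' := ?_
            map_smul' := ?_ }, ?_, ?_⟩
  · intro u v
    unfold crs
    simp only [Prod.fst_add, Prod.snd_add]
    ring
  · intro r v
    unfold crs
    simp only [Prod.smul_fst, Prod.smul_snd, smul_eq_mul, RingHom.id_apply]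
    ring
  · show (x / p * crs (p • tau a) (tau b) + y / q * crs (tau a) (p • tau a)) / sin (b - a) = x
    have e1 : crs (p • tau a) (tau b) = p * sin (b - a) := by
      unfold crs tau; simp only [Prod.smul_mk, smul_eq_mul, sin_sub]; ring
    have e2 : crs (tau a) (p • tau a) = 0 := by
      unfold crs tau; simp only [Prod.smul_mk, smul_eq_mul]; ring
    rw [e1, e2]
    field_simp
    ring
  · show (x / p * crs (q • tau b) (tau b) + y / q * crs (tau a) (q • tau b)) / sin (b - a) = y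
    have e1 : crs (tau a) (q • tau b) = q * sin (b - a) := by
      unfold crs tau; simp only [Prod.smul_mk, smul_eq_mul, sin_sub]; ring
    have e2 : crs (q • tau b) (tau b) = 0 := by
      unfold crs tau; simp only [Prod.smul_mk, smul_eq_mul]; ring
    rw [e1, e2]
    field_simp
    ring

/-- LEMMA 1 of Theorem Z+ for a support map `l` and an `s`-invariant monotone grid `th` which
contains the balanced parameter of `(P, Q)` (index `j`). -/
theorem lemma1_grid (P Q : (ℝ × ℝ) →ₗ[ℝ] ℝ) (s : ℝ → ℝ) (l : ℝ → ℝ × ℝ)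
    (hsup : ∀ x y, dt (uu x) (l y) ≤ dt (uu x) (l x))
    (hl : ∀ x, l (x + 2 * π) = l x)
    (hlt : ∀ t, t < s t) (h3 : ∀ t, s (s (s t)) = t + π)
    (hchord : ∀ t, (l (s t) - l (s t + π)) =
      (l t - l (t + π)) + (l (s (s t)) - l (s (s t) + π)))
    (M : ℕ) (th : ℤ → ℝ) (hmono : Monotone th) (hth : ∀ i, th (i + M) = s (th i))
    (v : ℤ → ℝ × ℝ)
    (hv : ∀ i, v i = (l (th (i + 1)) - l (th (i + 1) + π)) - (l (th i) - l (th i + π)))
    (j : ℤ) (hj : FF P Q s (th j) = 0) :
    ∑ r ∈ range M, min (EE P Q M v r) (OO P Q M v r) ≤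
      ∑ r ∈ range (6 * M), gg P Q (l (th (r + 1)) - l (th r)) := by
  set t := th j with ht
  have a1 : t < s t := hlt t
  have a2 : s t < s (s t) := hlt _
  have a3 : s (s t) < t + π := by rw [← h3 t]; exact hlt _
  have p0 : 0 < sin (s (s t) - s t) := sin_pos_of_pos_of_lt_pi (by linarith) (by linarith)
  have p1 : 0 < sin (s (s t) - t) := sin_pos_of_pos_of_lt_pi (by linarith) (by linarith)
  have p2 : 0 < sin (s t - t) := sin_pos_of_pos_of_lt_pi (by linarith) (by linarith)
  have thM3 : ∀ i, th (i + 3 * M) = th i + π := by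
    intro i
    rw [show i + 3 * (M : ℤ) = i + M + M + M by ring, hth, hth, hth, h3]
  have thM6 : ∀ i, th (i + 6 * M) = th i + 2 * π := by
    intro i
    rw [show i + 6 * (M : ℤ) = i + 3 * M + 3 * M by ring, thM3, thM3]
    ring
  obtain ⟨c, hc0, hc2⟩ := exists_form t (s (s t)) (by linarith) a3 _ _ p0 p2
    (gg P Q (W0 s t) - gg P Q (-(W0 s t))) (gg P Q (W2 s t) - gg P Q (-(W2 s t)))
  have thj1 : th (j + M) = s t := hth j
  have thj2 : th (j + 2 * M) = s (s t) := by
    rw [show j + 2 * (M : ℤ) = j + M + M by ring, hth, hth]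
  have thj3 : th (j + 3 * M) = t + π := thM3 j
  refine lemma1_seq P Q c (W0 s t) (W2 s t) M (fun i => l (th i)) v ?_ ?_ ?_ hc0 hc2 ?_ j ?_ ?_ ?_
  · intro i
    show l (th (i + 6 * M)) = l (th i)
    rw [thM6, hl]
  · intro i
    show v i = (l (th (i + 1)) - l (th i)) - (l (th (i + 1 + 3 * M)) - l (th (i + 3 * M)))
    rw [hv, thM3, thM3]
    abel
  · intro i
    have e1 := hchord (th i)
    have e2 := hchord (th (i + 1))
    have f1 : th (i + M) = s (th i) := hth i
    have f2 : th (i + M + 1) = s (th (i + 1)) := by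
      rw [show i + (M : ℤ) + 1 = i + 1 + M by ring, hth]
    have f3 : th (i + 2 * M) = s (s (th i)) := by
      rw [show i + 2 * (M : ℤ) = i + M + M by ring, hth, hth]
    have f4 : th (i + 2 * M + 1) = s (s (th (i + 1))) := by
      rw [show i + 2 * (M : ℤ) + 1 = i + 1 + M + M by ring, hth, hth]
    rw [hv, hv, hv, f1, f2, f3, f4, e1, e2]
    abel
  · have := hj
    unfold FF at this
    rw [← W_rel]
    linarith
  · intro i h1 h2
    have m1 : t ≤ th i := hmono h1
    have m2 : th i ≤ th (i + 1) := hmono (by omega)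
    have m3 : th (i + 1) ≤ s t := by rw [← thj1]; exact hmono (by omega)
    have := inCone_incr l hsup t (s t) _ _ (th i) (th (i + 1)) p0 p1 a1 (by linarith) m1 m2 m3
    rw [← W_rel]
    refine ⟨this.1, ?_⟩
    show InCone (W0 s t) (W1 s t) (-(l (th (i + 1 + 3 * M)) - l (th (i + 3 * M))))
    rw [thM3, thM3]
    exact this.2
  · intro i h1 h2
    have m1 : s t ≤ th i := by rw [← thj1]; exact hmono h1
    have m2 : th i ≤ th (i + 1) := hmono (by omega)
    have m3 : th (i + 1) ≤ s (s t) := by rw [← thj2]; exact hmono (by omega)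
    have := inCone_incr l hsup (s t) (s (s t)) _ _ (th i) (th (i + 1)) p1 p2 a2 (by linarith)
      m1 m2 m3
    rw [← W_rel]
    refine ⟨this.1, ?_⟩
    show InCone (W1 s t) (W2 s t) (-(l (th (i + 1 + 3 * M)) - l (th (i + 3 * M))))
    rw [thM3, thM3]
    exact this.2
  · intro i h1 h2
    have m1 : s (s t) ≤ th i := by rw [← thj2]; exact hmono h1
    have m2 : th i ≤ th (i + 1) := hmono (by omega)
    have m3 : th (i + 1) ≤ t + π := by rw [← thj3]; exact hmono (by omega)
    have := inCone_incr l hsup (s (s t)) (t + π) _ _ (th i) (th (i + 1)) p2 p0 a3 (by linarith)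
      m1 m2 m3
    have e : -(W0 s t) = sin (s (s t) - s t) • tau (t + π) := by
      unfold W0; rw [tau_pi, smul_neg]
    rw [e]
    refine ⟨this.1, ?_⟩
    show InCone (W2 s t) _ (-(l (th (i + 1 + 3 * M)) - l (th (i + 3 * M))))
    rw [thM3, thM3]
    exact this.2

end H27ZP
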