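import Pool.Agent.H27.ZP.Med

/-!
# Lemma 1 of Theorem Z+, exact finite form
-/

set_option autoImplicit false

namespace H27ZP

variable {V : Type*} [AddCommGroup V] [Module ℝ V]

/-- the test function `max (0, P v, Q v)` -/
noncomputable def gg (P Q : V →ₗ[ℝ] ℝ) (v : V) : ℝ := max 0 (max (P v) (Q v))

lemma gg_nonneg (P Q : V →ₗ[ℝ] ℝ) (v : V) : 0 ≤ gg P Q v := le_max_left _ _

lemma gg_add (P Q : V →ₗ[ℝ] ℝ) (u v : V) : gg P Q (u + v) ≤ gg P Q u + gg P Q v := by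
  unfold gg
  rw [map_add, map_add]
  have h1 := le_max_left 0 (max (P u) (Q u))
  have h2 := le_max_left 0 (max (P v) (Q v))
  have h3 := le_max_right 0 (max (P u) (Q u))
  have h4 := le_max_right 0 (max (P v) (Q v))
  have h5 := le_max_left (P u) (Q u)
  have h6 := le_max_right (P u) (Q u)
  have h7 := le_max_left (P v) (Q v)
  have h8 := le_max_right (P v) (Q v)
  apply max_le (by linarith)
  apply max_le <;> linarith

/-- the vector `a` lies in the convex cone spanned by `u` and `v` -/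
def InCone (u v a : V) : Prop := ∃ α β : ℝ, 0 ≤ α ∧ 0 ≤ β ∧ a = α • u + β • v

/-- the odd part of `gg` minus the linear form `c` -/
noncomputable def psi (P Q c : V →ₗ[ℝ] ℝ) (v : V) : ℝ := gg P Q v - gg P Q (-v) - c v

lemma psi_eq_cases (p q c : ℝ) :
    (P2 (c - p - q) (c - q) (c - p) → max 0 (max p q) - max 0 (max (-p) (-q)) - c ≤ 0) ∧
    (N2 (c - p - q) (c - q) (c - p) → 0 ≤ max 0 (max p q) - max 0 (max (-p) (-q)) - c) ∧
    (max 0 (max p q) - max 0 (max (-p) (-q)) - c = 0 →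
      P2 (c - p - q) (c - q) (c - p) ∧ N2 (c - p - q) (c - q) (c - p)) := by
  unfold P2 N2
  rcases le_total p q with h | h
  · rw [max_eq_right h, max_eq_left (by linarith : -q ≤ -p)]
    rcases le_total 0 q with h1 | h1 <;> rcases le_total 0 p with h2 | h2
    · rw [max_eq_right h1, max_eq_left (by linarith : -p ≤ 0)]
      refine ⟨?_, ?_, ?_⟩
      · rintro (⟨a, b⟩ | ⟨a, b⟩ | ⟨a, b⟩) <;> linarith
      · rintro (⟨a, b⟩ | ⟨a, b⟩ | ⟨a, b⟩) <;> linarith
      · intro a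
        exact ⟨Or.inr (Or.inr ⟨by linarith, by linarith⟩), Or.inl ⟨by linarith, by linarith⟩⟩
    · rw [max_eq_right h1, max_eq_right (by linarith : 0 ≤ -p)]
      refine ⟨?_, ?_, ?_⟩
      · rintro (⟨a, b⟩ | ⟨a, b⟩ | ⟨a, b⟩) <;> linarith
      · rintro (⟨a, b⟩ | ⟨a, b⟩ | ⟨a, b⟩) <;> linarith
      · intro a
        exact ⟨Or.inr (Or.inl ⟨by linarith, by linarith⟩), Or.inl ⟨by linarith, by linarith⟩⟩
    · have : p = 0 := by linarith
      have : q = 0 := by linarith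
      subst_vars
      refine ⟨?_, ?_, ?_⟩
      · rintro (⟨a, b⟩ | ⟨a, b⟩ | ⟨a, b⟩) <;> simp <;> linarith
      · rintro (⟨a, b⟩ | ⟨a, b⟩ | ⟨a, b⟩) <;> simp <;> linarith
      · intro a
        simp at a
        exact ⟨Or.inl ⟨by linarith, by linarith⟩, Or.inl ⟨by linarith, by linarith⟩⟩
    · rw [max_eq_left h1, max_eq_right (by linarith : 0 ≤ -p)]
      refine ⟨?_, ?_, ?_⟩
      · rintro (⟨a, b⟩ | ⟨a, b⟩ | ⟨a, b⟩) <;> linarith
      · rintro (⟨a, b⟩ | ⟨a, b⟩ | ⟨a, b⟩) <;> linarith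
      · intro a
        exact ⟨Or.inr (Or.inl ⟨by linarith, by linarith⟩), Or.inr (Or.inr ⟨by linarith, by linarith⟩)⟩
  · rw [max_eq_left h, max_eq_right (by linarith : -p ≤ -q)]
    rcases le_total 0 q with h1 | h1 <;> rcases le_total 0 p with h2 | h2
    · rw [max_eq_right h2, max_eq_left (by linarith : -q ≤ 0)]
      refine ⟨?_, ?_, ?_⟩
      · rintro (⟨a, b⟩ | ⟨a, b⟩ | ⟨a, b⟩) <;> linarith
      · rintro (⟨a, b⟩ | ⟨a, b⟩ | ⟨a, b⟩) <;> linarith
      · intro a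
        exact ⟨Or.inr (Or.inr ⟨by linarith, by linarith⟩), Or.inr (Or.inl ⟨by linarith, by linarith⟩)⟩
    · have : p = 0 := by linarith
      have : q = 0 := by linarith
      subst_vars
      refine ⟨?_, ?_, ?_⟩
      · rintro (⟨a, b⟩ | ⟨a, b⟩ | ⟨a, b⟩) <;> simp <;> linarith
      · rintro (⟨a, b⟩ | ⟨a, b⟩ | ⟨a, b⟩) <;> simp <;> linarith
      · intro a
        simp at a
        exact ⟨Or.inl ⟨by linarith, by linarith⟩, Or.inl ⟨by linarith, by linarith⟩⟩
    · rw [max_eq_right h2, max_eq_right (by linarith : 0 ≤ -q)]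
      refine ⟨?_, ?_, ?_⟩
      · rintro (⟨a, b⟩ | ⟨a, b⟩ | ⟨a, b⟩) <;> linarith
      · rintro (⟨a, b⟩ | ⟨a, b⟩ | ⟨a, b⟩) <;> linarith
      · intro a
        exact ⟨Or.inl ⟨by linarith, by linarith⟩, Or.inr (Or.inl ⟨by linarith, by linarith⟩)⟩
    · rw [max_eq_left h2, max_eq_right (by linarith : 0 ≤ -q)]
      refine ⟨?_, ?_, ?_⟩
      · rintro (⟨a, b⟩ | ⟨a, b⟩ | ⟨a, b⟩) <;> linarith
      · rintro (⟨a, b⟩ | ⟨a, b⟩ | ⟨a, b⟩) <;> linarith
      · intro a
        exact ⟨Or.inl ⟨by linarith, by linarith⟩, Or.inr (Or.inr ⟨by linarith, by linarith⟩)⟩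

lemma psi_nonpos (P Q c : V →ₗ[ℝ] ℝ) (v : V) (h : P2 (c v - P v - Q v) (c v - Q v) (c v - P v)) :
    psi P Q c v ≤ 0 := by
  unfold psi gg
  rw [map_neg, map_neg]
  exact (psi_eq_cases (P v) (Q v) (c v)).1 h

lemma psi_nonneg (P Q c : V →ₗ[ℝ] ℝ) (v : V) (h : N2 (c v - P v - Q v) (c v - Q v) (c v - P v)) :
    0 ≤ psi P Q c v := by
  unfold psi gg
  rw [map_neg, map_neg]
  exact (psi_eq_cases (P v) (Q v) (c v)).2.1 h

lemma psi_zero (P Q c : V →ₗ[ℝ] ℝ) (v : V) (h : psi P Q c v = 0) :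
    P2 (c v - P v - Q v) (c v - Q v) (c v - P v) ∧
      N2 (c v - P v - Q v) (c v - Q v) (c v - P v) := by
  unfold psi gg at h
  rw [map_neg, map_neg] at h
  exact (psi_eq_cases (P v) (Q v) (c v)).2.2 h

/-- `psi` has weakly alternating signs on the three cones. -/
lemma psi_alt (P Q c : V →ₗ[ℝ] ℝ) (w0 w2 : V)
    (h0 : psi P Q c w0 = 0) (h2 : psi P Q c w2 = 0) (h1 : psi P Q c (w0 + w2) = 0) :
    ((∀ a, InCone w0 (w0 + w2) a → psi P Q c a ≤ 0) ∧
      (∀ a, InCone (w0 + w2) w2 a → 0 ≤ psi P Q c a) ∧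
      (∀ a, InCone w2 (-w0) a → psi P Q c a ≤ 0)) ∨
    ((∀ a, InCone w0 (w0 + w2) a → 0 ≤ psi P Q c a) ∧
      (∀ a, InCone (w0 + w2) w2 a → psi P Q c a ≤ 0) ∧
      (∀ a, InCone w2 (-w0) a → 0 ≤ psi P Q c a)) := by
  obtain ⟨p0, n0⟩ := psi_zero P Q c w0 h0
  obtain ⟨p2, n2⟩ := psi_zero P Q c w2 h2
  obtain ⟨p1, n1⟩ := psi_zero P Q c (w0 + w2) h1
  rw [map_add, map_add, map_add] at p1 n1
  have e1 : c w0 + c w2 - (P w0 + P w2) - (Q w0 + Q w2) =
    (c w0 - P w0 - Q w0) + (c w2 - P w2 - Q w2) := by ring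
  have e2 : c w0 + c w2 - (Q w0 + Q w2) = (c w0 - Q w0) + (c w2 - Q w2) := by ring
  have e3 : c w0 + c w2 - (P w0 + P w2) = (c w0 - P w0) + (c w2 - P w2) := by ring
  rw [e1, e2, e3] at p1 n1
  have key := sign_lemma _ _ _ _ _ _ p0 n0 p2 n2 p1 n1
  have l01 : ∀ α β : ℝ, ∀ T : V →ₗ[ℝ] ℝ, T (α • w0 + β • (w0 + w2)) =
      α * T w0 + β * (T w0 + T w2) := by
    intro α β T; simp [map_add, map_smul, mul_add]
  have l12 : ∀ α β : ℝ, ∀ T : V →ₗ[ℝ] ℝ, T (α • (w0 + w2) + β • w2) =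
      α * (T w0 + T w2) + β * T w2 := by
    intro α β T; simp [map_add, map_smul, mul_add]
  have l23 : ∀ α β : ℝ, ∀ T : V →ₗ[ℝ] ℝ, T (α • w2 + β • (-w0)) =
      α * T w2 + β * (-(T w0)) := by
    intro α β T; simp [map_add, map_smul]
  rcases key with ⟨k0, k1, k2⟩ | ⟨k0, k1, k2⟩
  · left
    refine ⟨?_, ?_, ?_⟩
    · rintro a ⟨α, β, hα, hβ, rfl⟩
      apply psi_nonpos
      rw [l01, l01, l01]
      have := k0 α β hα hβ
      unfold P2 at this ⊢
      convert this using 5 <;> ring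
    · rintro a ⟨α, β, hα, hβ, rfl⟩
      apply psi_nonneg
      rw [l12, l12, l12]
      have := k1 α β hα hβ
      unfold N2 at this ⊢
      convert this using 5 <;> ring
    · rintro a ⟨α, β, hα, hβ, rfl⟩
      apply psi_nonpos
      rw [l23, l23, l23]
      have := k2 α β hα hβ
      unfold P2 at this ⊢
      convert this using 5 <;> ring
  · right
    refine ⟨?_, ?_, ?_⟩
    · rintro a ⟨α, β, hα, hβ, rfl⟩
      apply psi_nonneg
      rw [l01, l01, l01]
      have := k0 α β hα hβ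
      unfold N2 at this ⊢
      convert this using 5 <;> ring
    · rintro a ⟨α, β, hα, hβ, rfl⟩
      apply psi_nonpos
      rw [l12, l12, l12]
      have := k1 α β hα hβ
      unfold P2 at this ⊢
      convert this using 5 <;> ring
    · rintro a ⟨α, β, hα, hβ, rfl⟩
      apply psi_nonneg
      rw [l23, l23, l23]
      have := k2 α β hα hβ
      unfold N2 at this ⊢
      convert this using 5 <;> ring

/-- a block where `psi ≤ 0` -/
lemma block_minus (P Q c : V →ₗ[ℝ] ℝ) (a a' : V) (h : psi P Q c (-a') ≤ 0) :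
    gg P Q (a - a') + c a' ≤ gg P Q a + gg P Q a' := by
  unfold psi at h
  rw [neg_neg, map_neg] at h
  have := gg_add P Q a (-a')
  rw [← sub_eq_add_neg] at this
  linarith

/-- a block where `psi ≥ 0` -/
lemma block_plus (P Q c : V →ₗ[ℝ] ℝ) (a a' : V) (h : 0 ≤ psi P Q c a) :
    gg P Q (-(a - a')) + c a ≤ gg P Q a + gg P Q a' := by
  unfold psi at h
  have := gg_add P Q (-a) a'
  have e : -(a - a') = -a + a' := by abel
  rw [e]
  linarith

/-- LEMMA 1 of Theorem Z+, exact finite form. `A0, ..., A5` are the increments of `bd L` in the six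
blocks of an s-invariant grid which starts at the balanced parameter (`w0, w0 + w2, w2` are the
tangent vectors there, `hE` says `E = O`). -/
theorem lemma1_core {ι : Type*} (R : Finset ι) (P Q c : V →ₗ[ℝ] ℝ) (w0 w2 : V)
    (A0 A1 A2 A3 A4 A5 : ι → V)
    (hc0 : c w0 = gg P Q w0 - gg P Q (-w0)) (hc2 : c w2 = gg P Q w2 - gg P Q (-w2))
    (hE : gg P Q w0 + gg P Q w2 + gg P Q (-(w0 + w2)) =
      gg P Q (w0 + w2) + gg P Q (-w0) + gg P Q (-w2))
    (hv : ∀ r ∈ R, A1 r - A4 r = (A0 r - A3 r) + (A2 r - A5 r))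
    (hs : ∑ r ∈ R, (A0 r + A1 r + A2 r + A3 r + A4 r + A5 r) = 0)
    (c0 : ∀ r ∈ R, InCone w0 (w0 + w2) (A0 r)) (c3 : ∀ r ∈ R, InCone w0 (w0 + w2) (-A3 r))
    (c1 : ∀ r ∈ R, InCone (w0 + w2) w2 (A1 r)) (c4 : ∀ r ∈ R, InCone (w0 + w2) w2 (-A4 r))
    (c2 : ∀ r ∈ R, InCone w2 (-w0) (A2 r)) (c5 : ∀ r ∈ R, InCone w2 (-w0) (-A5 r)) :
    (∑ r ∈ R, (gg P Q (A0 r - A3 r) + gg P Q (A2 r - A5 r) + gg P Q (-(A1 r - A4 r))) ≤
      ∑ r ∈ R, (gg P Q (A0 r) + gg P Q (A1 r) + gg P Q (A2 r) + gg P Q (A3 r) + gg P Q (A4 r) +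
        gg P Q (A5 r))) ∨
    (∑ r ∈ R, (gg P Q (A1 r - A4 r) + gg P Q (-(A0 r - A3 r)) + gg P Q (-(A2 r - A5 r))) ≤
      ∑ r ∈ R, (gg P Q (A0 r) + gg P Q (A1 r) + gg P Q (A2 r) + gg P Q (A3 r) + gg P Q (A4 r) +
        gg P Q (A5 r))) := by
  have h0 : psi P Q c w0 = 0 := by unfold psi; linarith
  have h2 : psi P Q c w2 = 0 := by unfold psi; linarith
  have h1 : psi P Q c (w0 + w2) = 0 := by
    unfold psi; rw [map_add]; linarith
  -- the odd and even increments have zero sum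
  have hodd : ∑ r ∈ R, (A1 r + A3 r + A5 r) = 0 := by
    have e : ∀ r ∈ R, A0 r + A1 r + A2 r + A3 r + A4 r + A5 r = (2 : ℝ) • (A1 r + A3 r + A5 r) := by
      intro r hr
      have h := hv r hr
      have h' : A0 r + A2 r + A4 r = A1 r + A3 r + A5 r := by
        have : A0 r + A2 r + A4 r - (A1 r + A3 r + A5 r) =
          ((A0 r - A3 r) + (A2 r - A5 r)) - (A1 r - A4 r) := by abel
        rw [← h, sub_self] at this
        exact sub_eq_zero.1 this
      have : A0 r + A1 r + A2 r + A3 r + A4 r + A5 r =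
        (A0 r + A2 r + A4 r) + (A1 r + A3 r + A5 r) := by abel
      rw [this, h', two_smul]
    rw [Finset.sum_congr rfl e, ← Finset.smul_sum] at hs
    exact (smul_eq_zero.1 hs).resolve_left (by norm_num)
  have heven : ∑ r ∈ R, (A0 r + A2 r + A4 r) = 0 := by
    have e : ∀ r ∈ R, A0 r + A2 r + A4 r = A1 r + A3 r + A5 r := by
      intro r hr
      have h := hv r hr
      have : A0 r + A2 r + A4 r - (A1 r + A3 r + A5 r) =
        ((A0 r - A3 r) + (A2 r - A5 r)) - (A1 r - A4 r) := by abel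
      rw [← h, sub_self] at this
      exact sub_eq_zero.1 this
    rw [Finset.sum_congr rfl e, hodd]
  rcases psi_alt P Q c w0 w2 h0 h2 h1 with ⟨k0, k1, k2⟩ | ⟨k0, k1, k2⟩
  · left
    have hc : ∑ r ∈ R, c (A1 r + A3 r + A5 r) = 0 := by
      rw [← map_sum, hodd, map_zero]
    calc ∑ r ∈ R, (gg P Q (A0 r - A3 r) + gg P Q (A2 r - A5 r) + gg P Q (-(A1 r - A4 r)))
        = ∑ r ∈ R, (gg P Q (A0 r - A3 r) + gg P Q (A2 r - A5 r) + gg P Q (-(A1 r - A4 r)) +
            c (A1 r + A3 r + A5 r)) := by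
          rw [Finset.sum_add_distrib (g := fun r => c (A1 r + A3 r + A5 r)), hc, add_zero]
      _ ≤ _ := by
          apply Finset.sum_le_sum
          intro r hr
          have b0 := block_minus P Q c (A0 r) (A3 r) (k0 _ (c3 r hr))
          have b1 := block_plus P Q c (A1 r) (A4 r) (k1 _ (c1 r hr))
          have b2 := block_minus P Q c (A2 r) (A5 r) (k2 _ (c5 r hr))
          rw [map_add, map_add]
          linarith
  · right
    have hc : ∑ r ∈ R, c (A0 r + A2 r + A4 r) = 0 := by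
      rw [← map_sum, heven, map_zero]
    calc ∑ r ∈ R, (gg P Q (A1 r - A4 r) + gg P Q (-(A0 r - A3 r)) + gg P Q (-(A2 r - A5 r)))
        = ∑ r ∈ R, (gg P Q (A1 r - A4 r) + gg P Q (-(A0 r - A3 r)) + gg P Q (-(A2 r - A5 r)) +
            c (A0 r + A2 r + A4 r)) := by
          rw [Finset.sum_add_distrib (g := fun r => c (A0 r + A2 r + A4 r)), hc, add_zero]
      _ ≤ _ := by
          apply Finset.sum_le_sum
          intro r hr
          have b0 := block_plus P Q c (A0 r) (A3 r) (k0 _ (c0 r hr))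
          have b1 := block_minus P Q c (A1 r) (A4 r) (k1 _ (c4 r hr))
          have b2 := block_plus P Q c (A2 r) (A5 r) (k2 _ (c2 r hr))
          rw [map_add, map_add]
          linarith

end H27ZP
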