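import Pool.Agent.H27.ZP.Smap

/-!
# Fine s-invariant grids
-/

set_option autoImplicit false

open Finset Real Filter Topology

namespace H27ZP

/-- a strictly increasing enumeration of a finite set with small gaps -/
lemma exists_enum (a b : ℝ) (hab : a < b) (X : Finset ℝ) (hX : ∀ x ∈ X, a ≤ x ∧ x < b)
    (d : ℝ) (hd : 0 < d) :
    ∃ (M : ℕ) (σ : ℕ → ℝ), 0 < M ∧ σ 0 = a ∧ (∀ i, i < M → a ≤ σ i ∧ σ i < b) ∧
      (∀ i, i + 1 < M → σ i < σ (i + 1)) ∧ (∀ i, i + 1 < M → σ (i + 1) - σ i < d) ∧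
      (∀ i, i + 1 = M → b - σ i < d) ∧ (∀ x ∈ X, ∃ j, j < M ∧ σ j = x) := by
  classical
  set K : ℕ := ⌈(b - a) / (d / 2)⌉₊ + 2 with hK
  set S : Finset ℝ := (X ∪ insert a ((range K).image (fun k : ℕ => a + k * (d / 2)))).filter
    (fun x => x < b) with hS
  have haS : a ∈ S := by
    rw [hS, Finset.mem_filter]
    exact ⟨Finset.mem_union_right _ (Finset.mem_insert_self _ _), hab⟩
  have hSa : ∀ x ∈ S, a ≤ x ∧ x < b := by
    intro x hx
    rw [hS, Finset.mem_filter, Finset.mem_union, Finset.mem_insert, Finset.mem_image] at hx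
    refine ⟨?_, hx.2⟩
    rcases hx.1 with h | h | ⟨k, _, h⟩
    · exact (hX x h).1
    · exact h.ge
    · rw [← h]
      have : (0 : ℝ) ≤ k * (d / 2) := by positivity
      linarith
  -- density
  have dense : ∀ x y : ℝ, a ≤ x → y ≤ b → d ≤ y - x → ∃ z ∈ S, x < z ∧ z < y := by
    intro x y hx hy hxy
    set k : ℕ := ⌊(x - a) / (d / 2)⌋₊ + 1 with hk
    have h1 : (x - a) / (d / 2) < k := by
      rw [hk]; push_cast; exact Nat.lt_floor_add_one _
    have h2 : (k : ℝ) ≤ (x - a) / (d / 2) + 1 := by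
      rw [hk]; push_cast
      have := Nat.floor_le (a := (x - a) / (d / 2)) (div_nonneg (by linarith) (by positivity))
      linarith
    have h3 : x - a < k * (d / 2) := by
      rwa [div_lt_iff₀ (by positivity)] at h1
    have h4 : k * (d / 2) ≤ (x - a) + d / 2 := by
      have := mul_le_mul_of_nonneg_right h2 (by positivity : (0 : ℝ) ≤ d / 2)
      rw [add_mul, div_mul_cancel₀ _ (by positivity : (d / 2 : ℝ) ≠ 0), one_mul] at this
      exact this
    refine ⟨a + k * (d / 2), ?_, by linarith, by linarith⟩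
    rw [hS, Finset.mem_filter]
    refine ⟨Finset.mem_union_right _ (Finset.mem_insert_of_mem
      (Finset.mem_image.2 ⟨k, ?_, rfl⟩)), by linarith⟩
    rw [Finset.mem_range, hK, hk]
    have h5 : (x - a) / (d / 2) ≤ (b - a) / (d / 2) :=
      div_le_div_of_nonneg_right (by linarith) (by positivity)
    have h6 : ⌊(x - a) / (d / 2)⌋₊ ≤ ⌈(b - a) / (d / 2)⌉₊ :=
      le_trans (Nat.floor_le_ceil _) (Nat.ceil_mono h5)
    omega
  set M := S.card with hM
  have hMpos : 0 < M := Finset.card_pos.2 ⟨a, haS⟩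
  set em := S.orderEmbOfFin rfl with hem
  have hemS : ∀ r, em r ∈ S := fun r => Finset.orderEmbOfFin_mem S rfl r
  have hsurj : ∀ z ∈ S, ∃ r, em r = z := by
    intro z hz
    have : z ∈ Set.range em := by
      rw [hem, Finset.range_orderEmbOfFin]
      exact hz
    exact this
  set σ : ℕ → ℝ := fun r => if h : r < M then em ⟨r, h⟩ else 0 with hσ
  have hσv : ∀ r (h : r < M), σ r = em ⟨r, h⟩ := by
    intro r h
    rw [hσ]
    simp only [dif_pos h]
  refine ⟨M, σ, hMpos, ?_, ?_, ?_, ?_, ?_, ?_⟩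
  · rw [hσv 0 hMpos]
    obtain ⟨r, hr⟩ := hsurj a haS
    apply le_antisymm
    · rw [← hr]
      exact em.monotone (Fin.mk_le_of_le_val (Nat.zero_le _))
    · exact (hSa _ (hemS _)).1
  · intro i hi
    rw [hσv i hi]
    exact hSa _ (hemS _)
  · intro i hi
    rw [hσv i (by omega), hσv (i + 1) hi]
    exact em.strictMono (by simp [Fin.lt_def])
  · intro i hi
    by_contra hc
    push Not at hc
    rw [hσv i (by omega), hσv (i + 1) hi] at hc
    obtain ⟨z, hz, z1, z2⟩ := dense _ _ (hSa _ (hemS ⟨i, by omega⟩)).1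
      (hSa _ (hemS ⟨i + 1, hi⟩)).2.le hc
    obtain ⟨r, hr⟩ := hsurj z hz
    rw [← hr] at z1 z2
    have e1 := em.lt_iff_lt.1 z1
    have e2 := em.lt_iff_lt.1 z2
    rw [Fin.lt_def] at e1 e2
    simp only at e1 e2
    omega
  · intro i hi
    by_contra hc
    push Not at hc
    rw [hσv i (by omega)] at hc
    obtain ⟨z, hz, z1, z2⟩ := dense _ b (hSa _ (hemS ⟨i, by omega⟩)).1 le_rfl hc
    obtain ⟨r, hr⟩ := hsurj z hz
    rw [← hr] at z1
    have e1 := em.lt_iff_lt.1 z1
    rw [Fin.lt_def] at e1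
    simp only at e1
    have := r.2
    omega
  · intro x hx
    have : x ∈ S := by
      rw [hS, Finset.mem_filter]
      exact ⟨Finset.mem_union_left _ hx, (hX x hx).2⟩
    obtain ⟨r, hr⟩ := hsurj x this
    exact ⟨r.1, r.2, by rw [hσv r.1 r.2]; exact hr⟩

variable {q : ℝ → ℝ × ℝ}

namespace QMap

lemma s_sub_pi (hq : QMap q) (t : ℝ) : hq.s (t - π) = hq.s t - π := by
  have := hq.s_pi (t - π)
  rw [sub_add_cancel] at this
  linarith

/-- the order isomorphism given by `s` -/
noncomputable def sIso (hq : QMap q) : ℝ ≃o ℝ :=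
  hq.s_mono.orderIsoOfSurjective hq.s (fun x => ⟨hq.s (hq.s x) - π, by
    rw [hq.s_sub_pi, hq.s3]; ring⟩)

lemma sIso_apply (hq : QMap q) (t : ℝ) : hq.sIso t = hq.s t := rfl

lemma sIso_zpow_succ (hq : QMap q) (n : ℤ) (x : ℝ) :
    (hq.sIso ^ (n + 1)) x = hq.s ((hq.sIso ^ n) x) := by
  rw [add_comm, zpow_add, zpow_one, RelIso.mul_apply]
  rfl

lemma sIso_zpow_succ' (hq : QMap q) (n : ℤ) (x : ℝ) :
    (hq.sIso ^ (n + 1)) x = (hq.sIso ^ n) (hq.s x) := by
  rw [zpow_add, zpow_one, RelIso.mul_apply]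
  rfl

/-- FINE GRID: a strictly increasing `s`-invariant grid which contains the finite set `X` of the
fundamental window and has mesh less than `d`. -/
theorem exists_grid (hq : QMap q) (t0 : ℝ) (X : Finset ℝ)
    (hX : ∀ x ∈ X, t0 ≤ x ∧ x < hq.s t0) (d : ℝ) (hd : 0 < d) :
    ∃ (M : ℕ) (th : ℤ → ℝ), 0 < M ∧ StrictMono th ∧ th 0 = t0 ∧
      (∀ i, th (i + M) = hq.s (th i)) ∧ (∀ x ∈ X, ∃ j : ℕ, j < M ∧ th j = x) ∧
      (∀ i, th (i + 1) - th i < d) := by
  -- uniform continuity of the first iterates on the fundamental window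
  have uc : ∀ f : ℝ → ℝ, Continuous f → ∃ d' > 0, ∀ x ∈ Set.Icc t0 (hq.s t0),
      ∀ y ∈ Set.Icc t0 (hq.s t0), |x - y| < d' → |f x - f y| < d := by
    intro f hf
    have := isCompact_Icc.uniformContinuousOn_of_continuous (s := Set.Icc t0 (hq.s t0))
      hf.continuousOn
    rw [Metric.uniformContinuousOn_iff] at this
    obtain ⟨d', hd', h⟩ := this d hd
    exact ⟨d', hd', fun x hx y hy hxy => h x hx y hy hxy⟩
  obtain ⟨d1, hd1, h1⟩ := uc hq.s hq.s_cont
  obtain ⟨d2, hd2, h2⟩ := uc (fun x => hq.s (hq.s x)) (hq.s_cont.comp hq.s_cont)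
  obtain ⟨M, σ, hM, σ0, σr, σm, σg, σl, σX⟩ := exists_enum t0 (hq.s t0) (hq.lt_s t0) X hX
    (min d (min d1 d2)) (lt_min hd (lt_min hd1 hd2))
  have hMz : (0 : ℤ) < M := by exact_mod_cast hM
  set th : ℤ → ℝ := fun i => (hq.sIso ^ (i / M)) (σ (i % M).toNat) with hth
  have thM : ∀ i, th (i + M) = hq.s (th i) := by
    intro i
    show (hq.sIso ^ ((i + M) / M)) (σ ((i + M) % M).toNat) = hq.s ((hq.sIso ^ (i / M)) _)
    rw [Int.add_emod_right, Int.add_ediv_of_dvd_right (dvd_refl _), Int.ediv_self hMz.ne',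
      hq.sIso_zpow_succ]
  have thM3 : ∀ i, th (i + 3 * M) = th i + π := by
    intro i
    rw [show i + 3 * (M : ℤ) = i + M + M + M by ring, thM, thM, thM, hq.s3]
  have thM3k : ∀ (i k : ℤ), th (i + k * (3 * M)) = th i + k * π := by
    intro i k
    induction k using Int.induction_on with
    | zero => simp
    | succ n ih =>
      rw [show i + ((n : ℤ) + 1) * (3 * M) = i + n * (3 * M) + 3 * M by ring, thM3, ih]
      push_cast; ring
    | pred n ih =>
      have := thM3 (i + (-(n : ℤ) - 1) * (3 * M))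
      rw [show i + (-(n : ℤ) - 1) * (3 * M) + 3 * M = i + -(n : ℤ) * (3 * M) by ring, ih] at this
      push_cast at this ⊢
      linarith
  -- window values
  have thw : ∀ r : ℕ, r < M → th r = σ r := by
    intro r hr
    show (hq.sIso ^ ((r : ℤ) / M)) (σ ((r : ℤ) % M).toNat) = σ r
    rw [Int.ediv_eq_zero_of_lt (by positivity) (by exact_mod_cast hr),
      Int.emod_eq_of_lt (by positivity) (by exact_mod_cast hr), zpow_zero]
    simp
  have thM0 : th M = hq.s t0 := by
    have := thM 0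
    rw [zero_add] at this
    rw [this]
    have h0 := thw 0 hM
    rw [Nat.cast_zero] at h0
    rw [h0, σ0]
  -- in the window
  have inw : ∀ r : ℤ, 0 ≤ r → r < M → th r ∈ Set.Icc t0 (hq.s t0) ∧
      th (r + 1) ∈ Set.Icc t0 (hq.s t0) ∧ th r < th (r + 1) ∧
      th (r + 1) - th r < min d (min d1 d2) := by
    intro r hr0 hrM
    obtain ⟨n, rfl⟩ := Int.eq_ofNat_of_zero_le hr0
    have hn : n < M := by exact_mod_cast hrM
    have e1 : th (n : ℤ) = σ n := thw n hn
    by_cases hlast : n + 1 < M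
    · have e2 : th ((n : ℤ) + 1) = σ (n + 1) := by
        have := thw (n + 1) hlast
        push_cast at this
        exact this
      rw [e1, e2]
      exact ⟨⟨(σr n hn).1, (σr n hn).2.le⟩, ⟨(σr _ hlast).1, (σr _ hlast).2.le⟩, σm n hlast,
        σg n hlast⟩
    · have hnM : n + 1 = M := by omega
      have e2 : th ((n : ℤ) + 1) = hq.s t0 := by
        rw [← thM0]
        congr 1
        exact_mod_cast hnM
      rw [e1, e2]
      exact ⟨⟨(σr n hn).1, (σr n hn).2.le⟩, ⟨(hq.lt_s t0).le, le_rfl⟩, (σr n hn).2, σl n hnM⟩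
  -- reduction to three windows
  have red : ∀ i : ℤ, ∃ r : ℤ, ∃ k : ℤ, 0 ≤ r ∧ r < M ∧
      (i = r + k * (3 * M) ∨ i = r + M + k * (3 * M) ∨ i = r + 2 * M + k * (3 * M)) := by
    intro i
    have hd3 : 0 ≤ i / M % 3 := Int.emod_nonneg _ (by norm_num)
    have hd3' : i / M % 3 < 3 := Int.emod_lt_of_pos _ (by norm_num)
    refine ⟨i % M, i / M / 3, Int.emod_nonneg _ hMz.ne', Int.emod_lt_of_pos _ hMz, ?_⟩
    have e1 := Int.emod_add_mul_ediv i M
    have e2 := Int.emod_add_mul_ediv (i / M) 3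
    have : i = i % M + (i / M % 3) * M + (i / M / 3) * (3 * M) := by
      conv_lhs => rw [← e1]
      conv_lhs => rw [← e2]
      ring
    have h012 : i / M % 3 = 0 ∨ i / M % 3 = 1 ∨ i / M % 3 = 2 := by omega
    rcases h012 with h | h | h
    · left; rw [h] at this; linarith
    · right; left; rw [h] at this; linarith
    · right; right; rw [h] at this; linarith
  have gap : ∀ i, th i < th (i + 1) ∧ th (i + 1) - th i < d := by
    intro i
    obtain ⟨r, k, hr0, hrM, h | h | h⟩ := red i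
    · obtain ⟨_, _, g1, g2⟩ := inw r hr0 hrM
      rw [h, show r + k * (3 * (M : ℤ)) + 1 = r + 1 + k * (3 * M) by ring, thM3k, thM3k]
      refine ⟨by linarith, ?_⟩
      have := lt_of_lt_of_le g2 (min_le_left _ _)
      linarith
    · obtain ⟨m1, m2, g1, g2⟩ := inw r hr0 hrM
      rw [h, show r + (M : ℤ) + k * (3 * (M : ℤ)) + 1 = r + 1 + M + k * (3 * M) by ring, thM3k,
        thM3k, thM, thM]
      have g3 := hq.s_mono g1
      have g4 : |th (r + 1) - th r| < d1 := by
        rw [abs_of_pos (by linarith)]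
        exact lt_of_lt_of_le g2 (le_trans (min_le_right _ _) (min_le_left _ _))
      have g5 := h1 _ m2 _ m1 g4
      rw [abs_of_pos (by linarith)] at g5
      exact ⟨by linarith, by linarith⟩
    · obtain ⟨m1, m2, g1, g2⟩ := inw r hr0 hrM
      rw [h, show r + 2 * (M : ℤ) + k * (3 * (M : ℤ)) + 1 = r + 1 + M + M + k * (3 * M) by ring,
        show r + 2 * (M : ℤ) + k * (3 * (M : ℤ)) = r + M + M + k * (3 * M) by ring, thM3k,
        thM3k, thM, thM, thM, thM]
      have g3 := hq.s_mono (hq.s_mono g1)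
      have g4 : |th (r + 1) - th r| < d2 := by
        rw [abs_of_pos (by linarith)]
        exact lt_of_lt_of_le g2 (le_trans (min_le_right _ _) (min_le_right _ _))
      have g5 := h2 _ m2 _ m1 g4
      rw [abs_of_pos (by linarith)] at g5
      exact ⟨by linarith, by linarith⟩
  refine ⟨M, th, hM, strictMono_int_of_lt_succ (fun i => (gap i).1), ?_, thM, ?_,
    fun i => (gap i).2⟩
  · have h0 := thw 0 hM
    rw [Nat.cast_zero] at h0
    rw [h0, σ0]
  · intro x hx
    obtain ⟨j, hj, e⟩ := σX x hx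
    exact ⟨j, hj, by rw [thw j hj, e]⟩

end QMap

end H27ZP
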