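import Pool.Agent.H27.ZP.Grid

/-!
# The increments of an s-invariant grid
-/

set_option autoImplicit false

open Finset Real Filter Topology

namespace H27ZP

lemma crs_tau (x y : ℝ) : crs (tau x) (tau y) = sin (y - x) := by
  unfold crs tau; simp only [sin_sub]; ring

/-- the open cone of two tangents -/
lemma openCone_tau (α β : ℝ) (h1 : α < β) (h2 : β < α + π)
    (a : ℝ × ℝ) (ha : dt (uu α) a < 0) (hb : 0 < dt (uu β) a) :
    ∃ x y : ℝ, 0 < x ∧ 0 < y ∧ a = x • tau α + y • tau β := by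
  have hs : 0 < sin (β - α) := sin_pos_of_pos_of_lt_pi (by linarith) (by linarith)
  refine ⟨dt (uu β) a / sin (β - α), (-dt (uu α) a) / sin (β - α),
    div_pos hb hs, div_pos (by linarith) hs, ?_⟩
  have hs' := hs.ne'
  rw [sin_sub] at hs' ⊢
  unfold dt uu tau
  ext
  · simp only [Prod.smul_mk, Prod.mk_add_mk, smul_eq_mul]
    field_simp
    ring
  · simp only [Prod.smul_mk, Prod.mk_add_mk, smul_eq_mul]
    field_simp
    ring

variable {q : ℝ → ℝ × ℝ}

namespace QMap

lemma incr_cone (hq : QMap q) {x y : ℝ} (h1 : x < y) (h2 : y < x + π) :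
    ∃ a b : ℝ, 0 < a ∧ 0 < b ∧ q y - q x = a • tau x + b • tau y := by
  apply openCone_tau x y h1 h2
  · rw [dt_sub]
    have := hq.strict x y (uu_ne h1 (by linarith [pi_pos]))
    linarith
  · rw [dt_sub]
    have := hq.strict y x (uu_ne h1 (by linarith [pi_pos])).symm
    linarith

/-- cross product of two increments -/
lemma incr_crs (hq : QMap q) {x y z w : ℝ} (h1 : x < y) (h2 : y ≤ z) (h3 : z < w)
    (h4 : w ≤ x + π) : 0 < crs (q y - q x) (q w - q z) := by
  obtain ⟨a, b, ha, hb, e1⟩ := hq.incr_cone h1 (by linarith)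
  obtain ⟨c, d, hc, hd, e2⟩ := hq.incr_cone h3 (by linarith)
  have e : crs (q y - q x) (q w - q z) = a * c * sin (z - x) + a * d * sin (w - x) +
      b * c * sin (z - y) + b * d * sin (w - y) := by
    rw [e1, e2, ← crs_tau, ← crs_tau, ← crs_tau, ← crs_tau]
    unfold crs
    simp only [Prod.fst_add, Prod.snd_add, Prod.smul_fst, Prod.smul_snd, smul_eq_mul]
    ring
  rw [e]
  have s1 : 0 < sin (z - x) := sin_pos_of_pos_of_lt_pi (by linarith) (by linarith)
  have s2 : 0 ≤ sin (w - x) := sin_nonneg_of_nonneg_of_le_pi (by linarith) (by linarith)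
  have s3 : 0 ≤ sin (z - y) := sin_nonneg_of_nonneg_of_le_pi (by linarith) (by linarith)
  have s4 : 0 < sin (w - y) := sin_pos_of_pos_of_lt_pi (by linarith) (by linarith)
  have t1 := mul_pos (mul_pos ha hc) s1
  have t2 := mul_nonneg (mul_pos ha hd).le s2
  have t3 := mul_nonneg (mul_pos hb hc).le s3
  have t4 := mul_pos (mul_pos hb hd) s4
  linarith

/-- All combinatorial properties of the increments `v i = q (th (i+1)) - q (th i)`. -/
theorem grid_incr (hq : QMap q) (M : ℕ) (th : ℤ → ℝ) (hmono : StrictMono th)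
    (hth : ∀ i, th (i + M) = hq.s (th i)) (v : ℤ → ℝ × ℝ)
    (hv : ∀ i, v i = q (th (i + 1)) - q (th i)) :
    (∀ i, th (i + 3 * M) = th i + π) ∧
    (∀ i, v (i + 3 * M) = -v i) ∧ (∀ i, v (i + M) = v i + v (i + 2 * M)) ∧
    (∀ i j, i < j → j < i + 3 * M → 0 < crs (v i) (v j)) := by
  have thM3 : ∀ i, th (i + 3 * M) = th i + π := by
    intro i
    rw [show i + 3 * (M : ℤ) = i + M + M + M by ring, hth, hth, hth, hq.s3]
  refine ⟨thM3, ?_, ?_, ?_⟩
  · intro i
    rw [hv, hv, show i + 3 * (M : ℤ) + 1 = i + 1 + 3 * M by ring, thM3, thM3, hq.pi, hq.pi]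
    abel
  · intro i
    rw [hv, hv, hv, show i + (M : ℤ) + 1 = i + 1 + M by ring,
      show i + 2 * (M : ℤ) + 1 = i + 1 + M + M by ring,
      show i + 2 * (M : ℤ) = i + M + M by ring, hth (i + 1 + M), hth (i + M), hth (i + 1), hth i,
      hq.chord (th (i + 1)), hq.chord (th i)]
    abel
  · intro i j hij hj
    rw [hv, hv]
    have h4 : th (j + 1) ≤ th i + π := by
      rw [← thM3]
      exact hmono.monotone (by omega)
    exact hq.incr_crs (hmono (by omega)) (hmono.monotone (by omega)) (hmono (by omega)) h4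

end QMap

end H27ZP
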