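import Mathlib

/-!
# Sign lemma for the median of three linear forms (Z+, Lemma 1)
-/

set_option autoImplicit false

namespace H27ZP

/-- at least two of the three numbers are nonnegative -/
def P2 (a b c : ℝ) : Prop := (0 ≤ a ∧ 0 ≤ b) ∨ (0 ≤ a ∧ 0 ≤ c) ∨ (0 ≤ b ∧ 0 ≤ c)

/-- at least two of the three numbers are nonpositive -/
def N2 (a b c : ℝ) : Prop := (a ≤ 0 ∧ b ≤ 0) ∨ (a ≤ 0 ∧ c ≤ 0) ∨ (b ≤ 0 ∧ c ≤ 0)

/-- `P2` on the cone spanned by two triples -/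
def SP (x1 x2 x3 z1 z2 z3 : ℝ) : Prop :=
  ∀ α β : ℝ, 0 ≤ α → 0 ≤ β → P2 (α * x1 + β * z1) (α * x2 + β * z2) (α * x3 + β * z3)

/-- `N2` on the cone spanned by two triples -/
def SN (x1 x2 x3 z1 z2 z3 : ℝ) : Prop :=
  ∀ α β : ℝ, 0 ≤ α → 0 ≤ β → N2 (α * x1 + β * z1) (α * x2 + β * z2) (α * x3 + β * z3)

/-- weakly opposite signs -/
def Opp (a b : ℝ) : Prop := (a ≤ 0 ∧ 0 ≤ b) ∨ (0 ≤ a ∧ b ≤ 0)

lemma opp_zero_left (b : ℝ) : Opp 0 b := by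
  rcases le_total 0 b with h | h
  · exact Or.inl ⟨le_refl _, h⟩
  · exact Or.inr ⟨le_refl _, h⟩

lemma opp_zero_right (a : ℝ) : Opp a 0 := by
  rcases le_total 0 a with h | h
  · exact Or.inr ⟨h, le_refl _⟩
  · exact Or.inl ⟨h, le_refl _⟩

lemma zero_of (a b c : ℝ) (hp : P2 a b c) (hn : N2 a b c) :
    (a = 0 ∧ Opp b c) ∨ (b = 0 ∧ Opp a c) ∨ (c = 0 ∧ Opp a b) := by
  unfold P2 N2 at *
  rcases hp with ⟨h1, h2⟩ | ⟨h1, h2⟩ | ⟨h1, h2⟩ <;> rcases hn with ⟨h3, h4⟩ | ⟨h3, h4⟩ | ⟨h3, h4⟩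
  · left
    have : a = 0 := le_antisymm h3 h1
    have hb : b = 0 := le_antisymm h4 h2
    subst hb; exact ⟨this, opp_zero_left c⟩
  · left
    exact ⟨le_antisymm h3 h1, Or.inr ⟨h2, h4⟩⟩
  · right; left
    exact ⟨le_antisymm h3 h2, Or.inr ⟨h1, h4⟩⟩
  · left
    exact ⟨le_antisymm h3 h1, Or.inl ⟨h4, h2⟩⟩
  · left
    have hc : c = 0 := le_antisymm h4 h2
    subst hc
    exact ⟨le_antisymm h3 h1, opp_zero_right b⟩
  · right; right
    exact ⟨le_antisymm h4 h2, Or.inr ⟨h1, h3⟩⟩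
  · right; left
    exact ⟨le_antisymm h4 h1, Or.inl ⟨h3, h2⟩⟩
  · right; right
    exact ⟨le_antisymm h4 h2, Or.inl ⟨h3, h1⟩⟩
  · right; left
    have hc : c = 0 := le_antisymm h4 h2
    subst hc
    exact ⟨le_antisymm h3 h1, opp_zero_right a⟩

/-- two planar vectors in opposite quadrants: one weak sign on the cone -/
lemma quad (u v s t : ℝ) (hu : 0 ≤ u) (hv : v ≤ 0) (hs : s ≤ 0) (ht : 0 ≤ t) :
    (∀ α β : ℝ, 0 ≤ α → 0 ≤ β → 0 ≤ α * u + β * s ∨ 0 ≤ α * v + β * t) ∨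
    (∀ α β : ℝ, 0 ≤ α → 0 ≤ β → α * u + β * s ≤ 0 ∨ α * v + β * t ≤ 0) := by
  rcases le_total (v * s) (u * t) with h | h
  · left
    intro α β hα hβ
    by_contra hc
    push Not at hc
    obtain ⟨h1, h2⟩ := hc
    -- α u < -β s,  β t < -α v
    have e1 : 0 ≤ α * u := mul_nonneg hα hu
    have e2 : 0 ≤ β * t := mul_nonneg hβ ht
    have e3 : α * u * (β * t) < (-(β * s)) * (-(α * v)) := by
      apply mul_lt_mul'' (by linarith) (by linarith) e1 e2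
    have e4 : α * β * (v * s) ≤ α * β * (u * t) := mul_le_mul_of_nonneg_left h (mul_nonneg hα hβ)
    nlinarith
  · right
    intro α β hα hβ
    by_contra hc
    push Not at hc
    obtain ⟨h1, h2⟩ := hc
    -- -β s < α u,  -α v < β t
    have e1 : 0 ≤ -(β * s) := by nlinarith
    have e2 : 0 ≤ -(α * v) := by nlinarith
    have e3 : (-(β * s)) * (-(α * v)) < α * u * (β * t) := by
      apply mul_lt_mul'' (by linarith) (by linarith) e1 e2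
    have e4 : α * β * (u * t) ≤ α * β * (v * s) := mul_le_mul_of_nonneg_left h (mul_nonneg hα hβ)
    nlinarith

/-- the planar version of `SP` (first coordinate zero) -/
def QP (a b c d : ℝ) : Prop := ∀ α β : ℝ, 0 ≤ α → 0 ≤ β → 0 ≤ α * a + β * c ∨ 0 ≤ α * b + β * d

/-- the planar version of `SN` -/
def QN (a b c d : ℝ) : Prop := ∀ α β : ℝ, 0 ≤ α → 0 ≤ β → α * a + β * c ≤ 0 ∨ α * b + β * d ≤ 0

lemma q_or (a b c d : ℝ) (h1 : Opp a b) (h2 : Opp c d) : QP a b c d ∨ QN a b c d := by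
  rcases h1 with ⟨p, q⟩ | ⟨p, q⟩ <;> rcases h2 with ⟨r, s⟩ | ⟨r, s⟩
  · left; intro α β hα hβ; right; positivity
  · rcases quad b a d c q p s r with h | h
    · left; intro α β hα hβ; exact (h α β hα hβ).symm
    · right; intro α β hα hβ; exact (h α β hα hβ).symm
  · exact quad a b c d p q r s
  · left; intro α β hα hβ; left; positivity

lemma q_both1 (a b c d : ℝ) (ha : a ≤ 0) (hb : 0 ≤ b) (hc : c ≤ 0) (hd : 0 ≤ d) :
    QP a b c d ∧ QN a b c d := by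
  refine ⟨fun α β hα hβ => Or.inr (by positivity), fun α β hα hβ => Or.inl ?_⟩
  nlinarith [mul_nonneg hα (neg_nonneg.2 ha), mul_nonneg hβ (neg_nonneg.2 hc)]

lemma q_both2 (a b c d : ℝ) (ha : 0 ≤ a) (hb : b ≤ 0) (hc : 0 ≤ c) (hd : d ≤ 0) :
    QP a b c d ∧ QN a b c d := by
  refine ⟨fun α β hα hβ => Or.inl (by positivity), fun α β hα hβ => Or.inr ?_⟩
  nlinarith [mul_nonneg hα (neg_nonneg.2 hb), mul_nonneg hβ (neg_nonneg.2 hd)]

/-- degenerate case of the sign lemma -/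
lemma deg (a b c d : ℝ) (hx : Opp a b) (hy : Opp c d) (hz : Opp (a + c) (b + d)) :
    (QP a b (a + c) (b + d) ∧ QN (a + c) (b + d) c d ∧ QP c d (-a) (-b)) ∨
    (QN a b (a + c) (b + d) ∧ QP (a + c) (b + d) c d ∧ QN c d (-a) (-b)) := by
  have hx' : Opp (-a) (-b) := by
    rcases hx with ⟨p, q⟩ | ⟨p, q⟩
    · exact Or.inr ⟨by linarith, by linarith⟩
    · exact Or.inl ⟨by linarith, by linarith⟩
  have q0 := q_or a b (a + c) (b + d) hx hz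
  have q1 := q_or (a + c) (b + d) c d hz hy
  have q2 := q_or c d (-a) (-b) hy hx'
  rcases hx with ⟨xa, xb⟩ | ⟨xa, xb⟩ <;> rcases hy with ⟨yc, yd⟩ | ⟨yc, yd⟩
  · have z1 : a + c ≤ 0 := by linarith
    have z2 : 0 ≤ b + d := by linarith
    obtain ⟨h1, h2⟩ := q_both1 a b _ _ xa xb z1 z2
    obtain ⟨h3, h4⟩ := q_both1 _ _ c d z1 z2 yc yd
    rcases q2 with h | h
    · exact Or.inl ⟨h1, h4, h⟩
    · exact Or.inr ⟨h2, h3, h⟩
  · obtain ⟨h1, h2⟩ := q_both2 c d (-a) (-b) yc yd (by linarith) (by linarith)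
    rcases hz with ⟨z1, z2⟩ | ⟨z1, z2⟩
    · obtain ⟨h3, h4⟩ := q_both1 a b _ _ xa xb z1 z2
      rcases q1 with h | h
      · exact Or.inr ⟨h4, h, h2⟩
      · exact Or.inl ⟨h3, h, h1⟩
    · obtain ⟨h3, h4⟩ := q_both2 _ _ c d z1 z2 yc yd
      rcases q0 with h | h
      · exact Or.inl ⟨h, h4, h1⟩
      · exact Or.inr ⟨h, h3, h2⟩
  · obtain ⟨h1, h2⟩ := q_both1 c d (-a) (-b) yc yd (by linarith) (by linarith)
    rcases hz with ⟨z1, z2⟩ | ⟨z1, z2⟩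
    · obtain ⟨h3, h4⟩ := q_both1 _ _ c d z1 z2 yc yd
      rcases q0 with h | h
      · exact Or.inl ⟨h, h4, h1⟩
      · exact Or.inr ⟨h, h3, h2⟩
    · obtain ⟨h3, h4⟩ := q_both2 a b _ _ xa xb z1 z2
      rcases q1 with h | h
      · exact Or.inr ⟨h4, h, h2⟩
      · exact Or.inl ⟨h3, h, h1⟩
  · have z1 : 0 ≤ a + c := by linarith
    have z2 : b + d ≤ 0 := by linarith
    obtain ⟨h1, h2⟩ := q_both2 a b _ _ xa xb z1 z2
    obtain ⟨h3, h4⟩ := q_both2 _ _ c d z1 z2 yc yd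
    rcases q2 with h | h
    · exact Or.inl ⟨h1, h4, h⟩
    · exact Or.inr ⟨h2, h3, h⟩

/-! generic cone facts -/
lemma sp12 {x1 x2 x3 z1 z2 z3 : ℝ} (a : 0 ≤ x1) (b : 0 ≤ z1) (c : 0 ≤ x2) (d : 0 ≤ z2) :
    SP x1 x2 x3 z1 z2 z3 := fun α β hα hβ => Or.inl ⟨by positivity, by positivity⟩
lemma sp13 {x1 x2 x3 z1 z2 z3 : ℝ} (a : 0 ≤ x1) (b : 0 ≤ z1) (c : 0 ≤ x3) (d : 0 ≤ z3) :
    SP x1 x2 x3 z1 z2 z3 := fun α β hα hβ => Or.inr (Or.inl ⟨by positivity, by positivity⟩)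
lemma sp23 {x1 x2 x3 z1 z2 z3 : ℝ} (a : 0 ≤ x2) (b : 0 ≤ z2) (c : 0 ≤ x3) (d : 0 ≤ z3) :
    SP x1 x2 x3 z1 z2 z3 := fun α β hα hβ => Or.inr (Or.inr ⟨by positivity, by positivity⟩)

lemma comb_nonpos {α β a b : ℝ} (hα : 0 ≤ α) (hβ : 0 ≤ β) (ha : a ≤ 0) (hb : b ≤ 0) :
    α * a + β * b ≤ 0 := by
  have h1 := mul_nonneg hα (neg_nonneg.2 ha)
  have h2 := mul_nonneg hβ (neg_nonneg.2 hb)
  nlinarith

lemma sn12 {x1 x2 x3 z1 z2 z3 : ℝ} (a : x1 ≤ 0) (b : z1 ≤ 0) (c : x2 ≤ 0) (d : z2 ≤ 0) :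
    SN x1 x2 x3 z1 z2 z3 :=
  fun _ _ hα hβ => Or.inl ⟨comb_nonpos hα hβ a b, comb_nonpos hα hβ c d⟩
lemma sn13 {x1 x2 x3 z1 z2 z3 : ℝ} (a : x1 ≤ 0) (b : z1 ≤ 0) (c : x3 ≤ 0) (d : z3 ≤ 0) :
    SN x1 x2 x3 z1 z2 z3 :=
  fun _ _ hα hβ => Or.inr (Or.inl ⟨comb_nonpos hα hβ a b, comb_nonpos hα hβ c d⟩)
lemma sn23 {x1 x2 x3 z1 z2 z3 : ℝ} (a : x2 ≤ 0) (b : z2 ≤ 0) (c : x3 ≤ 0) (d : z3 ≤ 0) :
    SN x1 x2 x3 z1 z2 z3 :=
  fun _ _ hα hβ => Or.inr (Or.inr ⟨comb_nonpos hα hβ a b, comb_nonpos hα hβ c d⟩)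

/-- The conclusion of the sign lemma. -/
def Alt (x1 x2 x3 y1 y2 y3 : ℝ) : Prop :=
  (SP x1 x2 x3 (x1 + y1) (x2 + y2) (x3 + y3) ∧ SN (x1 + y1) (x2 + y2) (x3 + y3) y1 y2 y3 ∧
      SP y1 y2 y3 (-x1) (-x2) (-x3)) ∨
  (SN x1 x2 x3 (x1 + y1) (x2 + y2) (x3 + y3) ∧ SP (x1 + y1) (x2 + y2) (x3 + y3) y1 y2 y3 ∧
      SN y1 y2 y3 (-x1) (-x2) (-x3))

lemma p2_perm12 {a b c : ℝ} (h : P2 a b c) : P2 b a c := by
  unfold P2 at *; tauto
lemma n2_perm12 {a b c : ℝ} (h : N2 a b c) : N2 b a c := by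
  unfold N2 at *; tauto
lemma p2_perm23 {a b c : ℝ} (h : P2 a b c) : P2 a c b := by
  unfold P2 at *; tauto
lemma n2_perm23 {a b c : ℝ} (h : N2 a b c) : N2 a c b := by
  unfold N2 at *; tauto

lemma alt_perm12 {x1 x2 x3 y1 y2 y3 : ℝ} (h : Alt x1 x2 x3 y1 y2 y3) : Alt x2 x1 x3 y2 y1 y3 := by
  rcases h with ⟨h1, h2, h3⟩ | ⟨h1, h2, h3⟩
  · exact Or.inl ⟨fun α β a b => p2_perm12 (h1 α β a b), fun α β a b => n2_perm12 (h2 α β a b),
      fun α β a b => p2_perm12 (h3 α β a b)⟩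
  · exact Or.inr ⟨fun α β a b => n2_perm12 (h1 α β a b), fun α β a b => p2_perm12 (h2 α β a b),
      fun α β a b => n2_perm12 (h3 α β a b)⟩

lemma alt_perm23 {x1 x2 x3 y1 y2 y3 : ℝ} (h : Alt x1 x2 x3 y1 y2 y3) : Alt x1 x3 x2 y1 y3 y2 := by
  rcases h with ⟨h1, h2, h3⟩ | ⟨h1, h2, h3⟩
  · exact Or.inl ⟨fun α β a b => p2_perm23 (h1 α β a b), fun α β a b => n2_perm23 (h2 α β a b),
      fun α β a b => p2_perm23 (h3 α β a b)⟩
  · exact Or.inr ⟨fun α β a b => n2_perm23 (h1 α β a b), fun α β a b => p2_perm23 (h2 α β a b),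
      fun α β a b => n2_perm23 (h3 α β a b)⟩

/-- the degenerate case: the first form vanishes at both vectors -/
lemma alt_deg (a b c d : ℝ) (hx : Opp a b) (hy : Opp c d) (hz : Opp (a + c) (b + d)) :
    Alt 0 a b 0 c d := by
  have p : ∀ u v s t : ℝ, QP u v s t → SP 0 u v 0 s t := by
    intro u v s t h α β hα hβ
    rcases h α β hα hβ with h | h
    · left; exact ⟨by simp, h⟩
    · right; left; exact ⟨by simp, h⟩
  have n : ∀ u v s t : ℝ, QN u v s t → SN 0 u v 0 s t := by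
    intro u v s t h α β hα hβ
    rcases h α β hα hβ with h | h
    · left; exact ⟨by simp, h⟩
    · right; left; exact ⟨by simp, h⟩
  unfold Alt
  rw [add_zero, neg_zero]
  rcases deg a b c d hx hy hz with ⟨h1, h2, h3⟩ | ⟨h1, h2, h3⟩
  · exact Or.inl ⟨p _ _ _ _ h1, n _ _ _ _ h2, p _ _ _ _ h3⟩
  · exact Or.inr ⟨n _ _ _ _ h1, p _ _ _ _ h2, n _ _ _ _ h3⟩

/-- the generic case: the first form vanishes at `x`, the second at `x + y`, the third at `y` -/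
lemma alt_gen (p q r : ℝ) (h1 : Opp p q) (h2 : Opp r (-p)) (h3 : Opp r q) :
    Alt 0 p q r (-p) 0 := by
  unfold Alt
  rw [zero_add, add_neg_cancel, add_zero, neg_zero]
  by_cases hp : p = 0
  · subst hp
    rcases h3 with ⟨a, b⟩ | ⟨a, b⟩
    · right
      refine ⟨sn12 le_rfl a le_rfl le_rfl, sp23 le_rfl (by simp) b le_rfl,
        sn13 a le_rfl le_rfl (by linarith)⟩
    · left
      refine ⟨sp12 le_rfl a le_rfl le_rfl, sn23 le_rfl (by simp) b le_rfl,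
        sp13 a le_rfl le_rfl (by linarith)⟩
  · rcases lt_or_gt_of_ne hp with hp | hp
    · have q0 : 0 ≤ q := by
        rcases h1 with ⟨_, h⟩ | ⟨h, _⟩
        · exact h
        · linarith
      have r0 : r ≤ 0 := by
        rcases h2 with ⟨h, _⟩ | ⟨_, h⟩
        · exact h
        · linarith
      right
      refine ⟨sn12 le_rfl r0 hp.le le_rfl, sp23 le_rfl (by linarith) q0 le_rfl,
        sn13 r0 le_rfl le_rfl (by linarith)⟩
    · have q0 : q ≤ 0 := by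
        rcases h1 with ⟨h, _⟩ | ⟨_, h⟩
        · linarith
        · exact h
      have r0 : 0 ≤ r := by
        rcases h2 with ⟨_, h⟩ | ⟨h, _⟩
        · linarith
        · exact h
      left
      refine ⟨sp12 le_rfl r0 hp.le le_rfl, sn23 le_rfl (by linarith) q0 le_rfl,
        sp13 r0 le_rfl le_rfl (by linarith)⟩

lemma opp_symm {a b : ℝ} (h : Opp a b) : Opp b a := by
  rcases h with ⟨a, b⟩ | ⟨a, b⟩
  · exact Or.inr ⟨b, a⟩
  · exact Or.inl ⟨b, a⟩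

/-- the degenerate case, general form -/
lemma alt_deg' (x1 x2 x3 y1 y2 y3 : ℝ) (hx1 : x1 = 0) (hy1 : y1 = 0)
    (hx : Opp x2 x3) (hy : Opp y2 y3) (hz : Opp (x2 + y2) (x3 + y3)) :
    Alt x1 x2 x3 y1 y2 y3 := by
  subst hx1; subst hy1; exact alt_deg x2 x3 y2 y3 hx hy hz

/-- the generic case, general form -/
lemma alt_gen' (x1 x2 x3 y1 y2 y3 : ℝ) (hx : x1 = 0) (hz : x2 + y2 = 0) (hy : y3 = 0)
    (h1 : Opp x2 x3) (h2 : Opp y1 y2) (h3 : Opp (x1 + y1) (x3 + y3)) :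
    Alt x1 x2 x3 y1 y2 y3 := by
  subst hx; subst hy
  have : y2 = -x2 := by linarith
  subst this
  rw [zero_add, add_zero] at h3
  exact alt_gen x2 x3 y1 h1 h2 h3

/-- The generic case with the roles of the second and the third form exchanged. -/
lemma alt_gen'' (x1 x2 x3 y1 y2 y3 : ℝ) (hx : x1 = 0) (hz : x3 + y3 = 0) (hy : y2 = 0)
    (h1 : Opp x2 x3) (h2 : Opp y1 y3) (h3 : Opp (x1 + y1) (x2 + y2)) :
    Alt x1 x2 x3 y1 y2 y3 :=
  alt_perm23 (alt_gen' x1 x3 x2 y1 y3 y2 hx hz hy (opp_symm h1) h2 h3)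

/-- if the first form vanishes at `x`: all cases -/
lemma alt_first (x1 x2 x3 y1 y2 y3 : ℝ) (hx : x1 = 0) (ox : Opp x2 x3)
    (hy : (y1 = 0 ∧ Opp y2 y3) ∨ (y2 = 0 ∧ Opp y1 y3) ∨ (y3 = 0 ∧ Opp y1 y2))
    (hz : (x1 + y1 = 0 ∧ Opp (x2 + y2) (x3 + y3)) ∨ (x2 + y2 = 0 ∧ Opp (x1 + y1) (x3 + y3)) ∨
      (x3 + y3 = 0 ∧ Opp (x1 + y1) (x2 + y2))) :
    Alt x1 x2 x3 y1 y2 y3 := by
  subst hx
  rcases hy with ⟨ha, hb⟩ | ⟨ha, hb⟩ | ⟨ha, hb⟩
  · subst ha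
    rcases hz with ⟨hc, hd⟩ | ⟨hc, hd⟩ | ⟨hc, hd⟩
    · exact alt_deg' _ _ _ _ _ _ rfl rfl ox hb hd
    · exact alt_deg' _ _ _ _ _ _ rfl rfl ox hb (by rw [hc]; exact opp_zero_left _)
    · exact alt_deg' _ _ _ _ _ _ rfl rfl ox hb (by rw [hc]; exact opp_zero_right _)
  · subst ha
    rcases hz with ⟨hc, hd⟩ | ⟨hc, hd⟩ | ⟨hc, hd⟩
    · have : y1 = 0 := by linarith
      subst this
      exact alt_deg' _ _ _ _ _ _ rfl rfl ox (opp_zero_left _) hd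
    · -- x2 = 0
      have h2 : x2 = 0 := by linarith
      subst h2
      apply alt_perm12
      apply alt_deg' _ _ _ _ _ _ rfl rfl (opp_zero_left _) hb
      exact hd
    · exact alt_gen'' _ _ _ _ _ _ rfl hc rfl ox hb hd
  · subst ha
    rcases hz with ⟨hc, hd⟩ | ⟨hc, hd⟩ | ⟨hc, hd⟩
    · have : y1 = 0 := by linarith
      subst this
      exact alt_deg' _ _ _ _ _ _ rfl rfl ox (opp_zero_right _) hd
    · exact alt_gen' _ _ _ _ _ _ rfl hc rfl ox hb hd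
    · have h3 : x3 = 0 := by linarith
      subst h3
      apply alt_perm23
      apply alt_perm12
      apply alt_deg' _ _ _ _ _ _ rfl rfl (opp_zero_left _) hb
      exact hd

/-- SIGN LEMMA: if the median of three linear forms vanishes at `x`, `y` and `x + y`, it has
alternating weak signs on the three cones `[x, x+y]`, `[x+y, y]`, `[y, -x]`. -/
theorem sign_lemma (x1 x2 x3 y1 y2 y3 : ℝ) (px : P2 x1 x2 x3) (nx : N2 x1 x2 x3)
    (py : P2 y1 y2 y3) (ny : N2 y1 y2 y3)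
    (pz : P2 (x1 + y1) (x2 + y2) (x3 + y3)) (nz : N2 (x1 + y1) (x2 + y2) (x3 + y3)) :
    Alt x1 x2 x3 y1 y2 y3 := by
  have hx := zero_of _ _ _ px nx
  have hy := zero_of _ _ _ py ny
  have hz := zero_of _ _ _ pz nz
  rcases hx with ⟨h, o⟩ | ⟨h, o⟩ | ⟨h, o⟩
  · exact alt_first _ _ _ _ _ _ h o hy hz
  · apply alt_perm12
    apply alt_first _ _ _ _ _ _ h o
    · exact zero_of _ _ _ (p2_perm12 py) (n2_perm12 ny)
    · exact zero_of _ _ _ (p2_perm12 pz) (n2_perm12 nz)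
  · apply alt_perm23
    apply alt_perm12
    apply alt_first _ _ _ _ _ _ h o
    · exact zero_of _ _ _ (p2_perm12 (p2_perm23 py)) (n2_perm12 (n2_perm23 ny))
    · exact zero_of _ _ _ (p2_perm12 (p2_perm23 pz)) (n2_perm12 (n2_perm23 nz))

end H27ZP
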