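import Pool.Agent.H27.ZP.Approx
import Pool.Agent.H27.ZP.Inc

/-!
# Comparison of anisotropic perimeters
-/

set_option autoImplicit false

open Finset Real

namespace H27ZP

lemma dt_sub_left (a b w : ℝ × ℝ) : dt (a - b) w = dt a w - dt b w := by
  unfold dt; simp; ring

lemma dt_comm (a b : ℝ × ℝ) : dt a b = dt b a := by
  unfold dt; ring

lemma nsq_sub_le (a b : ℝ × ℝ) : nsq (a - b) ≤ 2 * nsq a + 2 * nsq b := by
  unfold nsq; simp only [Prod.fst_sub, Prod.snd_sub]
  nlinarith [sq_nonneg (a.1 + b.1), sq_nonneg (a.2 + b.2)]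

lemma nsq_tau_sub (x y : ℝ) : nsq (tau x - tau y) ≤ (y - x) ^ 2 := by
  have h : nsq (tau x - tau y) = 2 - 2 * cos (y - x) := by
    unfold nsq tau
    simp only [Prod.fst_sub, Prod.snd_sub]
    rw [cos_sub]
    have h1 := sin_sq_add_cos_sq x
    have h2 := sin_sq_add_cos_sq y
    linear_combination h1 + h2
  rw [h]
  have := one_sub_sq_div_two_le_cos (x := y - x)
  linarith

/-- Abel summation for periodic sequences -/
lemma abel_periodic (N : ℕ) (c z : ℤ → ℝ × ℝ) (hc : ∀ i, c (i + N) = c i)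
    (hz : ∀ i, z (i + N) = z i) :
    ∑ j ∈ range N, dt (c j) (z (j + 1) - z j) = ∑ j ∈ range N, dt (c (j - 1) - c j) (z j) := by
  have h := sum_window (fun i => dt (c (i - 1)) (z i)) N (by
    intro i
    show dt (c (i + N - 1)) (z (i + N)) = dt (c (i - 1)) (z i)
    rw [hz, show i + (N : ℤ) - 1 = i - 1 + N by ring, hc]) 1
  simp only [dt_sub, dt_sub_left, Finset.sum_sub_distrib]
  congr 1
  rw [← h]
  apply Finset.sum_congr rfl
  intro r _
  rw [show (1 : ℤ) + r - 1 = r by ring, show (1 : ℤ) + (r : ℤ) = r + 1 by ring]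

/-- one cell -/
lemma cell (Mf : ℝ × ℝ → ℝ) (R : ℝ) (hR : 0 ≤ R)
    (hM : ∀ v, ∃ c, dt c v = Mf v ∧ (∀ w, dt c w ≤ Mf w) ∧ nsq c ≤ R ^ 2)
    (α β δ : ℝ) (h1 : α < β) (h2 : β - α ≤ δ) (h3 : δ ≤ π / 3) (a b a' b' : ℝ) (ha : 0 ≤ a)
    (hb : 0 ≤ b) (ha' : 0 ≤ a') (hb' : 0 ≤ b') (hab : 0 < a' + b') (v w c : ℝ × ℝ)
    (hw : w = a • tau α + b • tau β) (hv : v = a' • tau α + b' • tau β)
    (hcv : dt c v = Mf v) (hcR : nsq c ≤ R ^ 2) :
    Mf w ≤ dt c w + 4 * R * δ * dt (tau α) w := by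
  obtain ⟨c', hc1, hc2, hc3⟩ := hM w
  set lam := (a + b) / (a' + b') with hlam
  have hlam0 : 0 ≤ lam := div_nonneg (by linarith) hab.le
  have hlamm : lam * (a' + b') = a + b := div_mul_cancel₀ _ hab.ne'
  set κ := a - lam * a' with hκ
  have hwv : w = lam • v + κ • (tau α - tau β) := by
    have hk : κ = -(b - lam * b') := by rw [hκ]; linarith
    have e1 : κ • (tau α - tau β) = κ • tau α - κ • tau β := by module
    rw [e1]
    nth_rewrite 2 [hk]
    rw [hκ, hw, hv]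
    module
  have hκ1 : |κ| ≤ a + b := by
    rw [abs_le]
    constructor
    · have : κ = -(b - lam * b') := by rw [hκ]; linarith
      rw [this]
      have := mul_nonneg hlam0 hb'
      linarith
    · have := mul_nonneg hlam0 ha'
      rw [hκ]; linarith
  have hd0 : 0 ≤ δ := by linarith
  have hcc : nsq (c' - c) ≤ (2 * R) ^ 2 := by
    have := nsq_sub_le c' c
    nlinarith
  have hcc2 : nsq (c - c') ≤ (2 * R) ^ 2 := by
    have := nsq_sub_le c c'
    nlinarith
  have htt : nsq (tau α - tau β) ≤ δ ^ 2 := by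
    have := nsq_tau_sub α β
    have h5 : (β - α) ^ 2 ≤ δ ^ 2 := by
      apply pow_le_pow_left₀ (by linarith) h2
    linarith
  have b1 : dt (c' - c) (tau α - tau β) ≤ 2 * R * δ :=
    dt_le_of _ _ _ _ (by positivity) hd0 hcc htt
  have b2 : dt (c - c') (tau α - tau β) ≤ 2 * R * δ :=
    dt_le_of _ _ _ _ (by positivity) hd0 hcc2 htt
  have b3 : |dt (c' - c) (tau α - tau β)| ≤ 2 * R * δ := by
    rw [abs_le]
    refine ⟨?_, b1⟩
    have : dt (c - c') (tau α - tau β) = - dt (c' - c) (tau α - tau β) := by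
      simp only [dt_sub_left]; ring
    linarith
  have b4 : κ * dt (c' - c) (tau α - tau β) ≤ (a + b) * (2 * R * δ) := by
    calc κ * dt (c' - c) (tau α - tau β) ≤ |κ * dt (c' - c) (tau α - tau β)| := le_abs_self _
      _ = |κ| * |dt (c' - c) (tau α - tau β)| := abs_mul _ _
      _ ≤ (a + b) * (2 * R * δ) := mul_le_mul hκ1 b3 (abs_nonneg _) (by linarith)
  have b5 : dt (c' - c) v ≤ 0 := by
    rw [dt_sub_left, hcv]
    have := hc2 v
    linarith
  have b6 : dt (c' - c) w ≤ (a + b) * (2 * R * δ) := by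
    rw [hwv, dt_add, dt_smul, dt_smul]
    have := mul_nonpos_of_nonneg_of_nonpos hlam0 b5
    linarith
  have b7 : (a + b) / 2 ≤ dt (tau α) w := by
    have e : dt (tau α) w = a + b * cos (β - α) := by
      rw [hw, dt_add, dt_smul, dt_smul]
      have e1 : dt (tau α) (tau α) = 1 := by
        unfold dt tau; simp only; nlinarith [sin_sq_add_cos_sq α]
      have e2 : dt (tau α) (tau β) = cos (β - α) := by
        unfold dt tau; simp only [cos_sub]; ring
      rw [e1, e2, mul_one]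
    have hcos : 1 / 2 ≤ cos (β - α) := by
      rw [← cos_pi_div_three]
      apply cos_le_cos_of_nonneg_of_le_pi (by linarith) (by linarith [pi_pos]) (by linarith)
    rw [e]
    have := mul_le_mul_of_nonneg_left hcos hb
    linarith
  have b8 : (a + b) * (2 * R * δ) ≤ 4 * R * δ * dt (tau α) w := by
    have : 0 ≤ 4 * R * δ := by positivity
    have h6 := mul_le_mul_of_nonneg_left b7 this
    calc (a + b) * (2 * R * δ) = 4 * R * δ * ((a + b) / 2) := by ring
      _ ≤ _ := h6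
  rw [dt_sub_left, hc1] at b6
  linarith

/-- the total tangential length -/
lemma tangential (N : ℕ) (th : ℤ → ℝ) (hmono : StrictMono th) (hN : ∀ i, th (i + N) = th i + 2 * π)
    (x : ℤ → ℝ × ℝ) (hx : ∀ i, x (i + N) = x i) (ρ : ℝ) (hρ : 0 ≤ ρ)
    (hxρ : ∀ i, nsq (x i) ≤ ρ ^ 2) :
    ∑ j ∈ range N, dt (tau (th j)) (x (j + 1) - x j) ≤ 2 * π * ρ := by
  have htau : ∀ i, tau (th (i + N)) = tau (th i) := by
    intro i
    rw [hN]; unfold tau; simp
  rw [abel_periodic N (fun i => tau (th i)) x htau hx]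
  have h1 : ∀ j ∈ range N, dt (tau (th ((j : ℤ) - 1)) - tau (th j)) (x j) ≤
      (th j - th ((j : ℤ) - 1)) * ρ := by
    intro j _
    apply dt_le_of _ _ _ _ _ hρ _ (hxρ j)
    · have := hmono (show (j : ℤ) - 1 < j by omega)
      linarith
    · exact nsq_tau_sub _ _
  refine le_trans (Finset.sum_le_sum h1) ?_
  rw [← Finset.sum_mul]
  have tel : ∀ n : ℕ, ∑ j ∈ range n, (th j - th ((j : ℤ) - 1)) = th ((n : ℤ) - 1) - th (-1) := by
    intro n
    induction n with
    | zero => simp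
    | succ n ih =>
      rw [Finset.sum_range_succ, ih]
      push_cast
      rw [show (n : ℤ) + 1 - 1 = n by ring]
      ring
  rw [tel, show (N : ℤ) - 1 = -1 + N by ring, hN]
  have : th (-1) + 2 * π - th (-1) = 2 * π := by ring
  rw [this]

/-- PERIMETER COMPARISON. `x`, `y` are support points (at the grid normals) of two sets whose sum
is inside the polygon with the vertices `qq j`; `Mf` is sublinear with subgradients of length
`≤ R`. -/
theorem perim (N : ℕ) (th : ℤ → ℝ) (hmono : StrictMono th) (hN : ∀ i, th (i + N) = th i + 2 * π)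
    (δ : ℝ) (hδ : ∀ i, th (i + 1) - th i ≤ δ) (hδ3 : δ ≤ π / 3)
    (Mf : ℝ × ℝ → ℝ) (R : ℝ) (hR : 0 ≤ R)
    (hM : ∀ v, ∃ c, dt c v = Mf v ∧ (∀ w, dt c w ≤ Mf w) ∧ nsq c ≤ R ^ 2)
    (x y qq : ℤ → ℝ × ℝ) (hx : ∀ i, x (i + N) = x i) (hy : ∀ i, y (i + N) = y i)
    (hq : ∀ i, qq (i + N) = qq i) (ρ : ℝ) (hρ : 0 ≤ ρ) (hxρ : ∀ i, nsq (x i) ≤ ρ ^ 2)
    (hyρ : ∀ i, nsq (y i) ≤ ρ ^ 2)
    (hx1 : ∀ i, dt (uu (th i)) (x (i + 1) - x i) ≤ 0)
    (hx2 : ∀ i, 0 ≤ dt (uu (th (i + 1))) (x (i + 1) - x i))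
    (hy1 : ∀ i, dt (uu (th i)) (y (i + 1) - y i) ≤ 0)
    (hy2 : ∀ i, 0 ≤ dt (uu (th (i + 1))) (y (i + 1) - y i))
    (hq1 : ∀ i, dt (uu (th i)) (qq (i + 1) - qq i) ≤ 0)
    (hq2 : ∀ i, 0 ≤ dt (uu (th (i + 1))) (qq (i + 1) - qq i))
    (hcr : ∀ i, 0 < crs (qq (i + 1) - qq i) (qq (i + 2) - qq (i + 1)))
    (hm1 : ∀ j, dt (uu (th (j - 1))) (x j + y j) ≤ dt (uu (th (j - 1))) (qq j))
    (hm2 : ∀ j, dt (uu (th j)) (x j + y j) ≤ dt (uu (th j)) (qq j))
    (hm3 : ∀ j, dt (uu (th (j + 1))) (x j + y j) ≤ dt (uu (th (j + 1))) (qq j)) :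
    ∑ j ∈ range N, Mf (x (j + 1) - x j) + ∑ j ∈ range N, Mf (y (j + 1) - y j) ≤
      ∑ j ∈ range N, Mf (qq (j + 1) - qq j) + 16 * π * R * ρ * δ := by
  choose cf hcf1 hcf2 hcf3 using hM
  set c : ℤ → ℝ × ℝ := fun j => cf (qq (j + 1) - qq j) with hc
  have hcN : ∀ i, c (i + N) = c i := by
    intro i
    show cf (qq (i + N + 1) - qq (i + N)) = cf (qq (i + 1) - qq i)
    rw [show i + (N : ℤ) + 1 = i + 1 + N by ring, hq, hq]
  have hgap : ∀ i, th i < th (i + 1) := fun i => hmono (by omega)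
  have hδ0 : 0 ≤ δ := by linarith [hδ 0, hgap 0]
  have cone : ∀ (i : ℤ) (w : ℝ × ℝ), dt (uu (th i)) w ≤ 0 → 0 ≤ dt (uu (th (i + 1))) w →
      ∃ a b : ℝ, 0 ≤ a ∧ 0 ≤ b ∧ w = a • tau (th i) + b • tau (th (i + 1)) := by
    intro i w h1 h2
    have h3 : th (i + 1) < th i + π := by
      have := hδ i
      have h5 : δ < π := by linarith [pi_pos]
      linarith
    obtain ⟨a, b, ha, hb, e⟩ := inCone_tau (th i) (th (i + 1)) 1 1 one_pos one_pos (hgap i) h3 w h1 h2
    exact ⟨a, b, ha, hb, by rw [e, one_smul, one_smul]⟩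
  have hvne : ∀ i, qq (i + 1) - qq i ≠ 0 := by
    intro i h
    have := hcr i
    rw [h] at this
    unfold crs at this
    simp at this
  -- each cell
  have hcell : ∀ (i : ℤ) (w : ℝ × ℝ), dt (uu (th i)) w ≤ 0 → 0 ≤ dt (uu (th (i + 1))) w →
      Mf w ≤ dt (c i) w + 4 * R * δ * dt (tau (th i)) w := by
    intro i w h1 h2
    obtain ⟨a, b, ha, hb, e⟩ := cone i w h1 h2
    obtain ⟨a', b', ha', hb', e'⟩ := cone i _ (hq1 i) (hq2 i)
    have hab : 0 < a' + b' := by
      rcases eq_or_lt_of_le (by linarith : 0 ≤ a' + b') with h | h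
      · exfalso
        have h5 : a' = 0 := by linarith
        have h6 : b' = 0 := by linarith
        rw [h5, h6, zero_smul, zero_smul, add_zero] at e'
        exact hvne i e'
      · exact h
    exact cell Mf R hR (fun v => ⟨cf v, hcf1 v, hcf2 v, hcf3 v⟩) (th i) (th (i + 1)) δ (hgap i)
      (hδ i) hδ3 a b a' b' ha hb ha' hb' hab _ w (c i) e e' (hcf1 _) (hcf3 _)
  have sx : ∑ j ∈ range N, Mf (x (j + 1) - x j) ≤
      ∑ j ∈ range N, dt (c j) (x (j + 1) - x j) + 4 * R * δ * (2 * π * ρ) := by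
    have h1 := Finset.sum_le_sum (fun (j : ℕ) (_ : j ∈ range N) => hcell j _ (hx1 j) (hx2 j))
    rw [Finset.sum_add_distrib, ← Finset.mul_sum] at h1
    have h2 := tangential N th hmono hN x hx ρ hρ hxρ
    have h3 := mul_le_mul_of_nonneg_left h2 (by positivity : 0 ≤ 4 * R * δ)
    linarith
  have sy : ∑ j ∈ range N, Mf (y (j + 1) - y j) ≤
      ∑ j ∈ range N, dt (c j) (y (j + 1) - y j) + 4 * R * δ * (2 * π * ρ) := by
    have h1 := Finset.sum_le_sum (fun (j : ℕ) (_ : j ∈ range N) => hcell j _ (hy1 j) (hy2 j))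
    rw [Finset.sum_add_distrib, ← Finset.mul_sum] at h1
    have h2 := tangential N th hmono hN y hy ρ hρ hyρ
    have h3 := mul_le_mul_of_nonneg_left h2 (by positivity : 0 ≤ 4 * R * δ)
    linarith
  have sz : ∑ j ∈ range N, dt (c j) (x (j + 1) - x j) + ∑ j ∈ range N, dt (c j) (y (j + 1) - y j) ≤
      ∑ j ∈ range N, Mf (qq (j + 1) - qq j) := by
    have e1 : ∑ j ∈ range N, dt (c j) (x (j + 1) - x j) +
        ∑ j ∈ range N, dt (c j) (y (j + 1) - y j) =
        ∑ j ∈ range N, dt (c j) ((x (j + 1) + y (j + 1)) - (x j + y j)) := by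
      rw [← Finset.sum_add_distrib]
      apply Finset.sum_congr rfl
      intro j _
      rw [← dt_add]
      congr 1
      abel
    have e2 : ∑ j ∈ range N, Mf (qq (j + 1) - qq j) =
        ∑ j ∈ range N, dt (c j) (qq (j + 1) - qq j) :=
      Finset.sum_congr rfl (fun j _ => (hcf1 _).symm)
    rw [e1, e2, abel_periodic N c (fun i => x i + y i) hcN (by intro i; simp only [hx, hy]),
      abel_periodic N c qq hcN hq]
    apply Finset.sum_le_sum
    intro jn _
    set j : ℤ := (jn : ℤ) with hj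
    -- the two normals
    set v0 := qq j - qq (j - 1) with hv0
    set v1 := qq (j + 1) - qq j with hv1
    have hcr' : 0 < crs v0 v1 := by
      have := hcr (j - 1)
      rw [show j - 1 + 1 = j by ring, show j - 1 + 2 = j + 1 by ring] at this
      exact this
    have cj : c j = cf v1 := rfl
    have cj' : c (j - 1) = cf v0 := by
      show cf (qq (j - 1 + 1) - qq (j - 1)) = cf v0
      rw [show j - 1 + 1 = j by ring]
    set d := c (j - 1) - c j with hd
    have d0 : 0 ≤ dt d v0 := by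
      rw [hd, dt_sub_left, cj', cj, hcf1]
      have := hcf2 v1 v0
      linarith
    have d1 : dt d v1 ≤ 0 := by
      rw [hd, dt_sub_left, cj', cj, hcf1]
      have := hcf2 v0 v1
      linarith
    -- d = al * N v0 + be * N v1
    set al := -(dt d v1) / crs v0 v1 with hal
    set be := dt d v0 / crs v0 v1 with hbe
    have al0 : 0 ≤ al := div_nonneg (by linarith) hcr'.le
    have be0 : 0 ≤ be := div_nonneg d0 hcr'.le
    have dec : ∀ e : ℝ × ℝ, dt d e = al * (v0.2 * e.1 - v0.1 * e.2) + be * (v1.2 * e.1 - v1.1 * e.2) := by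
      intro e
      have g1 : al * crs v0 v1 = -(dt d v1) := div_mul_cancel₀ _ hcr'.ne'
      have g2 : be * crs v0 v1 = dt d v0 := div_mul_cancel₀ _ hcr'.ne'
      apply mul_right_cancel₀ hcr'.ne'
      have : (al * (v0.2 * e.1 - v0.1 * e.2) + be * (v1.2 * e.1 - v1.1 * e.2)) * crs v0 v1 =
        (al * crs v0 v1) * (v0.2 * e.1 - v0.1 * e.2) +
          (be * crs v0 v1) * (v1.2 * e.1 - v1.1 * e.2) := by ring
      rw [this, g1, g2]
      unfold dt crs
      ring
    -- the normals of the edges are in the cones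
    have nv : ∀ (i : ℤ) (v e : ℝ × ℝ), dt (uu (th i)) v ≤ 0 → 0 ≤ dt (uu (th (i + 1))) v →
        dt (uu (th i)) e ≤ 0 → dt (uu (th (i + 1))) e ≤ 0 → v.2 * e.1 - v.1 * e.2 ≤ 0 := by
      intro i v e h1 h2 h3 h4
      obtain ⟨a, b, ha, hb, ev⟩ := cone i v h1 h2
      have : v.2 * e.1 - v.1 * e.2 = a * dt (uu (th i)) e + b * dt (uu (th (i + 1))) e := by
        rw [ev]
        unfold dt uu tau
        simp only [Prod.smul_mk, Prod.mk_add_mk, smul_eq_mul]
        ring
      rw [this]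
      have i1 := mul_nonpos_of_nonneg_of_nonpos ha h3
      have i2 := mul_nonpos_of_nonneg_of_nonpos hb h4
      linarith
    set e := (x j + y j) - qq j with he
    have m1 : dt (uu (th (j - 1))) e ≤ 0 := by rw [he, dt_sub]; linarith [hm1 j]
    have m2 : dt (uu (th j)) e ≤ 0 := by rw [he, dt_sub]; linarith [hm2 j]
    have m3 : dt (uu (th (j + 1))) e ≤ 0 := by rw [he, dt_sub]; linarith [hm3 j]
    have n0 : v0.2 * e.1 - v0.1 * e.2 ≤ 0 := by
      have h1 := hq1 (j - 1)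
      have h2 := hq2 (j - 1)
      rw [show j - 1 + 1 = j by ring] at h1 h2
      apply nv (j - 1) v0 e h1 _ m1 _
      · rw [show j - 1 + 1 = j by ring]; exact h2
      · rw [show j - 1 + 1 = j by ring]; exact m2
    have n1 : v1.2 * e.1 - v1.1 * e.2 ≤ 0 := nv j v1 e (hq1 j) (hq2 j) m2 m3
    have fin : dt d e ≤ 0 := by
      rw [dec]
      have i1 := mul_nonpos_of_nonneg_of_nonpos al0 n0
      have i2 := mul_nonpos_of_nonneg_of_nonpos be0 n1
      linarith
    rw [he, dt_sub] at fin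
    linarith
  have e16 : 16 * π * R * ρ * δ = 4 * R * δ * (2 * π * ρ) + 4 * R * δ * (2 * π * ρ) := by ring
  rw [e16]
  linarith

end H27ZP
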