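import Pool.Agent.H27.ZP.Core

/-!
# Lemma 1 of Theorem Z+ for periodic sequences
-/

set_option autoImplicit false

open Finset

namespace H27ZP

/-- shifting the window of a sum over a period -/
lemma sum_window {W : Type*} [AddCommGroup W] (f : ℤ → W) (N : ℕ) (hf : ∀ i, f (i + N) = f i)
    (j : ℤ) : ∑ r ∈ range N, f (j + r) = ∑ r ∈ range N, f r := by
  have step : ∀ k : ℤ, ∑ r ∈ range N, f (k + 1 + r) = ∑ r ∈ range N, f (k + r) := by
    intro k
    have h1 := Finset.sum_range_succ (fun r : ℕ => f (k + r)) N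
    have h2 := Finset.sum_range_succ' (fun r : ℕ => f (k + r)) N
    rw [h1] at h2
    have h3 : f (k + (N : ℤ)) = f k := hf k
    simp only [Nat.cast_zero, add_zero, h3] at h2
    have h4 := add_right_cancel h2
    rw [h4]
    apply Finset.sum_congr rfl
    intro r _
    congr 1
    push_cast
    ring
  induction j using Int.induction_on with
  | zero => simp
  | succ i ih => rw [step, ih]
  | pred i ih =>
    rw [← ih, ← step]
    congr 1
    ext r
    congr 1
    ring

/-- cutting a sum over `k * M` terms -/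
lemma sum_blocks {W : Type*} [AddCommMonoid W] (f : ℤ → W) (M : ℕ) (j : ℤ) :
    ∑ r ∈ range (6 * M), f (j + r) =
      ∑ r ∈ range M, (f (j + r) + f (j + M + r) + f (j + 2 * M + r) + f (j + 3 * M + r) +
        f (j + 4 * M + r) + f (j + 5 * M + r)) := by
  have e : 6 * M = M + M + M + M + M + M := by ring
  rw [e]
  simp only [Finset.sum_range_add]
  simp only [Finset.sum_add_distrib]
  congr 1
  · congr 1
    · congr 1
      · congr 1
        · congr 1
          apply Finset.sum_congr rfl
          intro r _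
          congr 1
          push_cast
          ring
        · apply Finset.sum_congr rfl
          intro r _
          congr 1
          push_cast
          ring
      · apply Finset.sum_congr rfl
        intro r _
        congr 1
        push_cast
        ring
    · apply Finset.sum_congr rfl
      intro r _
      congr 1
      push_cast
      ring
  · apply Finset.sum_congr rfl
    intro r _
    congr 1
    push_cast
    ring

variable {V : Type*} [AddCommGroup V] [Module ℝ V]

/-- the sum over the even classes -/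
noncomputable def EE (P Q : V →ₗ[ℝ] ℝ) (M : ℕ) (v : ℤ → V) (r : ℤ) : ℝ :=
  gg P Q (v r) + gg P Q (v (r + 2 * M)) + gg P Q (v (r + 4 * M))

/-- the sum over the odd classes -/
noncomputable def OO (P Q : V →ₗ[ℝ] ℝ) (M : ℕ) (v : ℤ → V) (r : ℤ) : ℝ :=
  gg P Q (v (r + M)) + gg P Q (v (r + 3 * M)) + gg P Q (v (r + 5 * M))

lemma min_EO_periodic (P Q : V →ₗ[ℝ] ℝ) (M : ℕ) (v : ℤ → V)
    (hper : ∀ i, v (i + 6 * M) = v i) (r : ℤ) :
    min (EE P Q M v (r + M)) (OO P Q M v (r + M)) = min (EE P Q M v r) (OO P Q M v r) := by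
  have h1 : EE P Q M v (r + M) = OO P Q M v r := by
    unfold EE OO
    rw [show r + (M : ℤ) + 2 * M = r + 3 * M by ring, show r + (M : ℤ) + 4 * M = r + 5 * M by ring]
  have h2 : OO P Q M v (r + M) = EE P Q M v r := by
    unfold EE OO
    rw [show r + (M : ℤ) + M = r + 2 * M by ring, show r + (M : ℤ) + 3 * M = r + 4 * M by ring,
      show r + (M : ℤ) + 5 * M = r + 6 * M by ring, hper]
    ring
  rw [h1, h2, min_comm]

/-- LEMMA 1 of Theorem Z+ for a periodic sequence of points `l i` (boundary points of `L` on an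
`s`-invariant grid) such that `j` is the index of the balanced parameter of `(P, Q)`. -/
theorem lemma1_seq (P Q c : V →ₗ[ℝ] ℝ) (w0 w2 : V) (M : ℕ) (l v : ℤ → V)
    (hl : ∀ i, l (i + 6 * M) = l i)
    (hvl : ∀ i, v i = (l (i + 1) - l i) - (l (i + 1 + 3 * M) - l (i + 3 * M)))
    (hv : ∀ i, v (i + M) = v i + v (i + 2 * M))
    (hc0 : c w0 = gg P Q w0 - gg P Q (-w0)) (hc2 : c w2 = gg P Q w2 - gg P Q (-w2))
    (hE : gg P Q w0 + gg P Q w2 + gg P Q (-(w0 + w2)) =
      gg P Q (w0 + w2) + gg P Q (-w0) + gg P Q (-w2))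
    (j : ℤ)
    (C0 : ∀ i, j ≤ i → i < j + M → InCone w0 (w0 + w2) (l (i + 1) - l i) ∧
      InCone w0 (w0 + w2) (-(l (i + 1 + 3 * M) - l (i + 3 * M))))
    (C1 : ∀ i, j + M ≤ i → i < j + 2 * M → InCone (w0 + w2) w2 (l (i + 1) - l i) ∧
      InCone (w0 + w2) w2 (-(l (i + 1 + 3 * M) - l (i + 3 * M))))
    (C2 : ∀ i, j + 2 * M ≤ i → i < j + 3 * M → InCone w2 (-w0) (l (i + 1) - l i) ∧
      InCone w2 (-w0) (-(l (i + 1 + 3 * M) - l (i + 3 * M)))) :
    ∑ r ∈ range M, min (EE P Q M v r) (OO P Q M v r) ≤
      ∑ r ∈ range (6 * M), gg P Q (l (r + 1) - l r) := by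
  have hper : ∀ i, v (i + 6 * M) = v i := by
    intro i
    rw [hvl, hvl, hl i, show i + 6 * (M : ℤ) + 1 = i + 1 + 6 * M by ring, hl (i + 1),
      show i + 1 + 6 * (M : ℤ) + 3 * M = i + 1 + 3 * M + 6 * M by ring, hl (i + 1 + 3 * M),
      show i + 6 * (M : ℤ) + 3 * M = i + 3 * M + 6 * M by ring, hl (i + 3 * M)]
  -- the window starting at j
  have hw1 : ∑ r ∈ range M, min (EE P Q M v r) (OO P Q M v r) =
      ∑ r ∈ range M, min (EE P Q M v (j + r)) (OO P Q M v (j + r)) :=
    (sum_window (fun i => min (EE P Q M v i) (OO P Q M v i)) M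
      (min_EO_periodic P Q M v hper) j).symm
  have hw2 : ∑ r ∈ range (6 * M), gg P Q (l (r + 1) - l r) =
      ∑ r ∈ range (6 * M), gg P Q (l (j + r + 1) - l (j + r)) := by
    refine (sum_window (fun i => gg P Q (l (i + 1) - l i)) (6 * M) ?_ j).symm
    intro i
    have h1 := hl i
    have h2 := hl (i + 1)
    push_cast
    rw [show i + 6 * (M : ℤ) + 1 = i + 1 + 6 * M by ring, h1, h2]
  rw [hw1, hw2, sum_blocks (fun i => gg P Q (l (i + 1) - l i)) M j]
  have hneg : ∀ i, v (i + 3 * M) = - v i := by
    intro i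
    rw [hvl, hvl, show i + 3 * (M : ℤ) + 1 + 3 * M = i + 1 + 6 * M by ring,
      show i + 3 * (M : ℤ) + 3 * M = i + 6 * M by ring, hl, hl,
      show i + 3 * (M : ℤ) + 1 = i + 1 + 3 * M by ring]
    abel
  have key := lemma1_core (range M) P Q c w0 w2
    (fun r : ℕ => l (j + r + 1) - l (j + r))
    (fun r : ℕ => l (j + M + r + 1) - l (j + M + r))
    (fun r : ℕ => l (j + 2 * M + r + 1) - l (j + 2 * M + r))
    (fun r : ℕ => l (j + 3 * M + r + 1) - l (j + 3 * M + r))
    (fun r : ℕ => l (j + 4 * M + r + 1) - l (j + 4 * M + r))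
    (fun r : ℕ => l (j + 5 * M + r + 1) - l (j + 5 * M + r))
    hc0 hc2 hE ?_ ?_ ?_ ?_ ?_ ?_ ?_ ?_
  · -- conclusion
    have v0 : ∀ r : ℕ, (l (j + r + 1) - l (j + r)) - (l (j + 3 * M + r + 1) - l (j + 3 * M + r)) =
        v (j + r) := by
      intro r
      rw [hvl, show j + (r : ℤ) + 1 + 3 * M = j + 3 * M + r + 1 by ring,
        show j + (r : ℤ) + 3 * M = j + 3 * M + r by ring]
    have v1 : ∀ r : ℕ, (l (j + M + r + 1) - l (j + M + r)) -
        (l (j + 4 * M + r + 1) - l (j + 4 * M + r)) = v (j + r + M) := by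
      intro r
      rw [hvl, show j + (r : ℤ) + M + 1 + 3 * M = j + 4 * M + r + 1 by ring,
        show j + (r : ℤ) + M + 3 * M = j + 4 * M + r by ring,
        show j + (r : ℤ) + M + 1 = j + M + r + 1 by ring,
        show j + (r : ℤ) + M = j + M + r by ring]
    have v2 : ∀ r : ℕ, (l (j + 2 * M + r + 1) - l (j + 2 * M + r)) -
        (l (j + 5 * M + r + 1) - l (j + 5 * M + r)) = v (j + r + 2 * M) := by
      intro r
      rw [hvl, show j + (r : ℤ) + 2 * M + 1 + 3 * M = j + 5 * M + r + 1 by ring,
        show j + (r : ℤ) + 2 * M + 3 * M = j + 5 * M + r by ring,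
        show j + (r : ℤ) + 2 * M + 1 = j + 2 * M + r + 1 by ring,
        show j + (r : ℤ) + 2 * M = j + 2 * M + r by ring]
    have v3 : ∀ r : ℕ, -v (j + r) = v (j + r + 3 * M) := fun r => (hneg _).symm
    have v4 : ∀ r : ℕ, -v (j + r + M) = v (j + r + 4 * M) := by
      intro r
      rw [← hneg, show j + (r : ℤ) + M + 3 * M = j + r + 4 * M by ring]
    have v5 : ∀ r : ℕ, -v (j + r + 2 * M) = v (j + r + 5 * M) := by
      intro r
      rw [← hneg, show j + (r : ℤ) + 2 * M + 3 * M = j + r + 5 * M by ring]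
    simp only [v0, v1, v2] at key
    simp only [v3, v4, v5] at key
    rcases key with h | h
    · refine le_trans ?_ h
      apply Finset.sum_le_sum
      intro r _
      refine le_trans (min_le_left _ _) (le_of_eq ?_)
      rfl
    · refine le_trans ?_ h
      apply Finset.sum_le_sum
      intro r _
      refine le_trans (min_le_right _ _) (le_of_eq ?_)
      rfl
  · intro r _
    have h := hv (j + r)
    rw [hvl (j + r), hvl (j + r + M), hvl (j + r + 2 * M)] at h
    rw [show j + (r : ℤ) + M + 1 + 3 * M = j + 4 * M + r + 1 by ring,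
        show j + (r : ℤ) + M + 3 * M = j + 4 * M + r by ring,
        show j + (r : ℤ) + M + 1 = j + M + r + 1 by ring,
        show j + (r : ℤ) + M = j + M + r by ring,
        show j + (r : ℤ) + 2 * M + 1 + 3 * M = j + 5 * M + r + 1 by ring,
        show j + (r : ℤ) + 2 * M + 3 * M = j + 5 * M + r by ring,
        show j + (r : ℤ) + 2 * M + 1 = j + 2 * M + r + 1 by ring,
        show j + (r : ℤ) + 2 * M = j + 2 * M + r by ring,
        show j + (r : ℤ) + 1 + 3 * M = j + 3 * M + r + 1 by ring,
        show j + (r : ℤ) + 3 * M = j + 3 * M + r by ring] at h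
    exact h
  · have h := sum_blocks (fun i => l (i + 1) - l i) M j
    rw [← h]
    have tel : ∀ n : ℕ, ∑ r ∈ range n, (l (j + r + 1) - l (j + r)) = l (j + n) - l j := by
      intro n
      induction n with
      | zero => simp
      | succ n ih =>
        rw [Finset.sum_range_succ, ih]
        push_cast
        rw [show j + (n : ℤ) + 1 = j + (n + 1) by ring]
        abel
    rw [tel]
    push_cast
    rw [hl, sub_self]
  · intro r hr
    have hr' := Finset.mem_range.1 hr
    exact (C0 (j + r) (by omega) (by omega)).1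
  · intro r hr
    have hr' := Finset.mem_range.1 hr
    have := (C0 (j + r) (by omega) (by omega)).2
    rw [show j + (r : ℤ) + 1 + 3 * M = j + 3 * M + r + 1 by ring,
        show j + (r : ℤ) + 3 * M = j + 3 * M + r by ring] at this
    exact this
  · intro r hr
    have hr' := Finset.mem_range.1 hr
    exact (C1 (j + M + r) (by omega) (by omega)).1
  · intro r hr
    have hr' := Finset.mem_range.1 hr
    have := (C1 (j + M + r) (by omega) (by omega)).2
    rw [show j + (M : ℤ) + r + 1 + 3 * M = j + 4 * M + r + 1 by ring,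
        show j + (M : ℤ) + r + 3 * M = j + 4 * M + r by ring] at this
    exact this
  · intro r hr
    have hr' := Finset.mem_range.1 hr
    exact (C2 (j + 2 * M + r) (by omega) (by omega)).1
  · intro r hr
    have hr' := Finset.mem_range.1 hr
    have := (C2 (j + 2 * M + r) (by omega) (by omega)).2
    rw [show j + 2 * (M : ℤ) + r + 1 + 3 * M = j + 5 * M + r + 1 by ring,
        show j + 2 * (M : ℤ) + r + 3 * M = j + 5 * M + r by ring] at this
    exact this

end H27ZP
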