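import Pool.Agent.H27.ZP.App

/-!
# The rows Sma, Smb and Ad of `Pool.Agent.H73.ZP`
-/

set_option autoImplicit false

open Real

namespace ZP27

open ZP

theorem smb (S : Set V) (hS : Bornology.IsBounded S) (hne : S.Nonempty) {ε : ℝ} (hε : 0 < ε) :
    ∃ l : ℝ → V, Bd l ∧ (∀ θ, ∀ w ∈ S, dt (uu θ) w + ε ≤ dt (uu θ) (l θ)) ∧
      ∀ θ, ∃ w ∈ S, dt (uu θ) (l θ) ≤ dt (uu θ) w + 2 * ε := by
  obtain ⟨l, e, hl, he, h1, h2⟩ := exists_bd hne hS hε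
  have hu : Continuous uu := by unfold uu; fun_prop
  have huu1 : ∀ x, dt (uu x) (uu x) = 1 := by
    intro x; rw [dt_uu_uu, sub_self, Real.cos_zero]
  have huu2 : ∀ x y, dt (uu x) (uu y) ≤ 1 := by
    intro x y; rw [dt_uu_uu]; exact Real.cos_le_one _
  refine ⟨fun x => l x + ε • uu x, ⟨?_, ?_, ?_, ?_⟩, ?_, ?_⟩
  · exact hl.cont.add (hu.const_smul ε)
  · intro θ
    simp only [hl.per, uu_per]
  · intro θ φ
    simp only [dt_add, dt_smul, huu1]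
    have := mul_le_mul_of_nonneg_left (huu2 θ φ) hε.le
    linarith [hl.supp θ φ]
  · intro θ φ hn
    simp only [dt_add, dt_smul, huu1]
    have := mul_le_mul_of_nonneg_left (huu2 θ φ) hε.le
    linarith [hl.strict θ φ hn]
  · intro θ w hw
    simp only [dt_add, dt_smul, huu1]
    linarith [h1 w hw θ]
  · intro θ
    obtain ⟨w, hw, h⟩ := h2 θ
    refine ⟨w, hw, ?_⟩
    simp only [dt_add, dt_smul, huu1]
    linarith

/-- the statement of row `Sma` -/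
theorem sma (W : Finset V) (hW : W.Nonempty) {ε : ℝ} (hε : 0 < ε) :
    ∃ l : ℝ → V, Bd l ∧ (∀ θ, ∀ w ∈ W, dt (uu θ) w + ε ≤ dt (uu θ) (l θ)) ∧
      ∀ θ, ∃ w ∈ W, dt (uu θ) (l θ) ≤ dt (uu θ) w + 3 * ε := by
  obtain ⟨l, hl, h1, h2⟩ := smb (W : Set V) W.finite_toSet.isBounded (by simpa using hW) hε
  refine ⟨l, hl, h1, fun θ => ?_⟩
  obtain ⟨w, hw, h⟩ := h2 θ
  exact ⟨w, hw, by linarith⟩

/-- the statement of row `Ad` -/
theorem ad {c : ℝ → V} (hc : Bd c) {A : Set V} {ε : ℝ} {a : V} (ha : a ∈ A)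
    (hin : ∀ θ, ∀ x ∈ A, dt (uu θ) x ≤ dt (uu θ) (c θ))
    (hout : ∀ θ, ∃ x ∈ A, dt (uu θ) (c θ) ≤ dt (uu θ) x + ε)
    {θ : ℝ} (hs : ∀ x ∈ A, dt (uu θ) x ≤ dt (uu θ) a) :
    ∃ φ, 0 ≤ φ ∧ φ < 2 * π ∧ ‖c φ - a‖ ≤ ε := by
  obtain ⟨x, hx, hx2⟩ := hout θ
  obtain ⟨φ, m, hm0, hm, hφ⟩ := near hc (a := a) (η := ε) (fun ψ => hin ψ a ha) (θ₀ := θ)
    (by linarith [hs x hx])
  obtain ⟨n, hn, _⟩ := existsUnique_add_zsmul_mem_Ico (by linarith [pi_pos] : (0 : ℝ) < 2 * π)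
    φ 0
  have hper : Function.Periodic c (2 * π) := hc.per
  refine ⟨φ + n • (2 * π), hn.1, by simpa using hn.2, ?_⟩
  rw [(hper.zsmul n) φ, hφ, add_sub_cancel_left, norm_smul, Real.norm_of_nonneg hm0]
  have h1 : ‖uu φ‖ ≤ 1 := by
    rw [Prod.norm_def]
    exact max_le (by simpa [uu] using Real.abs_cos_le_one φ)
      (by simpa [uu] using Real.abs_sin_le_one φ)
  calc m * ‖uu φ‖ ≤ m * 1 := mul_le_mul_of_nonneg_left h1 hm0
    _ ≤ ε := by linarith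

end ZP27
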