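import Pool.Agent.H27.ZP.Bal

/-!
# The unit chord map of a smooth strictly convex symmetric curve
-/

set_option autoImplicit false

open Finset Real Filter Topology

namespace H27ZP

/-- Hypotheses on the support map `q` of `D`. -/
structure QMap (q : ℝ → ℝ × ℝ) : Prop where
  cont : Continuous q
  pi : ∀ x, q (x + π) = -q x
  strict : ∀ x y, uu x ≠ uu y → dt (uu x) (q y) < dt (uu x) (q x)

lemma dt_add (w a b : ℝ × ℝ) : dt w (a + b) = dt w a + dt w b := by
  unfold dt; simp; ring
lemma dt_sub (w a b : ℝ × ℝ) : dt w (a - b) = dt w a - dt w b := by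
  unfold dt; simp; ring
lemma dt_neg (w a : ℝ × ℝ) : dt w (-a) = - dt w a := by
  unfold dt; simp; ring
lemma dt_smul (w a : ℝ × ℝ) (r : ℝ) : dt w (r • a) = r * dt w a := by
  unfold dt; simp; ring
lemma dt_neg_left (w a : ℝ × ℝ) : dt (-w) a = - dt w a := by
  unfold dt; simp; ring

lemma uu_ne {x y : ℝ} (h1 : x < y) (h2 : y < x + 2 * π) : uu x ≠ uu y := by
  intro e
  unfold uu at e
  have h3 : cos (y - x) = 1 := by
    rw [cos_sub]
    have e1 := congrArg Prod.fst e
    have e2 := congrArg Prod.snd e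
    simp only at e1 e2
    rw [e1, e2]
    nlinarith [sin_sq_add_cos_sq y]
  rw [cos_eq_one_iff_of_lt_of_lt (by linarith) (by linarith)] at h3
  linarith

lemma uu_2pi (x : ℝ) : uu (x + 2 * π) = uu x := by
  unfold uu; simp

variable {q : ℝ → ℝ × ℝ}

namespace QMap

/-- the support function -/
noncomputable def h (_hq : QMap q) (x : ℝ) : ℝ := dt (uu x) (q x)

lemma per (hq : QMap q) (x : ℝ) : q (x + 2 * π) = q x := by
  rw [show x + 2 * π = x + π + π by ring, hq.pi, hq.pi, neg_neg]

lemma h_pos (hq : QMap q) (x : ℝ) : 0 < hq.h x := by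
  have := hq.strict x (x + π) (uu_ne (by linarith [pi_pos]) (by linarith [pi_pos]))
  rw [hq.pi, dt_neg] at this
  unfold h
  linarith

lemma h_cont (hq : QMap q) : Continuous hq.h := by
  unfold h dt uu
  have := hq.cont
  fun_prop

lemma h_per (hq : QMap q) (x : ℝ) : hq.h (x + 2 * π) = hq.h x := by
  unfold h; rw [uu_2pi, hq.per]

lemma h_pi (hq : QMap q) (x : ℝ) : hq.h (x + π) = hq.h x := by
  unfold h; rw [uu_pi, hq.pi, dt_neg, dt_neg_left, neg_neg]

lemma le_h (hq : QMap q) (x y : ℝ) : dt (uu x) (q y) ≤ hq.h x := by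
  by_cases e : uu x = uu y
  · -- then q x and q y have the same support value
    by_contra hc
    push Not at hc
    -- use y : uu y = uu x, so dt (uu x) (q y) = h y
    have h1 : ∀ n : ℤ, q (x + n * (2 * π)) = q x := by
      intro n
      have hp : Function.Periodic q (2 * π) := hq.per
      simpa using (hp.int_mul n) x
    -- uu x = uu y implies y - x is a multiple of 2 pi
    have h2 : cos (y - x) = 1 := by
      have e1 := congrArg Prod.fst e
      have e2 := congrArg Prod.snd e
      unfold uu at e1 e2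
      simp only at e1 e2
      rw [cos_sub, e1, e2]
      nlinarith [sin_sq_add_cos_sq y]
    obtain ⟨n, hn⟩ := (cos_eq_one_iff _).1 h2
    have h3 : y = x + n * (2 * π) := by linarith
    rw [h3, h1] at hc
    exact lt_irrefl _ hc
  · exact (hq.strict x y e).le

lemma crs_pos (hq : QMap q) {x y : ℝ} (h1 : x < y) (h2 : y < x + π) : 0 < crs (q x) (q y) := by
  have hs : 0 < sin (y - x) := sin_pos_of_pos_of_lt_pi (by linarith) (by linarith)
  have id : sin (y - x) * crs (q x) (q y) =
      dt (uu x) (q x) * dt (uu y) (q y) - dt (uu x) (q y) * dt (uu y) (q x) := by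
    unfold dt uu crs
    simp only [sin_sub]
    have e1 := sin_sq_add_cos_sq x
    have e2 := sin_sq_add_cos_sq y
    ring
  have a1 := hq.strict x y (uu_ne h1 (by linarith [pi_pos]))
  have a2 := hq.strict x (y + π) (uu_ne (by linarith [pi_pos]) (by linarith))
  have a3 := hq.strict y x (uu_ne h1 (by linarith [pi_pos])).symm
  have a4 := hq.strict y (x + π) (uu_ne h2 (by linarith [pi_pos]))
  rw [hq.pi, dt_neg] at a2 a4
  have b1 := hq.h_pos x
  have b2 := hq.h_pos y
  unfold h at b1 b2
  have : dt (uu x) (q y) * dt (uu y) (q x) < dt (uu x) (q x) * dt (uu y) (q y) := by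
    calc dt (uu x) (q y) * dt (uu y) (q x) ≤ |dt (uu x) (q y) * dt (uu y) (q x)| := le_abs_self _
      _ = |dt (uu x) (q y)| * |dt (uu y) (q x)| := abs_mul _ _
      _ < dt (uu x) (q x) * dt (uu y) (q y) := by
          apply mul_lt_mul'' (abs_lt.2 ⟨by linarith, a1⟩) (abs_lt.2 ⟨by linarith, a3⟩)
            (abs_nonneg _) (abs_nonneg _)
  have h5 : 0 < sin (y - x) * crs (q x) (q y) := by rw [id]; linarith
  exact (pos_iff_pos_of_mul_pos h5).1 hs

/-- the norm with unit sphere `q` -/
lemma exists_N (hq : QMap q) (v : ℝ × ℝ) :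
    ∃ r : ℝ, (∀ x, dt (uu x) v ≤ r * hq.h x) ∧ ∃ x, dt (uu x) v = r * hq.h x := by
  have hf : Continuous (fun x => dt (uu x) v / hq.h x) := by
    apply Continuous.div _ hq.h_cont (fun x => (hq.h_pos x).ne')
    unfold dt uu
    fun_prop
  have hp : Function.Periodic (fun x => dt (uu x) v / hq.h x) (2 * π) := by
    intro x
    show dt (uu (x + 2 * π)) v / hq.h (x + 2 * π) = _
    rw [uu_2pi, hq.h_per]
  obtain ⟨x0, _, hx0⟩ := isCompact_Icc.exists_isMaxOn (⟨0, by simp [pi_pos.le]⟩ :
    (Set.Icc (0 : ℝ) (2 * π)).Nonempty) hf.continuousOn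
  refine ⟨dt (uu x0) v / hq.h x0, ?_, x0, ?_⟩
  · intro x
    obtain ⟨y, hy, hxy⟩ := hp.exists_mem_Ico₀ (by linarith [pi_pos]) x
    have h1 := hx0 ⟨hy.1, hy.2.le⟩
    simp only [Set.mem_ofPred_eq] at h1
    rw [← hxy] at h1
    rwa [div_le_iff₀ (hq.h_pos x)] at h1
  · rw [div_mul_cancel₀ _ (hq.h_pos x0).ne']

noncomputable def N (hq : QMap q) (v : ℝ × ℝ) : ℝ := (hq.exists_N v).choose

lemma N_le (hq : QMap q) (v : ℝ × ℝ) (x : ℝ) : dt (uu x) v ≤ hq.N v * hq.h x :=
  (hq.exists_N v).choose_spec.1 x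

lemma N_eq (hq : QMap q) (v : ℝ × ℝ) : ∃ x, dt (uu x) v = hq.N v * hq.h x :=
  (hq.exists_N v).choose_spec.2

lemma N_unique (hq : QMap q) (v : ℝ × ℝ) (r : ℝ) (h1 : ∀ x, dt (uu x) v ≤ r * hq.h x)
    (h2 : ∃ x, dt (uu x) v = r * hq.h x) : hq.N v = r := by
  obtain ⟨x, hx⟩ := h2
  obtain ⟨y, hy⟩ := hq.N_eq v
  apply le_antisymm
  · have := h1 y
    rw [hy] at this
    exact le_of_mul_le_mul_right this (hq.h_pos y)
  · have := hq.N_le v x
    rw [hx] at this
    exact le_of_mul_le_mul_right this (hq.h_pos x)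

lemma N_nonneg (hq : QMap q) (v : ℝ × ℝ) : 0 ≤ hq.N v := by
  have h1 := hq.N_le v 0
  have h2 := hq.N_le v (0 + π)
  rw [uu_pi, dt_neg_left, hq.h_pi] at h2
  have h3 := hq.h_pos 0
  by_contra hc
  push Not at hc
  nlinarith

lemma N_q (hq : QMap q) (x : ℝ) : hq.N (q x) = 1 := by
  apply hq.N_unique
  · intro y; rw [one_mul]; exact hq.le_h y x
  · exact ⟨x, by rw [one_mul]; rfl⟩

lemma N_smul (hq : QMap q) (v : ℝ × ℝ) (r : ℝ) (hr : 0 ≤ r) : hq.N (r • v) = r * hq.N v := by
  apply hq.N_unique
  · intro x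
    rw [dt_smul, mul_assoc]
    exact mul_le_mul_of_nonneg_left (hq.N_le v x) hr
  · obtain ⟨x, hx⟩ := hq.N_eq v
    exact ⟨x, by rw [dt_smul, hx, mul_assoc]⟩

lemma N_add (hq : QMap q) (a b : ℝ × ℝ) : hq.N (a + b) ≤ hq.N a + hq.N b := by
  obtain ⟨x, hx⟩ := hq.N_eq (a + b)
  have h1 := hq.N_le a x
  have h2 := hq.N_le b x
  rw [dt_add] at hx
  have h3 : hq.N (a + b) * hq.h x ≤ (hq.N a + hq.N b) * hq.h x := by
    rw [← hx, add_mul]; linarith
  exact le_of_mul_le_mul_right h3 (hq.h_pos x)

/-- a point with support value `N v` in direction `x` is `N v • q x` -/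
lemma eq_smul (hq : QMap q) (v : ℝ × ℝ) (x : ℝ) (hx : dt (uu x) v = hq.N v * hq.h x) :
    v = hq.N v • q x := by
  set r := hq.N v with hr
  have hr0 : 0 ≤ r := hq.N_nonneg v
  set w : ℝ × ℝ := v - r • q x with hw
  have hw0 : dt (uu x) w = 0 := by
    rw [hw, dt_sub, dt_smul, hx]; unfold h; ring
  set c : ℝ := dt (tau x) w with hc
  -- value at a near direction
  have val : ∀ e : ℝ, dt (uu (x + e)) w = sin e * c := by
    intro e
    have : dt (uu (x + e)) w = cos e * dt (uu x) w + sin e * dt (tau x) w := by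
      unfold dt uu tau
      simp only [cos_add, sin_add]
      ring
    rw [this, hw0, mul_zero, zero_add]
  have dec : ∀ (e : ℝ) (d : ℝ × ℝ), dt (uu (x + e)) d = cos e * dt (uu x) d + sin e * dt (tau x) d := by
    intro e d
    unfold dt uu tau
    simp only [cos_add, sin_add]
    ring
  have up : ∀ e : ℝ, dt (uu (x + e)) w ≤ r * dt (uu (x + e)) (q (x + e) - q x) := by
    intro e
    have h1 := hq.N_le v (x + e)
    rw [hw, dt_sub, dt_smul, dt_sub]
    unfold h at h1
    rw [← hr] at h1
    linarith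
  have neg : ∀ e : ℝ, dt (uu x) (q (x + e) - q x) ≤ 0 := by
    intro e
    rw [dt_sub]
    have := hq.le_h x (x + e)
    unfold h at this
    linarith
  have cont : Continuous (fun e : ℝ => r * dt (tau x) (q (x + e) - q x)) := by
    have := hq.cont
    unfold dt tau
    fun_prop
  have lim0 : Tendsto (fun e : ℝ => r * dt (tau x) (q (x + e) - q x)) (𝓝 0) (𝓝 0) := by
    have := cont.tendsto 0
    simpa [dt] using this
  have hc1 : c ≤ 0 := by
    have hlim : Tendsto (fun e : ℝ => r * dt (tau x) (q (x + e) - q x)) (𝓝[>] 0) (𝓝 0) :=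
      lim0.mono_left nhdsWithin_le_nhds
    apply ge_of_tendsto hlim
    have hev : Set.Ioo (0 : ℝ) (π / 2) ∈ 𝓝[>] (0 : ℝ) := Ioo_mem_nhdsGT (by linarith [pi_pos])
    filter_upwards [hev] with e he
    have hs : 0 < sin e := sin_pos_of_pos_of_lt_pi he.1 (by linarith [he.2, pi_pos])
    have hcs : 0 ≤ cos e := cos_nonneg_of_neg_pi_div_two_le_of_le (by linarith [he.1, pi_pos]) he.2.le
    have h1 := up e
    rw [val, dec] at h1
    have h2 := mul_nonpos_of_nonneg_of_nonpos hcs (neg e)
    have h3 := mul_nonpos_of_nonneg_of_nonpos hr0 h2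
    have h4 : sin e * c ≤ sin e * (r * dt (tau x) (q (x + e) - q x)) := by nlinarith
    exact le_of_mul_le_mul_left h4 hs
  have hc2 : 0 ≤ c := by
    have hlim : Tendsto (fun e : ℝ => r * dt (tau x) (q (x + e) - q x)) (𝓝[<] 0) (𝓝 0) :=
      lim0.mono_left nhdsWithin_le_nhds
    apply le_of_tendsto hlim
    have hev : Set.Ioo (-(π / 2)) (0 : ℝ) ∈ 𝓝[<] (0 : ℝ) := Ioo_mem_nhdsLT (by linarith [pi_pos])
    filter_upwards [hev] with e he
    have hs : sin e < 0 := sin_neg_of_neg_of_neg_pi_lt he.2 (by linarith [he.1, pi_pos])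
    have hcs : 0 ≤ cos e := cos_nonneg_of_neg_pi_div_two_le_of_le he.1.le (by linarith [he.2, pi_pos])
    have h1 := up e
    rw [val, dec] at h1
    have h2 := mul_nonpos_of_nonneg_of_nonpos hcs (neg e)
    have h3 := mul_nonpos_of_nonneg_of_nonpos hr0 h2
    have h4 : sin e * c ≤ sin e * (r * dt (tau x) (q (x + e) - q x)) := by nlinarith
    by_contra hcc
    push Not at hcc
    nlinarith
  have hc0 : c = 0 := le_antisymm hc1 hc2
  have hw00 : w = 0 := by
    have e1 : w.1 = cos x * dt (uu x) w - sin x * dt (tau x) w := by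
      unfold dt uu tau
      simp only
      linear_combination (-w.1) * sin_sq_add_cos_sq x
    have e2 : w.2 = sin x * dt (uu x) w + cos x * dt (tau x) w := by
      unfold dt uu tau
      simp only
      linear_combination (-w.2) * sin_sq_add_cos_sq x
    rw [hw0, ← hc, hc0] at e1 e2
    ext
    · simpa using e1
    · simpa using e2
  rw [hw] at hw00
  exact sub_eq_zero.1 hw00

lemma exists_q (hq : QMap q) (v : ℝ × ℝ) (hv : hq.N v = 1) : ∃ x, v = q x := by
  obtain ⟨x, hx⟩ := hq.N_eq v
  exact ⟨x, by have := hq.eq_smul v x hx; rwa [hv, one_smul] at this⟩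

lemma N_add_lt (hq : QMap q) (a b : ℝ × ℝ) (hab : crs a b ≠ 0) :
    hq.N (a + b) < hq.N a + hq.N b := by
  obtain ⟨x, hx⟩ := hq.N_eq (a + b)
  have h1 := hq.N_le a x
  have h2 := hq.N_le b x
  rw [dt_add] at hx
  have h3 : hq.N (a + b) * hq.h x < (hq.N a + hq.N b) * hq.h x := by
    rw [← hx, add_mul]
    rcases lt_or_eq_of_le h1 with h1' | h1'
    · linarith
    · rcases lt_or_eq_of_le h2 with h2' | h2'
      · linarith
      · exfalso
        have e1 := hq.eq_smul a x h1'
        have e2 := hq.eq_smul b x h2'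
        apply hab
        rw [e1, e2]
        unfold crs
        simp only [Prod.smul_fst, Prod.smul_snd, smul_eq_mul]
        ring
  exact lt_of_mul_lt_mul_right h3 (hq.h_pos x).le

/-- MONOTONICITY of the chord length, strict -/
lemma mono_lt (hq : QMap q) {t x y : ℝ} (h1 : t < x) (h2 : x < y) (h3 : y < t + π) :
    hq.N (q x - q t) < hq.N (q y - q t) := by
  have c1 : 0 < crs (q t) (q y) := hq.crs_pos (by linarith) h3
  have c2 : 0 < crs (q t) (q x) := hq.crs_pos h1 (by linarith)
  have c3 : 0 < crs (q x) (q y) := hq.crs_pos h2 (by linarith)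
  set A := q t with hA
  set B := q x with hB
  set C := q y with hC
  set al := crs B C / crs A C with hal
  set be := crs A B / crs A C with hbe
  have al0 : 0 < al := div_pos c3 c1
  have be0 : 0 < be := div_pos c2 c1
  have hBe : B = al • A + be • C := by
    have hne := c1.ne'
    have g1 : al * crs A C = crs B C := div_mul_cancel₀ _ hne
    have g2 : be * crs A C = crs A B := div_mul_cancel₀ _ hne
    ext
    · apply mul_right_cancel₀ hne
      have : (al • A + be • C).1 * crs A C = (al * crs A C) * A.1 + (be * crs A C) * C.1 := by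
        simp only [Prod.fst_add, Prod.smul_fst, smul_eq_mul]; ring
      rw [this, g1, g2]
      unfold crs
      ring
    · apply mul_right_cancel₀ hne
      have : (al • A + be • C).2 * crs A C = (al * crs A C) * A.2 + (be * crs A C) * C.2 := by
        simp only [Prod.snd_add, Prod.smul_snd, smul_eq_mul]; ring
      rw [this, g1, g2]
      unfold crs
      ring
  have nA : hq.N A = 1 := hq.N_q t
  have nB : hq.N B = 1 := hq.N_q x
  have nC : hq.N C = 1 := hq.N_q y
  have hge : 1 ≤ al + be := by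
    have := hq.N_add (al • A) (be • C)
    rw [← hBe, nB, hq.N_smul _ _ al0.le, hq.N_smul _ _ be0.le, nA, nC] at this
    linarith
  have hpos : 0 < al + be := by linarith
  set K := (al + be)⁻¹ with hK
  have K0 : 0 < K := inv_pos.2 hpos
  have K1 : K ≤ 1 := inv_le_one_of_one_le₀ hge
  have hKm : K * (al + be) = 1 := inv_mul_cancel₀ hpos.ne'
  -- B - A = (B - p) + (p - A), p = K • B
  have e1 : B - A = (1 - K) • B + (K * be) • (C - A) := by
    have : (K * be) • (C - A) = K • B - A := by
      calc (K * be) • (C - A) = K • (al • A + be • C) - (K * al + K * be) • A := by module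
        _ = K • B - A := by rw [← hBe, ← mul_add, hKm, one_smul]
    rw [this]
    module
  have e2 : C = (K * al) • (C - A) + K • B := by
    calc C = (K * al + K * be) • C := by rw [← mul_add, hKm, one_smul]
      _ = (K * al) • (C - A) + K • (al • A + be • C) := by module
      _ = _ := by rw [← hBe]
  have i1 : hq.N (B - A) ≤ (1 - K) + K * be * hq.N (C - A) := by
    have := hq.N_add ((1 - K) • B) ((K * be) • (C - A))
    rw [← e1, hq.N_smul _ _ (by linarith), hq.N_smul _ _ (by positivity), nB, mul_one] at this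
    exact this
  have i2 : 1 < K * al * hq.N (C - A) + K := by
    have hcr : crs ((K * al) • (C - A)) (K • B) ≠ 0 := by
      have : crs ((K * al) • (C - A)) (K • B) = -(K * al * K) * ((al + be) * crs A C) := by
        rw [hBe]
        unfold crs
        simp only [Prod.smul_fst, Prod.smul_snd, smul_eq_mul, Prod.fst_sub, Prod.snd_sub,
          Prod.fst_add, Prod.snd_add]
        ring
      rw [this]
      have : 0 < K * al * K * ((al + be) * crs A C) := by positivity
      intro h0
      linarith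
    have := hq.N_add_lt _ _ hcr
    rw [← e2, nC, hq.N_smul _ _ (by positivity), hq.N_smul _ _ K0.le, nB, mul_one] at this
    exact this
  have i3 : K * al * hq.N (C - A) + K * be * hq.N (C - A) = hq.N (C - A) := by
    have : K * al * hq.N (C - A) + K * be * hq.N (C - A) = (K * (al + be)) * hq.N (C - A) := by ring
    rw [this, hKm, one_mul]
  linarith

lemma exists_hmin (hq : QMap q) : ∃ m : ℝ, 0 < m ∧ ∀ x, m ≤ hq.h x := by
  have hp : Function.Periodic hq.h (2 * π) := hq.h_per
  obtain ⟨x0, _, hx0⟩ := isCompact_Icc.exists_isMinOn (⟨0, by simp [pi_pos.le]⟩ :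
    (Set.Icc (0 : ℝ) (2 * π)).Nonempty) hq.h_cont.continuousOn
  refine ⟨hq.h x0, hq.h_pos x0, fun x => ?_⟩
  obtain ⟨y, hy, hxy⟩ := hp.exists_mem_Ico₀ (by linarith [pi_pos]) x
  have h1 := hx0 ⟨hy.1, hy.2.le⟩
  simp only [Set.mem_ofPred_eq] at h1
  rw [← hxy] at h1
  exact h1

lemma N_cont (hq : QMap q) : Continuous hq.N := by
  obtain ⟨m, hm, hmh⟩ := hq.exists_hmin
  have bound : ∀ v : ℝ × ℝ, hq.N v ≤ (2 / m) * ‖v‖ := by
    intro v
    obtain ⟨x, hx⟩ := hq.N_eq v
    have h1 : dt (uu x) v ≤ 2 * ‖v‖ := by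
      have a1 : |v.1| ≤ ‖v‖ := by rw [← Real.norm_eq_abs]; exact norm_fst_le v
      have a2 : |v.2| ≤ ‖v‖ := by rw [← Real.norm_eq_abs]; exact norm_snd_le v
      have b1 : cos x * v.1 ≤ |v.1| := by
        calc cos x * v.1 ≤ |cos x * v.1| := le_abs_self _
          _ = |cos x| * |v.1| := abs_mul _ _
          _ ≤ 1 * |v.1| := mul_le_mul_of_nonneg_right (abs_cos_le_one x) (abs_nonneg _)
          _ = |v.1| := one_mul _
      have b2 : sin x * v.2 ≤ |v.2| := by
        calc sin x * v.2 ≤ |sin x * v.2| := le_abs_self _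
          _ = |sin x| * |v.2| := abs_mul _ _
          _ ≤ 1 * |v.2| := mul_le_mul_of_nonneg_right (abs_sin_le_one x) (abs_nonneg _)
          _ = |v.2| := one_mul _
      unfold dt uu
      simp only
      linarith
    have h2 : hq.N v * m ≤ hq.N v * hq.h x := mul_le_mul_of_nonneg_left (hmh x) (hq.N_nonneg v)
    rw [← hx] at h2
    have h3 : hq.N v * m ≤ 2 * ‖v‖ := le_trans h2 h1
    rw [div_mul_eq_mul_div, le_div_iff₀ hm]
    exact h3
  have hL : LipschitzWith (Real.toNNReal (2 / m)) hq.N := by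
    apply LipschitzWith.of_le_add_mul
    intro a b
    have h1 := hq.N_add b (a - b)
    rw [add_sub_cancel] at h1
    have h2 := bound (a - b)
    rw [Real.coe_toNNReal _ (by positivity), dist_eq_norm]
    linarith
  exact hL.continuous

lemma exists_s (hq : QMap q) (t : ℝ) : ∃ x, t < x ∧ x < t + π ∧ hq.N (q x - q t) = 1 := by
  have hc : ContinuousOn (fun x => hq.N (q x - q t)) (Set.Icc t (t + π)) := by
    have h1 := hq.N_cont
    have h2 := hq.cont
    exact (h1.comp (h2.sub continuous_const)).continuousOn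
  have h0 : hq.N (q t - q t) = 0 := by
    rw [sub_self]
    have := hq.N_smul 0 0 le_rfl
    simpa using this
  have h1 : hq.N (q (t + π) - q t) = 2 := by
    rw [hq.pi]
    have e : -q t - q t = (2 : ℝ) • q (t + π) := by rw [hq.pi]; module
    rw [e, hq.N_smul _ _ (by norm_num), hq.N_q, mul_one]
  have hmem : (1 : ℝ) ∈ (fun x => hq.N (q x - q t)) '' Set.Icc t (t + π) :=
    intermediate_value_Icc (by linarith [pi_pos]) hc ⟨by simp only [h0]; norm_num,
      by simp only [h1]; norm_num⟩
  obtain ⟨x, hx, hx1⟩ := hmem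
  simp only at hx1
  refine ⟨x, lt_of_le_of_ne hx.1 ?_, lt_of_le_of_ne hx.2 ?_, hx1⟩
  · intro e
    rw [← e, h0] at hx1
    norm_num at hx1
  · intro e
    rw [e, h1] at hx1
    norm_num at hx1

/-- the unit chord map on normals -/
noncomputable def s (hq : QMap q) (t : ℝ) : ℝ := (hq.exists_s t).choose

lemma lt_s (hq : QMap q) (t : ℝ) : t < hq.s t := (hq.exists_s t).choose_spec.1
lemma s_lt (hq : QMap q) (t : ℝ) : hq.s t < t + π := (hq.exists_s t).choose_spec.2.1
lemma N_s (hq : QMap q) (t : ℝ) : hq.N (q (hq.s t) - q t) = 1 := (hq.exists_s t).choose_spec.2.2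

lemma s_unique (hq : QMap q) (t x : ℝ) (h1 : t < x) (h2 : x < t + π)
    (h3 : hq.N (q x - q t) = 1) : x = hq.s t := by
  rcases lt_trichotomy x (hq.s t) with h | h | h
  · have := hq.mono_lt h1 h (hq.s_lt t)
    rw [h3, hq.N_s] at this
    exact absurd this (lt_irrefl _)
  · exact h
  · have := hq.mono_lt (hq.lt_s t) h h2
    rw [h3, hq.N_s] at this
    exact absurd this (lt_irrefl _)

/-- the next point of the hexagon -/
lemma hexagon (hq : QMap q) (t : ℝ) :
    q (hq.s (hq.s t)) = q (hq.s t) - q t ∧ hq.s (hq.s (hq.s t)) = t + π := by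
  set x := hq.s t with hx
  have x1 : t < x := hq.lt_s t
  have x2 : x < t + π := hq.s_lt t
  have c0 : 0 < crs (q t) (q x) := hq.crs_pos x1 x2
  obtain ⟨y', hy'⟩ := hq.exists_q (q x - q t) (hq.N_s t)
  have hp : Function.Periodic q (2 * π) := hq.per
  obtain ⟨y, hy, hyy⟩ := hp.exists_mem_Ico (by linarith [pi_pos]) y' x
  rw [hyy] at hy'
  -- y in (x, t + pi)
  have key : x < y ∧ y < t + π := by
    rcases lt_trichotomy y (x + π) with h | h | h
    · have hxy : x < y := by
        rcases eq_or_lt_of_le hy.1 with e | e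
        · exfalso
          rw [← e] at hy'
          have : q t = 0 := by
            have := sub_eq_self.1 hy'
            exact this
          rw [this] at c0
          unfold crs at c0
          simp at c0
        · exact e
      refine ⟨hxy, ?_⟩
      by_contra hc
      push Not at hc
      rcases eq_or_lt_of_le hc with e | e
      · rw [← e, hq.pi] at hy'
        have : q x = 0 := by
          have h5 : q x - q t + q t = -q t + q t := by rw [hy']
          simpa using h5
        rw [this] at c0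
        unfold crs at c0
        simp at c0
      · have h6 : 0 < crs (q (t + π)) (q y) := hq.crs_pos e (by linarith)
        rw [← hy', hq.pi] at h6
        unfold crs at h6 c0
        simp only [Prod.fst_neg, Prod.snd_neg, Prod.fst_sub, Prod.snd_sub] at h6
        nlinarith
    · exfalso
      rw [h, hq.pi] at hy'
      have : q t = (2 : ℝ) • q x := by
        have h5 : q t = q x - (q x - q t) := by abel
        rw [h5, hy']; module
      rw [this] at c0
      unfold crs at c0
      simp only [Prod.smul_fst, Prod.smul_snd, smul_eq_mul] at c0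
      nlinarith
    · exfalso
      have h6 : 0 < crs (q x) (q (y - π)) := hq.crs_pos (by linarith) (by linarith [hy.2])
      have h7 : q y = - q (y - π) := by
        have := hq.pi (y - π)
        rwa [sub_add_cancel] at this
      have h8 : q (y - π) = -(q x - q t) := by rw [hy', h7, neg_neg]
      rw [h8] at h6
      unfold crs at h6 c0
      simp only [Prod.fst_neg, Prod.snd_neg, Prod.fst_sub, Prod.snd_sub] at h6
      nlinarith
  have hsx : y = hq.s x := by
    apply hq.s_unique x y key.1 (by linarith)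
    rw [← hy']
    have : q x - q t - q x = q (t + π) := by rw [hq.pi]; abel
    rw [this, hq.N_q]
  have hsy : t + π = hq.s y := by
    apply hq.s_unique y (t + π) key.2 (by linarith)
    rw [← hy', hq.pi]
    have : -q t - (q x - q t) = q (x + π) := by rw [hq.pi]; abel
    rw [this, hq.N_q]
  rw [← hsx]
  exact ⟨hy'.symm, hsy.symm⟩

lemma s3 (hq : QMap q) (t : ℝ) : hq.s (hq.s (hq.s t)) = t + π := (hq.hexagon t).2

lemma chord (hq : QMap q) (t : ℝ) : q (hq.s t) = q t + q (hq.s (hq.s t)) := by
  rw [(hq.hexagon t).1]; abel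

lemma s_pi (hq : QMap q) (t : ℝ) : hq.s (t + π) = hq.s t + π := by
  rw [← hq.s3 t, hq.s3]

lemma lt_s_iff (hq : QMap q) (t x : ℝ) (_h1 : t < x) (h2 : x < t + π)
    (h3 : hq.N (q x - q t) < 1) : x < hq.s t := by
  by_contra hc
  push Not at hc
  rcases eq_or_lt_of_le hc with e | e
  · rw [← e, hq.N_s] at h3; exact lt_irrefl _ h3
  · have := hq.mono_lt (hq.lt_s t) e h2
    rw [hq.N_s] at this
    linarith

lemma s_lt_iff (hq : QMap q) (t x : ℝ) (h1 : t < x)
    (h3 : 1 < hq.N (q x - q t)) : hq.s t < x := by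
  by_contra hc
  push Not at hc
  rcases eq_or_lt_of_le hc with e | e
  · rw [e, hq.N_s] at h3; exact lt_irrefl _ h3
  · have := hq.mono_lt h1 e (hq.s_lt t)
    rw [hq.N_s] at this
    linarith

lemma s_cont (hq : QMap q) : Continuous hq.s := by
  rw [continuous_iff_continuousAt]
  intro t
  have hN : ∀ x : ℝ, Continuous (fun t' => hq.N (q x - q t')) := by
    intro x
    exact hq.N_cont.comp (continuous_const.sub hq.cont)
  have b1 := hq.lt_s t
  have b2 := hq.s_lt t
  rw [ContinuousAt, tendsto_order]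
  constructor
  · intro a ha
    set a' := max a ((t + hq.s t) / 2) with ha'
    have h1 : a' < hq.s t := max_lt ha (by linarith)
    have h2 : t < a' := lt_of_lt_of_le (by linarith) (le_max_right _ _)
    have h3 : hq.N (q a' - q t) < 1 := by
      rw [← hq.N_s t]; exact hq.mono_lt h2 h1 b2
    have e1 : ∀ᶠ t' in 𝓝 t, hq.N (q a' - q t') < 1 := (hN a').tendsto t |>.eventually (gt_mem_nhds h3)
    have e2 : ∀ᶠ t' in 𝓝 t, t' < a' := gt_mem_nhds h2
    have e3 : ∀ᶠ t' in 𝓝 t, a' - π < t' := lt_mem_nhds (by linarith)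
    filter_upwards [e1, e2, e3] with t' h4 h5 h6
    exact lt_of_le_of_lt (le_max_left _ _) (hq.lt_s_iff t' a' h5 (by linarith) h4)
  · intro a ha
    set a' := min a ((t + π + hq.s t) / 2) with ha'
    have h1 : hq.s t < a' := lt_min ha (by linarith)
    have h2 : a' < t + π := lt_of_le_of_lt (min_le_right _ _) (by linarith)
    have h3 : 1 < hq.N (q a' - q t) := by
      rw [← hq.N_s t]; exact hq.mono_lt b1 h1 h2
    have e1 : ∀ᶠ t' in 𝓝 t, 1 < hq.N (q a' - q t') := (hN a').tendsto t |>.eventually (lt_mem_nhds h3)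
    have e2 : ∀ᶠ t' in 𝓝 t, t' < a' := gt_mem_nhds (by linarith)
    filter_upwards [e1, e2] with t' h4 h5
    exact lt_of_lt_of_le (hq.s_lt_iff t' a' h5 h4) (min_le_left _ _)

lemma s_mono (hq : QMap q) : StrictMono hq.s := by
  have hinj : Function.Injective hq.s := by
    intro a b hab
    have h1 := hq.s3 a
    have h2 := hq.s3 b
    rw [hab] at h1
    rw [h1] at h2
    linarith
  rcases hq.s_cont.strictMono_of_inj hinj with h | h
  · exact h
  · exfalso
    have h1 := h (hq.lt_s 0)
    have h2 := hq.lt_s (hq.s 0)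
    linarith

end QMap

end H27ZP
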