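import Pool.Agent.H27.ZP.Ad2
import Pool.Agent.H73.ZP.Sc
import Pool.Agent.H73.ZP.Cl
import Pool.Agent.H73.ZP.Ge

/-!
Theorem T: no six bad arcs.  The file `TT` of `Pool.Agent.H73.ZP`, assembled from `grid_L1'` (grid and
exact Lemma 1), `Sc` (star), `Cl` (core) and `Ge` (generic perturbation).
-/

open Real

namespace ZP27

open ZP

/-- The six certificates in a uniform form. -/
structure Six (l : Fin 6 → ℝ → V) (P Q : Fin 6 → V) (c₁ c₂ : ℝ → V) (α β : ℕ → ℝ) (η : ℝ) :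
    Prop where
  first : ∀ k : ℕ, (hk : k < 3) → ∀ ψ₁ ψ₂ ψ₃, - dt (P ⟨k, by omega⟩) (l ⟨k, by omega⟩ ψ₁) +
      dt (P ⟨k, by omega⟩ - Q ⟨k, by omega⟩) (l ⟨k, by omega⟩ ψ₂) +
      dt (Q ⟨k, by omega⟩) (l ⟨k, by omega⟩ ψ₃) + η ≤
        dt (P ⟨k, by omega⟩) (c₁ (α (3 * k + 1)) - c₁ (α (3 * k))) +
        dt (Q ⟨k, by omega⟩) (c₁ (α (3 * k + 2)) - c₁ (α (3 * k + 1)))
  second : ∀ k : ℕ, (hk : k < 3) → ∀ ψ₁ ψ₂ ψ₃, - dt (P ⟨3 + k, by omega⟩) (l ⟨3 + k, by omega⟩ ψ₁) +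
      dt (P ⟨3 + k, by omega⟩ - Q ⟨3 + k, by omega⟩) (l ⟨3 + k, by omega⟩ ψ₂) +
      dt (Q ⟨3 + k, by omega⟩) (l ⟨3 + k, by omega⟩ ψ₃) + η ≤
        dt (P ⟨3 + k, by omega⟩) (c₂ (β (3 * k + 1)) - c₂ (β (3 * k))) +
        dt (Q ⟨3 + k, by omega⟩) (c₂ (β (3 * k + 2)) - c₂ (β (3 * k + 1)))

/-- The theorem for generic functionals. -/
theorem TT_gen {l : ℝ → V} (hl : Bd l) {L : Fin 6 → ℝ → V} (hL : ∀ i, L i = l ∨ L i = ng l)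
    {c₁ c₂ : ℝ → V} (h₁ : Bd c₁) (h₂ : Bd c₂)
    (hx : ∀ θ φ ψ, dt (uu θ) (c₁ φ + c₂ ψ) ≤ dt (uu θ) (qq l θ)) {α β : ℕ → ℝ}
    (hα : Monotone α) (hα8 : α 8 ≤ α 0 + 2 * π) (hβ : Monotone β) (hβ8 : β 8 ≤ β 0 + 2 * π)
    {P Q : Fin 6 → V} (hPQ : ∀ i, 0 < cr (P i) (Q i)) (hgen : Gen12 P Q) {η : ℝ} (hη : 0 < η)
    (h6 : Six L P Q c₁ c₂ α β η) : False := by
  have hLB : ∀ i, Bd (L i) := fun i => by
    rcases hL i with h | h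
    · rw [h]; exact hl
    · rw [h]; exact neg hl
  have hLv : ∀ i (θ : ℤ → ℝ), vv (L i) θ = vv l θ := by
    intro i θ
    rcases hL i with h | h
    · rw [h]
    · rw [h]; funext m; simp only [vv, qq_ng hl]
  have hLq : ∀ i, qq (L i) = qq l := by
    intro i
    rcases hL i with h | h
    · rw [h]
    · rw [h]; exact qq_ng hl
  have hε : 0 < η / 4 / 3 := by positivity
  let Pn : ℕ → V := fun k => if h : k < 6 then P ⟨k, h⟩ else 0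
  let Qn : ℕ → V := fun k => if h : k < 6 then Q ⟨k, h⟩ else 0
  obtain ⟨δ, hδ, hS⟩ := Sc (qqBd hl) h₁ h₂ hx Pn Qn hα hα8 hβ hβ8 hε
  obtain ⟨M, θ, hMpos, hmono, hper, hgap, hHx, hL1⟩ := ZP27.grid_L1' hl P Q hPQ hδ
  obtain ⟨t, ht0, ht1, ⟨i₀, hi₀⟩, hcore⟩ := Cl hHx hPQ hgen
  have hstar := hS M θ hMpos hmono hper hgap t ht0 ht1
  have hPe : (fun i : Fin 6 => Pn i) = P := by
    funext i
    simp [Pn]
  have hQe : (fun i : Fin 6 => Qn i) = Q := by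
    funext i
    simp [Qn]
  rw [hPe, hQe] at hstar
  have hmxs : ∑ m ∈ Finset.range (6 * M), mx t P Q (qq l (θ ((m : ℤ) + 1)) - qq l (θ m)) =
      ∑ m ∈ Finset.range (6 * M), mx t P Q (vv l θ m) := rfl
  rw [hmxs] at hstar
  -- the bound of each player
  have hpl : ∀ i : Fin 6, ∃ φ₁ φ₂ φ₃, ∑ r ∈ Finset.range M,
          min (Ee (gg (P i) (Q i)) M (vv l θ) r) (Oo (gg (P i) (Q i)) M (vv l θ) r) ≤
        - dt (P i) (L i φ₁) + dt (P i - Q i) (L i φ₂) + dt (Q i) (L i φ₃) + η / 4 / 3 := by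
    intro i
    obtain ⟨φ₁, φ₂, φ₃, h⟩ := hL1 (L i) (hLB i) (hLq i) i
    exact ⟨φ₁, φ₂, φ₃, by linarith⟩
  let S : Fin 6 → ℝ := fun i => ∑ r ∈ Finset.range M,
          min (Ee (gg (P i) (Q i)) M (vv l θ) r) (Oo (gg (P i) (Q i)) M (vv l θ) r)
  have hA : ∀ k : ℕ, (hk : k < 3) → t ⟨k, by omega⟩ * S ⟨k, by omega⟩ ≤ t ⟨k, by omega⟩ *
      (dt (P ⟨k, by omega⟩) (c₁ (α (3 * k + 1)) - c₁ (α (3 * k))) +
        dt (Q ⟨k, by omega⟩) (c₁ (α (3 * k + 2)) - c₁ (α (3 * k + 1))) - η + η / 4 / 3) := by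
    intro k hk
    obtain ⟨φ₁, φ₂, φ₃, h⟩ := hpl ⟨k, by omega⟩
    refine mul_le_mul_of_nonneg_left ?_ (ht0 _)
    have h' := h6.first k hk φ₁ φ₂ φ₃
    show ∑ r ∈ Finset.range M, _ ≤ _
    linarith
  have hB : ∀ k : ℕ, (hk : k < 3) → t ⟨3 + k, by omega⟩ * S ⟨3 + k, by omega⟩ ≤
      t ⟨3 + k, by omega⟩ *
      (dt (P ⟨3 + k, by omega⟩) (c₂ (β (3 * k + 1)) - c₂ (β (3 * k))) +
        dt (Q ⟨3 + k, by omega⟩) (c₂ (β (3 * k + 2)) - c₂ (β (3 * k + 1))) - η + η / 4 / 3) := by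
    intro k hk
    obtain ⟨φ₁, φ₂, φ₃, h⟩ := hpl ⟨3 + k, by omega⟩
    refine mul_le_mul_of_nonneg_left ?_ (ht0 _)
    have h' := h6.second k hk φ₁ φ₂ φ₃
    show ∑ r ∈ Finset.range M, _ ≤ _
    linarith
  have hcore' : ∑ m ∈ Finset.range (6 * M), mx t P Q (vv l θ m) ≤ ∑ i, t i * S i := hcore
  have ht1' : 1 ≤ ∑ i, t i := by
    rw [← hi₀]
    exact Finset.single_le_sum (fun i _ => ht0 i) (Finset.mem_univ i₀)
  rw [Fin.sum_univ_six] at hcore' ht1'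
  simp only [Fin.sum_univ_three] at hstar
  have e0 := hA 0 (by norm_num)
  have e1 := hA 1 (by norm_num)
  have e2 := hA 2 (by norm_num)
  have e3 := hB 0 (by norm_num)
  have e4 := hB 1 (by norm_num)
  have e5 := hB 2 (by norm_num)
  have p0 : Pn ((0 : Fin 3) : ℕ) = P 0 := by simp [Pn]
  have p1 : Pn ((1 : Fin 3) : ℕ) = P 1 := by simp [Pn]
  have p2 : Pn ((2 : Fin 3) : ℕ) = P 2 := by simp [Pn]
  have p3 : Pn (3 + ((0 : Fin 3) : ℕ)) = P 3 := by simp [Pn]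
  have p4 : Pn (3 + ((1 : Fin 3) : ℕ)) = P 4 := by simp [Pn]
  have p5 : Pn (3 + ((2 : Fin 3) : ℕ)) = P 5 := by simp [Pn]
  have q0 : Qn ((0 : Fin 3) : ℕ) = Q 0 := by simp [Qn]
  have q1 : Qn ((1 : Fin 3) : ℕ) = Q 1 := by simp [Qn]
  have q2 : Qn ((2 : Fin 3) : ℕ) = Q 2 := by simp [Qn]
  have q3 : Qn (3 + ((0 : Fin 3) : ℕ)) = Q 3 := by simp [Qn]
  have q4 : Qn (3 + ((1 : Fin 3) : ℕ)) = Q 4 := by simp [Qn]
  have q5 : Qn (3 + ((2 : Fin 3) : ℕ)) = Q 5 := by simp [Qn]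
  rw [p0, p1, p2, p3, p4, p5, q0, q1, q2, q3, q4, q5] at hstar
  have i0 : (⟨0, by omega⟩ : Fin 6) = 0 := rfl
  have i1 : (⟨1, by omega⟩ : Fin 6) = 1 := rfl
  have i2 : (⟨2, by omega⟩ : Fin 6) = 2 := rfl
  have i3 : (⟨3 + 0, by omega⟩ : Fin 6) = 3 := rfl
  have i4 : (⟨3 + 1, by omega⟩ : Fin 6) = 4 := rfl
  have i5 : (⟨3 + 2, by omega⟩ : Fin 6) = 5 := rfl
  have j0 : (Fin.castLE (by norm_num) (0 : Fin 3) : Fin 6) = 0 := rfl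
  have j1 : (Fin.castLE (by norm_num) (1 : Fin 3) : Fin 6) = 1 := rfl
  have j2 : (Fin.castLE (by norm_num) (2 : Fin 3) : Fin 6) = 2 := rfl
  have j3 : (Fin.natAdd 3 (0 : Fin 3) : Fin 6) = 3 := rfl
  have j4 : (Fin.natAdd 3 (1 : Fin 3) : Fin 6) = 4 := rfl
  have j5 : (Fin.natAdd 3 (2 : Fin 3) : Fin 6) = 5 := rfl
  rw [i0] at e0
  rw [i1] at e1
  rw [i2] at e2
  rw [i3] at e3
  rw [i4] at e4
  rw [i5] at e5
  rw [j0, j1, j2, j3, j4, j5] at hstar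
  have f0 : ((0 : Fin 3) : ℕ) = 0 := rfl
  have f1 : ((1 : Fin 3) : ℕ) = 1 := rfl
  have f2 : ((2 : Fin 3) : ℕ) = 2 := rfl
  simp only [f0, f1, f2] at hstar
  have key : (t 0 + t 1 + t 2 + t 3 + t 4 + t 5) * (η - η / 4 / 3) ≤ η / 4 / 3 := by
    nlinarith [hstar, hcore', e0, e1, e2, e3, e4, e5]
  have key2 : (η - η / 4 / 3) ≤ (t 0 + t 1 + t 2 + t 3 + t 4 + t 5) * (η - η / 4 / 3) := by
    nlinarith [mul_nonneg (sub_nonneg.2 ht1') (by linarith : (0:ℝ) ≤ η - η / 4 / 3)]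
  linarith

end ZP27
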