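import Pool.Agent.H27.ZP.TT2

/-!
# Theorem T (no six bad arcs) in the form used by the application
-/

set_option autoImplicit false

open Real

namespace ZP27

open ZP

/-- the value of a certificate changes little with `P`, `Q` -/
lemma val_lip {R δ : ℝ} (hδ : 0 ≤ δ) (P Q P' Q' : V) (hP : ‖P' - P‖ ≤ δ) (hQ : ‖Q' - Q‖ ≤ δ)
    (x y z e f : V) (hx : ‖x‖ ≤ R) (hy : ‖y‖ ≤ R) (hz : ‖z‖ ≤ R) (he : ‖e‖ ≤ 2 * R)
    (hf : ‖f‖ ≤ 2 * R) {η : ℝ} (hη : 16 * δ * R ≤ η)
    (h : - dt P x + dt (P - Q) y + dt Q z + 2 * η ≤ dt P e + dt Q f) :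
    - dt P' x + dt (P' - Q') y + dt Q' z + η ≤ dt P' e + dt Q' f := by
  have hR : 0 ≤ R := le_trans (norm_nonneg x) hx
  have key : ∀ (A A' v : V) (K : ℝ), ‖A' - A‖ ≤ δ → ‖v‖ ≤ K → |dt A' v - dt A v| ≤ 2 * δ * K := by
    intro A A' v K hA hv
    rw [← sub_dt]
    refine (dt_le _ _).trans ?_
    have := norm_nonneg v
    exact mul_le_mul (by linarith) hv this (by positivity)
  have k1 := abs_le.1 (key P P' x R hP hx)
  have k2 := abs_le.1 (key P P' y R hP hy)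
  have k3 := abs_le.1 (key Q Q' y R hQ hy)
  have k4 := abs_le.1 (key Q Q' z R hQ hz)
  have k5 := abs_le.1 (key P P' e (2 * R) hP he)
  have k6 := abs_le.1 (key Q Q' f (2 * R) hQ hf)
  rw [sub_dt] at h ⊢
  linarith

theorem TTs' {l lA lB : ℝ → V} (hl : Bd l) (hA : Bd lA) (hB : Bd lB)
    (hx : ∀ θ φ ψ, dt (uu θ) (lA φ - lB ψ) ≤ dt (uu θ) (qq l θ)) (bA : Bad3 l lA)
    (bB : Bad3 l lB) : False := by
  obtain ⟨α, P1, Q1, η1, hη1, hα, hα8, h1⟩ := bA
  obtain ⟨β, P2, Q2, η2, hη2, hβ, hβ8, h2⟩ := bB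
  -- the common data
  let P : Fin 6 → V := fun i => if i.1 < 3 then P1 i.1 else -P2 (i.1 - 3)
  let Q : Fin 6 → V := fun i => if i.1 < 3 then Q1 i.1 else -Q2 (i.1 - 3)
  let L : Fin 6 → ℝ → V := fun i => if i.1 < 3 then l else ng l
  obtain ⟨R1, hR1, hb1⟩ := bdd hl
  obtain ⟨R2, hR2, hb2⟩ := bdd hA
  obtain ⟨R3, hR3, hb3⟩ := bdd hB
  set R : ℝ := R1 + R2 + R3 with hR
  have hR0 : 0 < R := by positivity
  set η : ℝ := min η1 η2 / 2 with hη
  have hη0 : 0 < η := by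
    have := lt_min hη1 hη2
    positivity
  set δ : ℝ := η / (16 * R) with hδ
  have hδ0 : 0 < δ := by positivity
  have hδR : 16 * δ * R = η := by rw [hδ]; field_simp
  have hz : ∀ v : V, dt 0 v = 0 := by intro v; simp [dt]
  have hcr : ∀ i, 0 ≤ cr (P i) (Q i) := by
    intro i
    by_cases hi : i.1 < 3
    · simp only [P, Q, hi, if_true]
      exact (h1 i.1 hi).1
    · simp only [P, Q, hi, if_false]
      have := (h2 (i.1 - 3) (by omega)).1
      have e : cr (-P2 (i.1 - 3)) (-Q2 (i.1 - 3)) = cr (P2 (i.1 - 3)) (Q2 (i.1 - 3)) := by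
        simp [cr]
      rw [e]; exact this
  have h0 : ∀ i, P i ≠ 0 ∨ Q i ≠ 0 := by
    intro i
    by_contra hc
    push Not at hc
    obtain ⟨c1, c2⟩ := hc
    by_cases hi : i.1 < 3
    · simp only [P, Q, hi, if_true] at c1 c2
      have := (h1 i.1 hi).2 0 0 0
      rw [c1, c2] at this
      simp only [sub_zero, hz] at this
      linarith
    · simp only [P, Q, hi, if_false, neg_eq_zero] at c1 c2
      have := (h2 (i.1 - 3) (by omega)).2 0 0 0
      rw [c1, c2] at this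
      simp only [sub_zero, hz] at this
      linarith
  obtain ⟨P', Q', hP', hQ', hcr', hgen⟩ := Ge P Q hcr h0 hδ0
  have hng : ∀ ψ, ng l ψ = - l (ψ + π) := fun ψ => rfl
  refine TT_gen hl (L := L) ?_ hA (neg hB) ?_ hα hα8 (β := fun j => β j - π) ?_ ?_ hcr' hgen
    hη0 ⟨?_, ?_⟩
  · intro i
    by_cases hi : i.1 < 3
    · left; simp only [L, hi, if_true]
    · right; simp only [L, hi, if_false]
  · intro θ φ ψ
    have := hx θ φ (ψ + π)
    have e : lA φ + ng lB ψ = lA φ - lB (ψ + π) := by unfold ng; abel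
    rw [e]; exact this
  · intro i j hij
    have := hβ hij
    show β i - π ≤ β j - π
    linarith
  · show β 8 - π ≤ β 0 - π + 2 * π
    linarith
  · intro k hk ψ₁ ψ₂ ψ₃
    have hk1 : ((⟨k, by omega⟩ : Fin 6)).1 < 3 := hk
    have eP : P ⟨k, by omega⟩ = P1 k := by simp only [P, hk, if_true]
    have eQ : Q ⟨k, by omega⟩ = Q1 k := by simp only [Q, hk, if_true]
    have eL : L ⟨k, by omega⟩ = l := by simp only [L, hk, if_true]
    have hh := (h1 k hk).2 ψ₁ ψ₂ ψ₃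
    rw [← eP, ← eQ] at hh
    rw [eL]
    have hp := hP' ⟨k, by omega⟩
    have hq := hQ' ⟨k, by omega⟩
    have bl : ∀ ψ, ‖l ψ‖ ≤ R := fun ψ => (hb1 ψ).trans (by rw [hR]; linarith)
    have bd : ∀ φ ψ, ‖lA φ - lA ψ‖ ≤ 2 * R := by
      intro φ ψ
      have e1 := norm_sub_le (lA φ) (lA ψ)
      have e2 := hb2 φ
      have e3 := hb2 ψ
      rw [hR]; linarith
    exact val_lip hδ0.le _ _ _ _ hp hq _ _ _ _ _ (bl _) (bl _) (bl _) (bd _ _) (bd _ _) hδR.le
      (by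
        have : 2 * η ≤ η1 := by rw [hη]; linarith [min_le_left η1 η2]
        linarith)
  · intro k hk ψ₁ ψ₂ ψ₃
    have hk1 : ¬ (3 + k < 3) := by omega
    have hk2 : 3 + k - 3 = k := by omega
    have eP : P ⟨3 + k, by omega⟩ = -P2 k := by simp only [P, hk1, if_false, hk2]
    have eQ : Q ⟨3 + k, by omega⟩ = -Q2 k := by simp only [Q, hk1, if_false, hk2]
    have eL : L ⟨3 + k, by omega⟩ = ng l := by simp only [L, hk1, if_false]
    have hh := (h2 k hk).2 (ψ₁ + π) (ψ₂ + π) (ψ₃ + π)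
    rw [eL]
    have hp := hP' ⟨3 + k, by omega⟩
    have hq := hQ' ⟨3 + k, by omega⟩
    rw [eP] at hp
    rw [eQ] at hq
    have bl : ∀ ψ, ‖ng l ψ‖ ≤ R := by
      intro ψ
      rw [hng, norm_neg]
      exact (hb1 _).trans (by rw [hR]; linarith)
    have bd : ∀ φ ψ, ‖ng lB φ - ng lB ψ‖ ≤ 2 * R := by
      intro φ ψ
      have e0 : ng lB φ - ng lB ψ = lB (ψ + π) - lB (φ + π) := by unfold ng; abel
      rw [e0]
      have e1 := norm_sub_le (lB (ψ + π)) (lB (φ + π))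
      have e2 := hb3 (φ + π)
      have e3 := hb3 (ψ + π)
      rw [hR]; linarith
    refine val_lip hδ0.le (-P2 k) (-Q2 k) _ _ hp hq _ _ _ _ _ (bl _) (bl _) (bl _) (bd _ _)
      (bd _ _) hδR.le ?_
    have hη2' : 2 * η ≤ η2 := by rw [hη]; linarith [min_le_right η1 η2]
    have c1 : ∀ a b : ℕ, ng lB (β a - π) - ng lB (β b - π) = -(lB (β a) - lB (β b)) := by
      intro a b
      unfold ng
      rw [show β a - π + π = β a by ring, show β b - π + π = β b by ring]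
      abel
    rw [c1, c1, hng, hng, hng]
    have d1 : ∀ a b : V, dt (-a) (-b) = dt a b := by intro a b; simp [dt]
    have d2 : -P2 k - -Q2 k = -(P2 k - Q2 k) := by abel
    rw [d2, d1, d1, d1, d1, d1]
    linarith

end ZP27
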